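import Mathlib

/-!
Strictly convex domains in `ℂ²`: elementary estimates for the Leray support function and for its
restriction to a slice.
-/

set_option autoImplicit false

open MeasureTheory Set Filter Topology Complex Metric

namespace Pool.Agent.Y263.SC

/-- neighbourhood of `D` -/
def Nb (D : Set (ℂ × ℂ)) (d : ℝ) : Set (ℂ × ℂ) :=
  {q | ∃ p ∈ D, ‖q.1 - p.1‖ + ‖q.2 - p.2‖ ≤ d}

/-- quantitative strict convexity: `a = ∂ρ/∂w`, `b = ∂ρ/∂y` -/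
structure SCD (D : Set (ℂ × ℂ)) (ρ : ℂ × ℂ → ℝ) (a b : ℂ × ℂ → ℂ) (l L d : ℝ) : Prop where
  l0 : 0 < l
  l1 : l ≤ 1
  L1 : 1 ≤ L
  d0 : 0 < d
  op : IsOpen D
  neg : ∀ p ∈ D, ρ p < 0
  mem : ∀ q ∈ Nb D d, ρ q < 0 → q ∈ D
  conv : ∀ p ∈ Nb D d, ∀ q ∈ Nb D d, ρ p + 2 * (a p * (q.1 - p.1) + b p * (q.2 - p.2)).re +
    l * (‖q.1 - p.1‖ ^ 2 + ‖q.2 - p.2‖ ^ 2) ≤ ρ q
  alip : ∀ p ∈ Nb D d, ∀ q ∈ Nb D d, ‖a p - a q‖ ≤ L * (‖p.1 - q.1‖ + ‖p.2 - q.2‖)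
  blip : ∀ p ∈ Nb D d, ∀ q ∈ Nb D d, ‖b p - b q‖ ≤ L * (‖p.1 - q.1‖ + ‖p.2 - q.2‖)
  abd : ∀ p ∈ Nb D d, ‖a p‖ ≤ L
  bbd : ∀ p ∈ Nb D d, ‖b p‖ ≤ L
  rbd : ∀ p ∈ D, -ρ p ≤ L
  cvx : ∀ p ∈ Nb D d, ∀ q ∈ Nb D d, ∀ t : ℝ, 0 ≤ t → t ≤ 1 →
    ((1 - t : ℝ) : ℂ) • p + ((t : ℝ) : ℂ) • q ∈ Nb D d

variable {D : Set (ℂ × ℂ)} {ρ : ℂ × ℂ → ℝ} {a b : ℂ × ℂ → ℂ} {l L d : ℝ}

theorem SCD.sub (h : SCD D ρ a b l L d) {p : ℂ × ℂ} (hp : p ∈ D) : p ∈ Nb D d :=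
  ⟨p, hp, by simp [h.d0.le]⟩

/-- the centre of a slice -/
structure Cen (D : Set (ℂ × ℂ)) (ρ : ℂ × ℂ → ℝ) (b : ℂ × ℂ → ℂ) (ζ c : ℂ) (τ : ℝ) : Prop where
  mem : (ζ, c) ∈ D
  b0 : b (ζ, c) = 0
  val : ρ (ζ, c) = -τ

/-- the Leray function `Φ = -ρ(ζ,η) - P` -/
noncomputable def PL (a b : ℂ × ℂ → ℂ) (ζ η w y : ℂ) : ℂ :=
  a (ζ, η) * (w - ζ) + b (ζ, η) * (y - η)

/-- the Leray function -/
noncomputable def Ph (ρ : ℂ × ℂ → ℝ) (a b : ℂ × ℂ → ℂ) (ζ η w y : ℂ) : ℂ :=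
  ((-ρ (ζ, η) : ℝ) : ℂ) - PL a b ζ η w y

theorem cs2 (x y u v : ℂ) : ‖x * u + y * v‖ ≤ ‖x‖ * ‖u‖ + ‖y‖ * ‖v‖ :=
  (norm_add_le _ _).trans (by rw [norm_mul, norm_mul])

section slice

variable {ζ c : ℂ} {τ : ℝ}

theorem tau_pos (h : SCD D ρ a b l L d) (hc : Cen D ρ b ζ c τ) : 0 < τ := by
  have := h.neg _ hc.mem
  rw [hc.val] at this
  linarith

theorem tau_le (h : SCD D ρ a b l L d) (hc : Cen D ρ b ζ c τ) : τ ≤ L := by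
  have := h.rbd _ hc.mem
  rw [hc.val] at this
  linarith

/-- (S1) -/
theorem s1 (h : SCD D ρ a b l L d) (hc : Cen D ρ b ζ c τ) {η : ℂ} (hη : (ζ, η) ∈ Nb D d) :
    l * ‖η - c‖ ^ 2 ≤ ρ (ζ, η) + τ := by
  have h1 := h.conv _ (h.sub hc.mem) _ hη
  rw [hc.b0, hc.val] at h1
  simp at h1
  linarith

/-- (S2) -/
theorem s2 (h : SCD D ρ a b l L d) (hc : Cen D ρ b ζ c τ) {η : ℂ} (hη : (ζ, η) ∈ Nb D d) :
    ‖b (ζ, η)‖ ≤ L * ‖η - c‖ := by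
  have h1 := h.blip _ hη _ (h.sub hc.mem)
  rw [hc.b0] at h1
  simpa using h1

theorem s2' (h : SCD D ρ a b l L d) (hc : Cen D ρ b ζ c τ) {η : ℂ} (hη : (ζ, η) ∈ Nb D d) :
    l * ‖b (ζ, η)‖ ^ 2 ≤ L ^ 2 * (ρ (ζ, η) + τ) := by
  have h1 := s1 h hc hη
  have h2 := s2 h hc hη
  have h3 : ‖b (ζ, η)‖ ^ 2 ≤ (L * ‖η - c‖) ^ 2 := pow_le_pow_left₀ (norm_nonneg _) h2 2
  have hl := h.l0
  calc l * ‖b (ζ, η)‖ ^ 2 ≤ l * (L * ‖η - c‖) ^ 2 := mul_le_mul_of_nonneg_left h3 hl.le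
    _ = L ^ 2 * (l * ‖η - c‖ ^ 2) := by ring
    _ ≤ _ := mul_le_mul_of_nonneg_left h1 (by positivity)

/-- general gradient bound -/
theorem grad (h : SCD D ρ a b l L d) {p q : ℂ × ℂ} (hp : p ∈ Nb D d) (hq : q ∈ Nb D d)
    (hpq : ρ q ≤ ρ p) : l * (ρ p - ρ q) ≤ ‖a p‖ ^ 2 + ‖b p‖ ^ 2 := by
  have h1 := h.conv _ hp _ hq
  have h2 := cs2 (a p) (b p) (q.1 - p.1) (q.2 - p.2)
  have h3 : -‖a p * (q.1 - p.1) + b p * (q.2 - p.2)‖ ≤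
      (a p * (q.1 - p.1) + b p * (q.2 - p.2)).re := by
    have := Complex.abs_re_le_norm (a p * (q.1 - p.1) + b p * (q.2 - p.2))
    have := neg_abs_le (a p * (q.1 - p.1) + b p * (q.2 - p.2)).re
    linarith
  have hl := h.l0
  -- ρ p - ρ q ≤ 2 (|a||u| + |b||v|) - l (|u|² + |v|²)
  have h4 : ρ p - ρ q ≤ 2 * (‖a p‖ * ‖q.1 - p.1‖ + ‖b p‖ * ‖q.2 - p.2‖) -
      l * (‖q.1 - p.1‖ ^ 2 + ‖q.2 - p.2‖ ^ 2) := by linarith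
  have h5 := mul_le_mul_of_nonneg_left h4 hl.le
  nlinarith [sq_nonneg (‖a p‖ - l * ‖q.1 - p.1‖), sq_nonneg (‖b p‖ - l * ‖q.2 - p.2‖)]

/-- (S3) -/
theorem s3 (h : SCD D ρ a b l L d) (hc : Cen D ρ b ζ c τ) {η : ℂ} (hη : (ζ, η) ∈ Nb D d) :
    l * (ρ (ζ, η) + τ) ≤ ‖b (ζ, η)‖ ^ 2 := by
  have h1 := h.conv _ hη _ (h.sub hc.mem)
  rw [hc.val] at h1
  simp only [sub_self, mul_zero, zero_add, norm_zero] at h1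
  have h2 : -(‖b (ζ, η)‖ * ‖c - η‖) ≤ (b (ζ, η) * (c - η)).re := by
    rw [← norm_mul]
    have := Complex.abs_re_le_norm (b (ζ, η) * (c - η))
    have := neg_abs_le (b (ζ, η) * (c - η)).re
    linarith
  have hl := h.l0
  have h4 : ρ (ζ, η) + τ ≤ 2 * (‖b (ζ, η)‖ * ‖c - η‖) - l * ‖c - η‖ ^ 2 := by nlinarith
  have h5 := mul_le_mul_of_nonneg_left h4 hl.le
  nlinarith [sq_nonneg (‖b (ζ, η)‖ - l * ‖c - η‖)]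

/-- (P1) -/
theorem p1 (h : SCD D ρ a b l L d) {η w y : ℂ} (hη : (ζ, η) ∈ D) (hz : (w, y) ∈ Nb D d) :
    -ρ (ζ, η) - ρ (w, y) + l * (‖w - ζ‖ ^ 2 + ‖y - η‖ ^ 2) ≤ 2 * (Ph ρ a b ζ η w y).re := by
  have h1 := h.conv _ (h.sub hη) _ hz
  unfold Ph PL
  simp only [Complex.sub_re, Complex.ofReal_re] at h1 ⊢
  linarith

/-- `|Φ| ≥ r/2` and `|Φ| ≥ -ρ(z)/2` etc. -/
theorem p1' (h : SCD D ρ a b l L d) {η w y : ℂ} (hη : (ζ, η) ∈ D) (hz : (w, y) ∈ Nb D d) :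
    -ρ (ζ, η) - ρ (w, y) + l * (‖w - ζ‖ ^ 2 + ‖y - η‖ ^ 2) ≤ 2 * ‖Ph ρ a b ζ η w y‖ := by
  have h1 := p1 h hη hz
  have h2 := Complex.re_le_norm (Ph ρ a b ζ η w y)
  linarith

theorem p1r (h : SCD D ρ a b l L d) {η w y : ℂ} (hη : (ζ, η) ∈ D) (hz : (w, y) ∈ D) :
    -ρ (ζ, η) ≤ 2 * ‖Ph ρ a b ζ η w y‖ := by
  have h1 := p1' h hη (h.sub hz)
  have h2 := h.neg _ hz
  have h3 : 0 ≤ l * (‖w - ζ‖ ^ 2 + ‖y - η‖ ^ 2) := by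
    have := h.l0
    positivity
  linarith

theorem p1z (h : SCD D ρ a b l L d) {η w y : ℂ} (hη : (ζ, η) ∈ D) (hz : (w, y) ∈ D) :
    -ρ (w, y) ≤ 2 * ‖Ph ρ a b ζ η w y‖ := by
  have h1 := p1' h hη (h.sub hz)
  have h2 := h.neg _ hη
  have h3 : 0 ≤ l * (‖w - ζ‖ ^ 2 + ‖y - η‖ ^ 2) := by
    have := h.l0
    positivity
  linarith

theorem P_le (h : SCD D ρ a b l L d) {η w y : ℂ} (hη : (ζ, η) ∈ D) (hz : (w, y) ∈ D) :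
    ‖PL a b ζ η w y‖ ≤ 3 * ‖Ph ρ a b ζ η w y‖ := by
  have h1 := p1r h hη hz
  have h2 : PL a b ζ η w y = ((-ρ (ζ, η) : ℝ) : ℂ) - Ph ρ a b ζ η w y := by
    unfold Ph; ring
  have h3 := h.neg _ hη
  rw [h2]
  refine (norm_sub_le _ _).trans ?_
  rw [Complex.norm_real, Real.norm_of_nonneg (by linarith)]
  linarith

/-- (P2) near the boundary of the base -/
theorem p2a (h : SCD D ρ a b l L d) (hc : Cen D ρ b ζ c τ) {α : ℝ} (hα : 0 < α)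
    {η w y : ℂ} (hη : (ζ, η) ∈ D) (ha : α ≤ ‖a (ζ, η)‖) (hz : (w, y) ∈ D) :
    min (α / 6) (α ^ 2 * l ^ 2 / (8 * L ^ 2)) * min ‖w - ζ‖ (‖w - ζ‖ ^ 2 / τ) ≤
      ‖Ph ρ a b ζ η w y‖ := by
  have hτ := tau_pos h hc
  have hl := h.l0
  have hL := h.L1
  have hs : 0 ≤ ‖w - ζ‖ := norm_nonneg _
  have hPle := P_le h hη hz
  by_cases hP : α / 2 * ‖w - ζ‖ ≤ ‖PL a b ζ η w y‖
  · have h1 : α / 6 * ‖w - ζ‖ ≤ ‖Ph ρ a b ζ η w y‖ := by linarith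
    refine le_trans ?_ h1
    exact mul_le_mul (min_le_left _ _) (min_le_left _ _) (le_min hs (by positivity)) (by positivity)
  · push Not at hP
    have h1 : ‖a (ζ, η)‖ * ‖w - ζ‖ ≤ ‖PL a b ζ η w y‖ + ‖b (ζ, η)‖ * ‖y - η‖ := by
      rw [← norm_mul, ← norm_mul]
      have e : a (ζ, η) * (w - ζ) = PL a b ζ η w y - b (ζ, η) * (y - η) := by
        unfold PL; ring
      rw [e]
      exact norm_sub_le _ _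
    have h2 : α * ‖w - ζ‖ ≤ ‖a (ζ, η)‖ * ‖w - ζ‖ := mul_le_mul_of_nonneg_right ha hs
    have h3 : α / 2 * ‖w - ζ‖ ≤ ‖b (ζ, η)‖ * ‖y - η‖ := by linarith
    have h4 := s2' h hc (h.sub hη)
    have hr := h.neg _ hη
    have h5 : l * ‖b (ζ, η)‖ ^ 2 ≤ L ^ 2 * τ := by
      refine h4.trans (mul_le_mul_of_nonneg_left (by linarith) (by positivity))
    have h6 : l * (α / 2 * ‖w - ζ‖) ^ 2 ≤ L ^ 2 * τ * ‖y - η‖ ^ 2 := by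
      calc l * (α / 2 * ‖w - ζ‖) ^ 2 ≤ l * (‖b (ζ, η)‖ * ‖y - η‖) ^ 2 :=
            mul_le_mul_of_nonneg_left (pow_le_pow_left₀ (by positivity) h3 2) hl.le
        _ = (l * ‖b (ζ, η)‖ ^ 2) * ‖y - η‖ ^ 2 := by ring
        _ ≤ _ := mul_le_mul_of_nonneg_right h5 (by positivity)
    have h7 := p1' h hη (h.sub hz)
    have hz2 := h.neg _ hz
    have h8 : l * ‖y - η‖ ^ 2 ≤ 2 * ‖Ph ρ a b ζ η w y‖ := by
      have : 0 ≤ l * ‖w - ζ‖ ^ 2 := by positivity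
      linarith
    have h9 : α ^ 2 * l ^ 2 / (8 * L ^ 2) * (‖w - ζ‖ ^ 2 / τ) ≤ ‖Ph ρ a b ζ η w y‖ := by
      rw [div_mul_div_comm, div_le_iff₀ (by positivity)]
      have h10 : l * (l * (α / 2 * ‖w - ζ‖) ^ 2) ≤ L ^ 2 * τ * (l * ‖y - η‖ ^ 2) := by
        calc _ ≤ l * (L ^ 2 * τ * ‖y - η‖ ^ 2) := mul_le_mul_of_nonneg_left h6 hl.le
          _ = _ := by ring
      have h11 : L ^ 2 * τ * (l * ‖y - η‖ ^ 2) ≤ L ^ 2 * τ * (2 * ‖Ph ρ a b ζ η w y‖) :=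
        mul_le_mul_of_nonneg_left h8 (by positivity)
      nlinarith
    refine le_trans ?_ h9
    exact mul_le_mul (min_le_right _ _) (min_le_right _ _) (le_min hs (by positivity))
      (by positivity)

/-- (P2) away from the boundary of the base -/
theorem p2b (h : SCD D ρ a b l L d) (hc : Cen D ρ b ζ c τ) {τ₀ : ℝ} (hτ₀ : 0 < τ₀)
    (hτ : τ₀ ≤ τ) {η w y : ℂ} (hη : (ζ, η) ∈ D) (hz : (w, y) ∈ D) :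
    l * τ₀ / 2 * (‖w - ζ‖ ^ 2 / τ) ≤ ‖Ph ρ a b ζ η w y‖ := by
  have hl := h.l0
  have h7 := p1' h hη (h.sub hz)
  have h1 := h.neg _ hη
  have h2 := h.neg _ hz
  have h3 : 0 ≤ l * ‖y - η‖ ^ 2 := by positivity
  have h4 : l * ‖w - ζ‖ ^ 2 ≤ 2 * ‖Ph ρ a b ζ η w y‖ := by linarith
  have hτp : 0 < τ := by linarith
  rw [← mul_div_assoc, div_le_iff₀ hτp]
  nlinarith [mul_le_mul_of_nonneg_right h4 hτp.le, mul_nonneg hl.le (sq_nonneg ‖w - ζ‖)]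

end slice

end Pool.Agent.Y263.SC
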