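import Mathlib
import Pool.Agent.Y263.SC.Geo

/-!
Pointwise lower bounds for the Leray function on slices.
-/

set_option autoImplicit false

open MeasureTheory Set Filter Topology Complex Metric

namespace Pool.Agent.Y263.SC

variable {D : Set (ℂ × ℂ)} {ρ : ℂ × ℂ → ℝ} {a b : ℂ × ℂ → ℂ} {l L d : ℝ}

/-- (P2) with a constant depending only on the domain -/
theorem p2 (h : SCD D ρ a b l L d) (hne : D.Nonempty) : ∃ c₁ : ℝ, 0 < c₁ ∧ c₁ ≤ 1 ∧
    ∀ (ζ c : ℂ) (τ : ℝ), Cen D ρ b ζ c τ → ∀ η w y : ℂ, (ζ, η) ∈ D → (w, y) ∈ D →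
      c₁ * min ‖w - ζ‖ (‖w - ζ‖ ^ 2 / τ) ≤ ‖Ph ρ a b ζ η w y‖ := by
  obtain ⟨p₀, hp₀⟩ := hne
  have hR := h.neg _ hp₀
  have hl := h.l0
  have hl1 := h.l1
  have hL := h.L1
  set R := -ρ p₀ with hRdef
  have hR0 : 0 < R := by rw [hRdef]; linarith
  set τ₀ := l ^ 2 * R / (4 * L ^ 2) with hτ₀
  have hτ₀0 : 0 < τ₀ := by positivity
  set α := √(l * R / 2) with hα
  have hα0 : 0 < α := Real.sqrt_pos.2 (by positivity)
  refine ⟨min (min (α / 6) (α ^ 2 * l ^ 2 / (8 * L ^ 2))) (min (l * τ₀ / 2) 1),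
    by positivity, (min_le_right _ _).trans (min_le_right _ _), ?_⟩
  intro ζ c τ hc η w y hη hz
  have hτ := tau_pos h hc
  have hs : 0 ≤ ‖w - ζ‖ := norm_nonneg _
  have hmin : 0 ≤ min ‖w - ζ‖ (‖w - ζ‖ ^ 2 / τ) := le_min hs (by positivity)
  by_cases hcase : τ ≤ τ₀
  · have ha : α ≤ ‖a (ζ, η)‖ := by
      have h1 : l * ‖η - c‖ ^ 2 ≤ ρ (ζ, η) + τ := s1 h hc (h.sub hη)
      have h1' : 0 ≤ l * ‖η - c‖ ^ 2 := by positivity
      have h2 : τ₀ ≤ R / 4 := by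
        rw [hτ₀, div_le_div_iff₀ (by positivity) (by norm_num)]
        have : l ^ 2 ≤ L ^ 2 := pow_le_pow_left₀ hl.le (by linarith) 2
        nlinarith
      have h3 := grad h (h.sub hη) (h.sub hp₀) (by linarith)
      have h4 := s2' h hc (h.sub hη)
      have hr := h.neg _ hη
      have h5 : l * ‖b (ζ, η)‖ ^ 2 ≤ L ^ 2 * τ :=
        h4.trans (mul_le_mul_of_nonneg_left (by linarith) (by positivity))
      have h6 : L ^ 2 * τ ≤ l ^ 2 * R / 4 := by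
        have : L ^ 2 * τ₀ = l ^ 2 * R / 4 := by
          rw [hτ₀]; field_simp
        rw [← this]
        exact mul_le_mul_of_nonneg_left hcase (by positivity)
      have h7 : ‖b (ζ, η)‖ ^ 2 ≤ l * R / 4 := by
        have : l * ‖b (ζ, η)‖ ^ 2 ≤ l * (l * R / 4) := by nlinarith
        exact le_of_mul_le_mul_left this hl
      have h8 : l * (ρ (ζ, η) + R) ≤ ‖a (ζ, η)‖ ^ 2 + ‖b (ζ, η)‖ ^ 2 := by
        have : ρ (ζ, η) - ρ p₀ = ρ (ζ, η) + R := by rw [hRdef]; ring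
        rwa [this] at h3
      have h9 : l * R / 2 ≤ ‖a (ζ, η)‖ ^ 2 := by nlinarith
      rw [hα]
      exact Real.sqrt_le_iff.2 ⟨norm_nonneg _, h9⟩
    have h1 := p2a h hc hα0 hη ha hz
    refine le_trans (mul_le_mul_of_nonneg_right (min_le_left _ _) hmin) h1
  · push Not at hcase
    have h1 := p2b h hc hτ₀0 hcase.le hη hz
    refine le_trans ?_ h1
    refine mul_le_mul ((min_le_right _ _).trans (min_le_left _ _)) (min_le_right _ _) hmin
      (by positivity)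

section slice

variable {ζ c : ℂ} {q : ℝ}

theorem sl1 (h : SCD D ρ a b l L d) (hq : 0 < q) (hc : Cen D ρ b ζ c (q ^ 2)) {η : ℂ}
    (hη : (ζ, η) ∈ D) : -ρ (ζ, η) ≤ q ^ 2 ∧ ‖η - c‖ ≤ q / l ∧ ‖b (ζ, η)‖ ≤ L * q / l := by
  have hl := h.l0
  have hl1 := h.l1
  have hL := h.L1
  have h1 := s1 h hc (h.sub hη)
  have h2 : 0 ≤ l * ‖η - c‖ ^ 2 := by positivity
  have h3 := h.neg _ hη
  have h4 : (l * ‖η - c‖) ^ 2 ≤ q ^ 2 := by
    have : (l * ‖η - c‖) ^ 2 = l * (l * ‖η - c‖ ^ 2) := by ring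
    rw [this]
    nlinarith
  have h5 : l * ‖η - c‖ ≤ q := by
    exact (sq_le_sq₀ (by positivity) hq.le).1 h4
  have h6 : ‖η - c‖ ≤ q / l := by
    rw [le_div_iff₀ hl]; linarith
  refine ⟨by linarith, h6, ?_⟩
  have h7 := s2 h hc (h.sub hη)
  calc ‖b (ζ, η)‖ ≤ L * ‖η - c‖ := h7
    _ ≤ L * (q / l) := mul_le_mul_of_nonneg_left h6 (by linarith)
    _ = _ := by ring

/-- lower bound of `b` near the boundary of the slice -/
theorem sl2 (h : SCD D ρ a b l L d) (hq : 0 < q) (hc : Cen D ρ b ζ c (q ^ 2)) {η : ℂ}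
    (hη : (ζ, η) ∈ Nb D d) (hr : -ρ (ζ, η) ≤ q ^ 2 / 2) : l * q / 2 ≤ ‖b (ζ, η)‖ := by
  have hl := h.l0
  have hl1 := h.l1
  have h1 := s3 h hc hη
  have h2 : (l * q / 2) ^ 2 ≤ ‖b (ζ, η)‖ ^ 2 := by
    refine le_trans ?_ h1
    nlinarith [mul_nonneg hl.le (sq_nonneg q), mul_nonneg (mul_nonneg hl.le (by linarith : 0 ≤ 1 - l))
      (sq_nonneg q)]
  exact (sq_le_sq₀ (by positivity) (norm_nonneg _)).1 h2

/-- (P3) -/
theorem p3 (h : SCD D ρ a b l L d) (hq : 0 < q) (hc : Cen D ρ b ζ c (q ^ 2)) {η y : ℂ}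
    (hη : (ζ, η) ∈ D) (hy : (ζ, y) ∈ D) : l / 8 * (q * ‖η - y‖) ≤ ‖Ph ρ a b ζ η ζ y‖ := by
  have hl := h.l0
  have hl1 := h.l1
  by_cases hr : -ρ (ζ, η) ≤ q ^ 2 / 2
  · have h1 := sl2 h hq hc (h.sub hη) hr
    have h2 := P_le h hη hy
    have h3 : ‖PL a b ζ η ζ y‖ = ‖b (ζ, η)‖ * ‖η - y‖ := by
      unfold PL
      rw [sub_self, mul_zero, zero_add, norm_mul, norm_sub_rev]
    rw [h3] at h2
    have h4 : l * q / 2 * ‖η - y‖ ≤ ‖b (ζ, η)‖ * ‖η - y‖ :=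
      mul_le_mul_of_nonneg_right h1 (norm_nonneg _)
    have h5 : 0 ≤ l * (q * ‖η - y‖) := by positivity
    nlinarith
  · push Not at hr
    have h1 := p1r h hη hy
    have h2 := (sl1 h hq hc hη).2.1
    have h3 := (sl1 h hq hc hy).2.1
    have h4 : ‖η - y‖ ≤ 2 * q / l := by
      have : η - y = (η - c) - (y - c) := by ring
      rw [this]
      refine (norm_sub_le _ _).trans ?_
      have : 2 * q / l = q / l + q / l := by ring
      linarith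
    rw [le_div_iff₀ hl] at h4
    nlinarith [mul_le_mul_of_nonneg_left h4 hq.le]

end slice

end Pool.Agent.Y263.SC
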