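import Mathlib
import Pool.Agent.Y263.SC.Pt

/-!
Comparison of the Leray function at a point near a slice with the Leray function at a point of the
slice.
-/

set_option autoImplicit false

open MeasureTheory Set Filter Topology Complex Metric

namespace Pool.Agent.Y263.SC

variable {D : Set (ℂ × ℂ)} {ρ : ℂ × ℂ → ℝ} {a b : ℂ × ℂ → ℂ} {l L d : ℝ}

section slice

variable {ζ c : ℂ} {q : ℝ}

theorem near2 (h : SCD D ρ a b l L d) (hq : 0 < q) (hc : Cen D ρ b ζ c (q ^ 2)) {w y : ℂ}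
    (hNb : (ζ, y) ∈ Nb D d) (hN : 4 * L * ‖w - ζ‖ ≤ -ρ (ζ, y)) (hpos : 0 < -ρ (ζ, y)) :
    (ζ, y) ∈ D ∧ ∀ η, (ζ, η) ∈ D →
      -ρ (ζ, y) + q * ‖η - y‖ ≤ (4 + 16 / l) * ‖Ph ρ a b ζ η w y‖ ∧
      -ρ (ζ, y) + q * ‖η - y‖ ≤ (2 + 8 / l) * ‖Ph ρ a b ζ η ζ y‖ ∧
      ‖Ph ρ a b ζ η w y - Ph ρ a b ζ η ζ y‖ ≤ -ρ (ζ, y) / 4 ∧
      ‖η - y‖ ≤ 2 * q / l := by
  have hl := h.l0
  have hD : (ζ, y) ∈ D := h.mem _ hNb (by linarith)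
  refine ⟨hD, fun η hη => ?_⟩
  have h1 := p1z h hη hD
  have h2 := p3 h hq hc hη hD
  have h3 : ‖Ph ρ a b ζ η w y - Ph ρ a b ζ η ζ y‖ ≤ -ρ (ζ, y) / 4 := by
    have e : Ph ρ a b ζ η w y - Ph ρ a b ζ η ζ y = -(a (ζ, η) * (w - ζ)) := by
      unfold Ph PL; ring
    rw [e, norm_neg, norm_mul]
    have h4 := mul_le_mul_of_nonneg_right (h.abd _ (h.sub hη)) (norm_nonneg (w - ζ))
    nlinarith
  have h5 : -ρ (ζ, y) + q * ‖η - y‖ ≤ (2 + 8 / l) * ‖Ph ρ a b ζ η ζ y‖ := by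
    have h6 : q * ‖η - y‖ ≤ 8 / l * ‖Ph ρ a b ζ η ζ y‖ := by
      rw [div_mul_eq_mul_div, le_div_iff₀ hl]
      nlinarith
    rw [add_mul]
    exact add_le_add h1 h6
  have h6 : ‖Ph ρ a b ζ η ζ y‖ ≤ 2 * ‖Ph ρ a b ζ η w y‖ := by
    have h7 : Ph ρ a b ζ η ζ y = Ph ρ a b ζ η w y - (Ph ρ a b ζ η w y - Ph ρ a b ζ η ζ y) := by
      ring
    have h8 := norm_sub_le (Ph ρ a b ζ η w y) (Ph ρ a b ζ η w y - Ph ρ a b ζ η ζ y)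
    rw [← h7] at h8
    linarith
  refine ⟨?_, h5, h3, ?_⟩
  · refine h5.trans ?_
    have : (4 + 16 / l) * ‖Ph ρ a b ζ η w y‖ = (2 + 8 / l) * (2 * ‖Ph ρ a b ζ η w y‖) := by ring
    rw [this]
    exact mul_le_mul_of_nonneg_left h6 (by positivity)
  · have h2 := (sl1 h hq hc hη).2.1
    have h3 := (sl1 h hq hc hD).2.1
    have : η - y = (η - c) - (y - c) := by ring
    rw [this]
    refine (norm_sub_le _ _).trans ?_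
    have : 2 * q / l = q / l + q / l := by ring
    linarith

/-- the data of case `N1` -/
structure N1 (D : Set (ℂ × ℂ)) (ρ : ℂ × ℂ → ℝ) (a b : ℂ × ℂ → ℂ) (l L d : ℝ) (ζ c : ℂ) (q : ℝ)
    (w y κ₀ : ℂ) : Prop where
  hz : (w, y) ∈ D
  s0 : 0 < ‖w - ζ‖
  nb : (ζ, y) ∈ Nb D d
  ka : a (ζ, y) = κ₀ * b (ζ, y)
  kb : ‖κ₀‖ ≤ 2 * L / (l * q)
  s1 : 2 * L * ‖w - ζ‖ ≤ q ^ 2
  s2 : 12 * L ^ 2 * ‖w - ζ‖ ≤ l ^ 2 * q ^ 2
  s3 : 26 * L ^ 3 * ‖w - ζ‖ ^ 2 ≤ l ^ 2 * q ^ 4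
  nb1 : (ζ, y + κ₀ * (w - ζ)) ∈ Nb D d
  qL : q ≤ L

theorem N1.k1 {w y κ₀ : ℂ} (h : SCD D ρ a b l L d) (hq : 0 < q)
    (hN : N1 D ρ a b l L d ζ c q w y κ₀) : 1 + ‖κ₀‖ ≤ 3 * L / (l * q) := by
  have hl := h.l0
  have hl1 := h.l1
  have hL := h.L1
  have h1 : (1 : ℝ) ≤ L / (l * q) := by
    rw [le_div_iff₀ (by positivity)]
    nlinarith [hN.qL]
  have h2 := hN.kb
  have h3 : 3 * L / (l * q) = L / (l * q) + 2 * L / (l * q) := by ring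
  linarith

/-- `κ(η) = a(ζ,η) - κ₀ b(ζ,η)` is small -/
theorem N1.kap {w y κ₀ : ℂ} (h : SCD D ρ a b l L d) (hq : 0 < q)
    (hN : N1 D ρ a b l L d ζ c q w y κ₀) {η : ℂ} (hη : (ζ, η) ∈ Nb D d) :
    ‖a (ζ, η) - κ₀ * b (ζ, η)‖ ≤ 3 * L ^ 2 / (l * q) * ‖η - y‖ := by
  have hl := h.l0
  have hL := h.L1
  have e : a (ζ, η) - κ₀ * b (ζ, η) = (a (ζ, η) - a (ζ, y)) - κ₀ * (b (ζ, η) - b (ζ, y)) := by
    rw [hN.ka]; ring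
  rw [e]
  refine (norm_sub_le _ _).trans ?_
  rw [norm_mul]
  have h1 := h.alip _ hη _ hN.nb
  have h2 := h.blip _ hη _ hN.nb
  simp only [sub_self, norm_zero, zero_add] at h1 h2
  have h3 := mul_le_mul_of_nonneg_left h2 (norm_nonneg κ₀)
  have h4 := hN.k1 h hq
  calc ‖a (ζ, η) - a (ζ, y)‖ + ‖κ₀‖ * ‖b (ζ, η) - b (ζ, y)‖
      ≤ L * ‖η - y‖ + ‖κ₀‖ * (L * ‖η - y‖) := add_le_add h1 h3
    _ = L * ‖η - y‖ * (1 + ‖κ₀‖) := by ring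
    _ ≤ L * ‖η - y‖ * (3 * L / (l * q)) := mul_le_mul_of_nonneg_left h4 (by positivity)
    _ = _ := by ring

theorem N1.y1y {w y κ₀ : ℂ} (hN : N1 D ρ a b l L d ζ c q w y κ₀) :
    ‖(y + κ₀ * (w - ζ)) - y‖ ≤ 2 * L / (l * q) * ‖w - ζ‖ := by
  rw [add_sub_cancel_left, norm_mul]
  exact mul_le_mul_of_nonneg_right hN.kb (norm_nonneg _)

/-- the term `(w - ζ) κ(η)` -/
theorem N1.kw {w y κ₀ : ℂ} (h : SCD D ρ a b l L d) (hq : 0 < q)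
    (hN : N1 D ρ a b l L d ζ c q w y κ₀) {η : ℂ} (hη : (ζ, η) ∈ Nb D d) :
    ‖(w - ζ) * (a (ζ, η) - κ₀ * b (ζ, η))‖ ≤
      3 * L ^ 2 / l * (‖w - ζ‖ / q * ‖η - (y + κ₀ * (w - ζ))‖) +
      6 * L ^ 3 / l ^ 2 * (‖w - ζ‖ ^ 2 / q ^ 2) := by
  have hl := h.l0
  have hL := h.L1
  rw [norm_mul]
  have h1 := hN.kap h hq hη
  have h2 : ‖η - y‖ ≤ ‖η - (y + κ₀ * (w - ζ))‖ + 2 * L / (l * q) * ‖w - ζ‖ := by
    have e : η - y = (η - (y + κ₀ * (w - ζ))) + ((y + κ₀ * (w - ζ)) - y) := by ring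
    rw [e]
    exact (norm_add_le _ _).trans (add_le_add le_rfl hN.y1y)
  calc ‖w - ζ‖ * ‖a (ζ, η) - κ₀ * b (ζ, η)‖
      ≤ ‖w - ζ‖ * (3 * L ^ 2 / (l * q) *
        (‖η - (y + κ₀ * (w - ζ))‖ + 2 * L / (l * q) * ‖w - ζ‖)) := by
        refine mul_le_mul_of_nonneg_left (h1.trans ?_) (norm_nonneg _)
        exact mul_le_mul_of_nonneg_left h2 (by positivity)
    _ = _ := by
        field_simp
        ring

/-- bound of `ρ` at `y₁` -/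
theorem N1.rho1 {w y κ₀ : ℂ} (h : SCD D ρ a b l L d) (hq : 0 < q)
    (hN : N1 D ρ a b l L d ζ c q w y κ₀) :
    ρ (ζ, y + κ₀ * (w - ζ)) ≤ 12 * L ^ 3 / l ^ 2 * (‖w - ζ‖ ^ 2 / q ^ 2) := by
  have hl := h.l0
  have hL := h.L1
  have h1 := h.conv _ hN.nb1 _ (h.sub hN.hz)
  have h2 := h.neg _ hN.hz
  have h3 := hN.kw h hq hN.nb1
  rw [sub_self, norm_zero, mul_zero, mul_zero, zero_add] at h3
  have e : a (ζ, y + κ₀ * (w - ζ)) * (w - ζ) + b (ζ, y + κ₀ * (w - ζ)) * (y - (y + κ₀ * (w - ζ))) =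
      (w - ζ) * (a (ζ, y + κ₀ * (w - ζ)) - κ₀ * b (ζ, y + κ₀ * (w - ζ))) := by ring
  simp only [e] at h1
  have h4 := Complex.abs_re_le_norm
    ((w - ζ) * (a (ζ, y + κ₀ * (w - ζ)) - κ₀ * b (ζ, y + κ₀ * (w - ζ))))
  have h5 := neg_abs_le
    ((w - ζ) * (a (ζ, y + κ₀ * (w - ζ)) - κ₀ * b (ζ, y + κ₀ * (w - ζ)))).re
  have h6 : 0 ≤ l * (‖w - ζ‖ ^ 2 + ‖y - (y + κ₀ * (w - ζ))‖ ^ 2) := by positivity
  have h7 : 12 * L ^ 3 / l ^ 2 * (‖w - ζ‖ ^ 2 / q ^ 2) =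
      2 * (6 * L ^ 3 / l ^ 2 * (‖w - ζ‖ ^ 2 / q ^ 2)) := by ring
  rw [h7]
  linarith

/-- distance of `y₁` to the centre -/
theorem N1.y1c {w y κ₀ : ℂ} (h : SCD D ρ a b l L d) (hq : 0 < q)
    (hc : Cen D ρ b ζ c (q ^ 2)) (hN : N1 D ρ a b l L d ζ c q w y κ₀) :
    ‖(y + κ₀ * (w - ζ)) - c‖ ≤ 3 * q / l := by
  have hl := h.l0
  have hl1 := h.l1
  have hL := h.L1
  have hs := hN.s0
  -- ρ(ζ,y) ≤ 2 L s
  have h1 := h.conv _ hN.nb _ (h.sub hN.hz)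
  have h2 := h.neg _ hN.hz
  simp only [sub_self, mul_zero, add_zero, norm_zero] at h1
  have h3 := Complex.abs_re_le_norm (a (ζ, y) * (w - ζ))
  have h4 := neg_abs_le (a (ζ, y) * (w - ζ)).re
  rw [norm_mul] at h3
  have h5 := mul_le_mul_of_nonneg_right (h.abd _ hN.nb) (norm_nonneg (w - ζ))
  have h6 : 0 ≤ l * (‖w - ζ‖ ^ 2 + 0 ^ 2) := by positivity
  have h7 : ρ (ζ, y) ≤ q ^ 2 := by
    have := hN.s1
    linarith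
  have h8 := Pool.Agent.Y263.SC.s1 h hc hN.nb
  have h9 : (l * ‖y - c‖) ^ 2 ≤ (2 * q) ^ 2 := by
    have : (l * ‖y - c‖) ^ 2 = l * (l * ‖y - c‖ ^ 2) := by ring
    rw [this]
    nlinarith [sq_nonneg q, mul_nonneg hl.le (sq_nonneg ‖y - c‖)]
  have h10 : l * ‖y - c‖ ≤ 2 * q := (sq_le_sq₀ (by positivity) (by positivity)).1 h9
  have h11 := hN.y1y
  have h12 : 2 * L / (l * q) * ‖w - ζ‖ ≤ q / l := by
    rw [div_mul_eq_mul_div, div_le_div_iff₀ (by positivity) hl]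
    nlinarith [hN.s1]
  have e : (y + κ₀ * (w - ζ)) - c = ((y + κ₀ * (w - ζ)) - y) + (y - c) := by ring
  rw [e]
  refine (norm_add_le _ _).trans ?_
  have h13 : ‖y - c‖ ≤ 2 * q / l := by
    rw [le_div_iff₀ hl]; linarith
  have : 3 * q / l = q / l + 2 * q / l := by ring
  linarith

theorem near1 (h : SCD D ρ a b l L d) (hq : 0 < q) (hc : Cen D ρ b ζ c (q ^ 2)) {w y κ₀ : ℂ}
    (hN : N1 D ρ a b l L d ζ c q w y κ₀) {c₁ : ℝ} (hc1 : 0 < c₁)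
    (hp2 : ∀ η, (ζ, η) ∈ D → c₁ * min ‖w - ζ‖ (‖w - ζ‖ ^ 2 / q ^ 2) ≤ ‖Ph ρ a b ζ η w y‖) :
    ∃ y₂ y₁ : ℂ, (ζ, y₂) ∈ D ∧ ∀ η, (ζ, η) ∈ D →
      ‖w - ζ‖ ^ 2 / q ^ 2 + q * ‖η - y₁‖ ≤
        (1 / c₁ + 16 / l + 4 / l * (3 + 6 * L ^ 3 / l ^ 2 / c₁)) * ‖Ph ρ a b ζ η w y‖ ∧
      ‖w - ζ‖ ^ 2 / q ^ 2 + q * ‖η - y₁‖ ≤
        (2 + 8 / l + 78 * L ^ 3 / l ^ 3) * ‖Ph ρ a b ζ η ζ y₂‖ ∧
      ‖Ph ρ a b ζ η w y - Ph ρ a b ζ η ζ y₂‖ ≤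
        (3 * L ^ 2 / l + 6 * L ^ 3 / l ^ 2 + 39 * L ^ 4 / l ^ 4) *
          (‖w - ζ‖ ^ 2 / q ^ 2 + ‖w - ζ‖ / q * ‖η - y₁‖) ∧
      ‖η - y₁‖ ≤ 4 * q / l := by
  have hl := h.l0
  have hl1 := h.l1
  have hL := h.L1
  have hs := hN.s0
  obtain ⟨y₁, hy₁⟩ : ∃ y₁ : ℂ, y₁ = y + κ₀ * (w - ζ) := ⟨_, rfl⟩
  obtain ⟨θ, hθ⟩ : ∃ θ : ℝ, θ = 13 * L ^ 3 / l ^ 2 * (‖w - ζ‖ ^ 2 / q ^ 4) := ⟨_, rfl⟩
  have hθ0 : 0 ≤ θ := by rw [hθ]; positivity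
  have hθ1 : θ ≤ 1 / 2 := by
    rw [hθ, div_mul_div_comm, div_le_div_iff₀ (by positivity) (by norm_num)]
    have := hN.s3
    linarith
  obtain ⟨y₂, hy₂⟩ : ∃ y₂ : ℂ, y₂ = y₁ - θ * (y₁ - c) := ⟨_, rfl⟩
  have hy1c := hN.y1c h hq hc
  rw [← hy₁] at hy1c
  have hnb1 := hN.nb1
  rw [← hy₁] at hnb1
  have hrho1 := hN.rho1 h hq
  rw [← hy₁] at hrho1
  set a₀ := ‖w - ζ‖ ^ 2 / q ^ 2 with ha₀
  have ha0 : 0 < a₀ := by rw [ha₀]; positivity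
  have hθa : θ * q ^ 2 = 13 * L ^ 3 / l ^ 2 * a₀ := by
    rw [hθ, ha₀]; field_simp
  have h12 : 12 * L ^ 3 / l ^ 2 * a₀ + a₀ ≤ 13 * L ^ 3 / l ^ 2 * a₀ := by
    have h1 : (1 : ℝ) ≤ L ^ 3 / l ^ 2 := by
      rw [le_div_iff₀ (by positivity), one_mul]
      have h2 : l ^ 2 ≤ 1 := pow_le_one₀ hl.le hl1
      have h3 : (1 : ℝ) ≤ L ^ 3 := one_le_pow₀ hL
      linarith
    have h2 : 13 * L ^ 3 / l ^ 2 * a₀ = 12 * L ^ 3 / l ^ 2 * a₀ + L ^ 3 / l ^ 2 * a₀ := by ring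
    rw [h2]
    have h3 := mul_le_mul_of_nonneg_right h1 ha0.le
    linarith
  -- `y₂` lies in the slice
  have hnb2 : (ζ, y₂) ∈ Nb D d := by
    have h1 := h.cvx _ hnb1 _ (h.sub hc.mem) θ hθ0 (by linarith)
    have e : ((1 - θ : ℝ) : ℂ) • (ζ, y₁) + ((θ : ℝ) : ℂ) • (ζ, c) = (ζ, y₂) := by
      ext
      · simp
        ring
      · simp [hy₂]
        ring
    rwa [e] at h1
  have hr2 : ρ (ζ, y₂) ≤ -a₀ := by
    have h1 := h.conv _ hnb2 _ hnb1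
    have h2 := h.conv _ hnb2 _ (h.sub hc.mem)
    rw [hc.val] at h2
    simp only [sub_self, mul_zero, zero_add] at h1 h2
    have e1 : b (ζ, y₂) * (y₁ - y₂) = (θ : ℂ) * (b (ζ, y₂) * (y₁ - c)) := by rw [hy₂]; ring
    have e2 : b (ζ, y₂) * (c - y₂) = ((-(1 - θ) : ℝ) : ℂ) * (b (ζ, y₂) * (y₁ - c)) := by
      rw [hy₂]; push_cast; ring
    rw [e1, Complex.re_ofReal_mul] at h1
    rw [e2, Complex.re_ofReal_mul] at h2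
    have h3 : 0 ≤ l * (‖(0 : ℂ)‖ ^ 2 + ‖y₁ - y₂‖ ^ 2) := by positivity
    have h4 : 0 ≤ l * (‖(0 : ℂ)‖ ^ 2 + ‖c - y₂‖ ^ 2) := by positivity
    have h5 : ρ (ζ, y₂) + 2 * (θ * (b (ζ, y₂) * (y₁ - c)).re) ≤ ρ (ζ, y₁) := by linarith
    have h6 : ρ (ζ, y₂) + 2 * (-(1 - θ) * (b (ζ, y₂) * (y₁ - c)).re) ≤ -q ^ 2 := by linarith
    have h7 := mul_le_mul_of_nonneg_left h5 (by linarith : 0 ≤ 1 - θ)
    have h8 := mul_le_mul_of_nonneg_left h6 hθ0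
    have h9 : ρ (ζ, y₂) ≤ (1 - θ) * ρ (ζ, y₁) - θ * q ^ 2 := by nlinarith
    have h10 : (1 - θ) * ρ (ζ, y₁) ≤ 12 * L ^ 3 / l ^ 2 * a₀ := by
      have h11 := mul_le_mul_of_nonneg_left hrho1 (by linarith : 0 ≤ 1 - θ)
      have h12 : 0 ≤ θ * (12 * L ^ 3 / l ^ 2 * a₀) := by positivity
      nlinarith
    rw [hθa] at h9
    linarith
  have hD2 : (ζ, y₂) ∈ D := h.mem _ hnb2 (by linarith)
  refine ⟨y₂, y₁, hD2, fun η hη => ?_⟩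
  have hηc := (sl1 h hq hc hη).2.1
  have hbη := (sl1 h hq hc hη).2.2
  have hdist : ‖η - y₁‖ ≤ 4 * q / l := by
    have e : η - y₁ = (η - c) - (y₁ - c) := by ring
    rw [e]
    refine (norm_sub_le _ _).trans ?_
    have : 4 * q / l = q / l + 3 * q / l := by ring
    linarith
  have hkw := hN.kw h hq (h.sub hη)
  rw [← hy₁, ← ha₀] at hkw
  refine ⟨?_, ?_, ?_, hdist⟩
  · -- lower bound of Φ₁
    have h1 : a₀ ≤ 1 / c₁ * ‖Ph ρ a b ζ η w y‖ := by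
      have h2 := hp2 η hη
      have h3 : min ‖w - ζ‖ a₀ = a₀ := by
        apply min_eq_right
        rw [ha₀, div_le_iff₀ (by positivity)]
        have := hN.s1
        nlinarith
      rw [h3] at h2
      rw [div_mul_eq_mul_div, one_mul, le_div_iff₀ hc1]
      linarith
    have h2 : q * ‖η - y₁‖ ≤
        (16 / l + 4 / l * (3 + 6 * L ^ 3 / l ^ 2 / c₁)) * ‖Ph ρ a b ζ η w y‖ := by
      by_cases hr : -ρ (ζ, η) ≤ q ^ 2 / 2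
      · have h3 := sl2 h hq hc (h.sub hη) hr
        have h4 := P_le h hη hN.hz
        have e : b (ζ, η) * (y₁ - η) = PL a b ζ η w y -
            (w - ζ) * (a (ζ, η) - κ₀ * b (ζ, η)) := by
          unfold PL; rw [hy₁]; ring
        have h5 : ‖b (ζ, η)‖ * ‖η - y₁‖ ≤ ‖PL a b ζ η w y‖ +
            ‖(w - ζ) * (a (ζ, η) - κ₀ * b (ζ, η))‖ := by
          rw [norm_sub_rev η y₁, ← norm_mul, e]
          exact norm_sub_le _ _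
        have h6 : l * q / 2 * ‖η - y₁‖ ≤ ‖b (ζ, η)‖ * ‖η - y₁‖ :=
          mul_le_mul_of_nonneg_right h3 (norm_nonneg _)
        have h7 : 3 * L ^ 2 / l * (‖w - ζ‖ / q * ‖η - y₁‖) ≤ l * q / 4 * ‖η - y₁‖ := by
          rw [← mul_assoc]
          refine mul_le_mul_of_nonneg_right ?_ (norm_nonneg _)
          rw [div_mul_div_comm, div_le_div_iff₀ (by positivity) (by norm_num)]
          nlinarith [hN.s2]
        have h8 : 6 * L ^ 3 / l ^ 2 * a₀ ≤ 6 * L ^ 3 / l ^ 2 * (1 / c₁ * ‖Ph ρ a b ζ η w y‖) :=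
          mul_le_mul_of_nonneg_left h1 (by positivity)
        have h9 : l / 4 * (q * ‖η - y₁‖) ≤ 3 * ‖Ph ρ a b ζ η w y‖ +
            6 * L ^ 3 / l ^ 2 * (1 / c₁ * ‖Ph ρ a b ζ η w y‖) := by
          have e1 : l * q / 2 * ‖η - y₁‖ = l / 4 * (q * ‖η - y₁‖) + l * q / 4 * ‖η - y₁‖ := by
            ring
          linarith
        have h10 : q * ‖η - y₁‖ ≤ 4 / l * (3 + 6 * L ^ 3 / l ^ 2 / c₁) * ‖Ph ρ a b ζ η w y‖ := by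
          have e2 : 4 / l * (3 + 6 * L ^ 3 / l ^ 2 / c₁) * ‖Ph ρ a b ζ η w y‖ = 4 / l *
            (3 * ‖Ph ρ a b ζ η w y‖ + 6 * L ^ 3 / l ^ 2 * (1 / c₁ * ‖Ph ρ a b ζ η w y‖)) := by ring
          rw [e2]
          have h11 := mul_le_mul_of_nonneg_left h9 (by positivity : 0 ≤ 4 / l)
          have e3 : 4 / l * (l / 4 * (q * ‖η - y₁‖)) = q * ‖η - y₁‖ := by field_simp
          rwa [e3] at h11
        rw [add_mul]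
        have : 0 ≤ 16 / l * ‖Ph ρ a b ζ η w y‖ := by positivity
        linarith
      · push Not at hr
        have h3 := p1r h hη hN.hz
        have h4 := mul_le_mul_of_nonneg_left hdist hq.le
        have h5 : q * (4 * q / l) = 4 / l * q ^ 2 := by ring
        rw [h5] at h4
        have h6 : 4 / l * q ^ 2 ≤ 4 / l * (4 * ‖Ph ρ a b ζ η w y‖) :=
          mul_le_mul_of_nonneg_left (by linarith) (by positivity)
        have h7 : 0 ≤ 4 / l * (3 + 6 * L ^ 3 / l ^ 2 / c₁) * ‖Ph ρ a b ζ η w y‖ := by positivity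
        rw [add_mul]
        have h8 : 16 / l * ‖Ph ρ a b ζ η w y‖ = 4 / l * (4 * ‖Ph ρ a b ζ η w y‖) := by ring
        rw [h8]
        linarith
    have e : (1 / c₁ + 16 / l + 4 / l * (3 + 6 * L ^ 3 / l ^ 2 / c₁)) * ‖Ph ρ a b ζ η w y‖ =
      1 / c₁ * ‖Ph ρ a b ζ η w y‖ +
        (16 / l + 4 / l * (3 + 6 * L ^ 3 / l ^ 2 / c₁)) * ‖Ph ρ a b ζ η w y‖ := by ring
    rw [e]
    exact add_le_add h1 h2
  · -- lower bound of Φ₂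
    have h1 := p1z h hη hD2
    have h2 : a₀ ≤ 2 * ‖Ph ρ a b ζ η ζ y₂‖ := by linarith
    have h3 := p3 h hq hc hη hD2
    have h4 : ‖η - y₁‖ ≤ ‖η - y₂‖ + θ * (3 * q / l) := by
      have e : η - y₁ = (η - y₂) - ((θ : ℂ) * (y₁ - c)) := by rw [hy₂]; ring
      rw [e]
      refine (norm_sub_le _ _).trans (add_le_add le_rfl ?_)
      rw [norm_mul, Complex.norm_real, Real.norm_of_nonneg hθ0]
      exact mul_le_mul_of_nonneg_left hy1c hθ0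
    have h5 : q * ‖η - y₁‖ ≤ 8 / l * ‖Ph ρ a b ζ η ζ y₂‖ +
        39 * L ^ 3 / l ^ 3 * (2 * ‖Ph ρ a b ζ η ζ y₂‖) := by
      have h6 : q * ‖η - y₂‖ ≤ 8 / l * ‖Ph ρ a b ζ η ζ y₂‖ := by
        rw [div_mul_eq_mul_div, le_div_iff₀ hl]
        linarith
      have h7 : q * (θ * (3 * q / l)) = 39 * L ^ 3 / l ^ 3 * a₀ := by
        have : q * (θ * (3 * q / l)) = 3 / l * (θ * q ^ 2) := by ring
        rw [this, hθa]
        field_simp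
        norm_num
      have h8 : 39 * L ^ 3 / l ^ 3 * a₀ ≤ 39 * L ^ 3 / l ^ 3 * (2 * ‖Ph ρ a b ζ η ζ y₂‖) :=
        mul_le_mul_of_nonneg_left h2 (by positivity)
      have h9 := mul_le_mul_of_nonneg_left h4 hq.le
      rw [mul_add, h7] at h9
      linarith
    have e : (2 + 8 / l + 78 * L ^ 3 / l ^ 3) * ‖Ph ρ a b ζ η ζ y₂‖ =
      2 * ‖Ph ρ a b ζ η ζ y₂‖ + (8 / l * ‖Ph ρ a b ζ η ζ y₂‖ +
        39 * L ^ 3 / l ^ 3 * (2 * ‖Ph ρ a b ζ η ζ y₂‖)) := by ring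
    rw [e]
    exact add_le_add h2 h5
  · -- the difference
    have e : Ph ρ a b ζ η w y - Ph ρ a b ζ η ζ y₂ = -((w - ζ) * (a (ζ, η) - κ₀ * b (ζ, η))) -
        (θ : ℂ) * (b (ζ, η) * (y₁ - c)) := by
      unfold Ph PL
      rw [hy₂, hy₁]
      ring
    rw [e]
    refine (norm_sub_le _ _).trans ?_
    rw [norm_neg, norm_mul (θ : ℂ), Complex.norm_real, Real.norm_of_nonneg hθ0, norm_mul (b (ζ, η))]
    have h1 : θ * (‖b (ζ, η)‖ * ‖y₁ - c‖) ≤ 39 * L ^ 4 / l ^ 4 * a₀ := by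
      have h2 : ‖b (ζ, η)‖ * ‖y₁ - c‖ ≤ (L * q / l) * (3 * q / l) :=
        mul_le_mul hbη hy1c (norm_nonneg _) (by positivity)
      have h3 := mul_le_mul_of_nonneg_left h2 hθ0
      have h4 : θ * ((L * q / l) * (3 * q / l)) = 39 * L ^ 4 / l ^ 4 * a₀ := by
        have : θ * ((L * q / l) * (3 * q / l)) = 3 * L / l ^ 2 * (θ * q ^ 2) := by ring
        rw [this, hθa]
        field_simp
        norm_num
      linarith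
    have h5 : 0 ≤ ‖w - ζ‖ / q * ‖η - y₁‖ := by positivity
    have h6 : 0 ≤ 6 * L ^ 3 / l ^ 2 * (‖w - ζ‖ / q * ‖η - y₁‖) := by positivity
    have h7 : 0 ≤ 39 * L ^ 4 / l ^ 4 * (‖w - ζ‖ / q * ‖η - y₁‖) := by positivity
    have h8 : 0 ≤ 3 * L ^ 2 / l * a₀ := by positivity
    have e2 : (3 * L ^ 2 / l + 6 * L ^ 3 / l ^ 2 + 39 * L ^ 4 / l ^ 4) *
      (a₀ + ‖w - ζ‖ / q * ‖η - y₁‖) = 3 * L ^ 2 / l * a₀ +
        3 * L ^ 2 / l * (‖w - ζ‖ / q * ‖η - y₁‖) + 6 * L ^ 3 / l ^ 2 * a₀ +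
        6 * L ^ 3 / l ^ 2 * (‖w - ζ‖ / q * ‖η - y₁‖) + 39 * L ^ 4 / l ^ 4 * a₀ +
        39 * L ^ 4 / l ^ 4 * (‖w - ζ‖ / q * ‖η - y₁‖) := by ring
    rw [e2]
    linarith

end slice

end Pool.Agent.Y263.SC
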