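import Mathlib
import Pool.Agent.Y263.SC.Near

/-!
Comparison of the Leray function at a point near a slice with the Leray function at a point of the
slice, uniformly over all slices.
-/

set_option autoImplicit false

open MeasureTheory Set Filter Topology Complex Metric

namespace Pool.Agent.Y263.SC

variable {D : Set (ℂ × ℂ)} {ρ : ℂ × ℂ → ℝ} {a b : ℂ × ℂ → ℂ} {l L d : ℝ}

theorem q_le (h : SCD D ρ a b l L d) {ζ c : ℂ} {q : ℝ} (hq : 0 < q)
    (hc : Cen D ρ b ζ c (q ^ 2)) : q ≤ L := by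
  have h1 := tau_le h hc
  have hL := h.L1
  nlinarith

/-- the near case -/
theorem near (h : SCD D ρ a b l L d) (hne : D.Nonempty) : ∃ ε M₀ : ℝ, 0 < ε ∧ ε ≤ 1 ∧ 1 ≤ M₀ ∧
    ∀ (ζ c : ℂ) (q : ℝ), 0 < q → Cen D ρ b ζ c (q ^ 2) → ∀ w y : ℂ, (w, y) ∈ D →
      ‖w - ζ‖ < ε * q ^ 2 → ∃ (y₂ y₁ : ℂ) (a₀ : ℝ), (ζ, y₂) ∈ D ∧ 0 < a₀ ∧ ∀ η, (ζ, η) ∈ D →
        a₀ + q * ‖η - y₁‖ ≤ M₀ * ‖Ph ρ a b ζ η w y‖ ∧
        a₀ + q * ‖η - y₁‖ ≤ M₀ * ‖Ph ρ a b ζ η ζ y₂‖ ∧
        ‖Ph ρ a b ζ η w y - Ph ρ a b ζ η ζ y₂‖ ≤ M₀ * (a₀ + √a₀ * ‖η - y₁‖) ∧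
        ‖η - y₁‖ < 5 * q / l := by
  obtain ⟨c₁, hc1, hc1', hp2⟩ := p2 h hne
  have hl := h.l0
  have hl1 := h.l1
  have hL := h.L1
  have hd := h.d0
  set d₁ := min d 1 with hd₁
  have hd1 : 0 < d₁ := by rw [hd₁]; exact lt_min hd one_pos
  have hd1' : d₁ ≤ 1 := min_le_right _ _
  have hd1'' : d₁ ≤ d := min_le_left _ _
  set ε := l ^ 2 * d₁ / (30 * L ^ 3) with hε
  set A₁ := 1 / c₁ + 16 / l + 4 / l * (3 + 6 * L ^ 3 / l ^ 2 / c₁) with hA₁
  set A₂ := 2 + 8 / l + 78 * L ^ 3 / l ^ 3 with hA₂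
  set A₃ := 3 * L ^ 2 / l + 6 * L ^ 3 / l ^ 2 + 39 * L ^ 4 / l ^ 4 with hA₃
  have hA1 : 0 ≤ A₁ := by positivity
  have hA2 : 0 ≤ A₂ := by positivity
  have hA3 : 0 ≤ A₃ := by positivity
  have hε0 : 0 < ε := by positivity
  have hL3 : (1 : ℝ) ≤ L ^ 3 := one_le_pow₀ hL
  have hl2 : l ^ 2 ≤ 1 := pow_le_one₀ hl.le hl1
  have hεe : ε * (30 * L ^ 3) = l ^ 2 * d₁ := by rw [hε]; field_simp
  have hε30 : 30 * L ^ 3 * ε ≤ l ^ 2 := by nlinarith
  have hεL : 30 * L * ε ≤ 1 := by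
    have h1 : L ≤ L ^ 3 := by nlinarith [sq_nonneg (L - 1)]
    nlinarith
  refine ⟨ε, 4 + 16 / l + A₁ + A₂ + A₃, hε0, by nlinarith, by
    have : 0 ≤ 16 / l := by positivity
    linarith, ?_⟩
  intro ζ c q hq hc w y hz hs
  have hqL := q_le h hq hc
  set s := ‖w - ζ‖ with hsdef
  have hs0 : 0 ≤ s := norm_nonneg _
  have hq2 : q ^ 2 ≤ L ^ 2 := pow_le_pow_left₀ hq.le hqL 2
  have hsq : 30 * L * s ≤ q ^ 2 := by nlinarith [mul_le_mul_of_nonneg_right hεL (sq_nonneg q)]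
  -- s ≤ d
  have hsd : 30 * L * s ≤ l ^ 2 * d₁ := by
    have h1 : s ≤ ε * L ^ 2 := hs.le.trans (mul_le_mul_of_nonneg_left hq2 hε0.le)
    calc 30 * L * s ≤ 30 * L * (ε * L ^ 2) := mul_le_mul_of_nonneg_left h1 (by positivity)
      _ = ε * (30 * L ^ 3) := by ring
      _ = _ := hεe
  have hsd' : s ≤ d := by nlinarith
  have hnb : (ζ, y) ∈ Nb D d := ⟨(w, y), hz, by
    simp only [sub_self, norm_zero, add_zero]
    rw [norm_sub_rev]
    exact hsd'⟩
  by_cases hN : 4 * L * s ≤ -ρ (ζ, y) ∧ 0 < -ρ (ζ, y)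
  · obtain ⟨hD, hη⟩ := near2 h hq hc hnb hN.1 hN.2
    refine ⟨y, y, -ρ (ζ, y), hD, hN.2, fun η hηD => ?_⟩
    obtain ⟨h1, h2, h3, h4⟩ := hη η hηD
    refine ⟨h1.trans ?_, h2.trans ?_, h3.trans ?_, lt_of_le_of_lt h4 ?_⟩
    · refine mul_le_mul_of_nonneg_right ?_ (norm_nonneg _)
      linarith
    · refine mul_le_mul_of_nonneg_right ?_ (norm_nonneg _)
      have : 2 + 8 / l ≤ 4 + 16 / l := by
        have : 0 ≤ 8 / l := by positivity
        have e : 16 / l = 8 / l + 8 / l := by ring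
        linarith
      linarith
    · have h5 : 0 ≤ √(-ρ (ζ, y)) * ‖η - y‖ := by positivity
      have h6 : (1 : ℝ) ≤ 4 + 16 / l + A₁ + A₂ + A₃ := by
        have : 0 ≤ 16 / l := by positivity
        linarith
      have h7 := hN.2
      nlinarith
    · rw [div_lt_div_iff_of_pos_right hl]
      linarith
  · have hspos : 0 < s := by
      rcases hs0.eq_or_lt with h0 | h0
      · exfalso
        apply hN
        have hwz : w = ζ := by
          have : ‖w - ζ‖ = 0 := h0.symm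
          exact sub_eq_zero.1 (norm_eq_zero.1 this)
        have := h.neg _ hz
        rw [hwz] at this
        rw [← h0, mul_zero]
        exact ⟨by linarith, by linarith⟩
      · exact h0
    have hlt : -ρ (ζ, y) < 4 * L * s := by
      by_contra hcon
      push Not at hcon
      exact hN ⟨hcon, lt_of_lt_of_le (by positivity) hcon⟩
    have hb : l * q / 2 ≤ ‖b (ζ, y)‖ := by
      refine sl2 h hq hc hnb ?_
      nlinarith
    have hb0 : b (ζ, y) ≠ 0 := norm_pos_iff.1 (lt_of_lt_of_le (by positivity) hb)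
    set κ₀ := a (ζ, y) / b (ζ, y) with hκ₀
    have hkb : ‖κ₀‖ ≤ 2 * L / (l * q) := by
      rw [hκ₀, norm_div, div_le_div_iff₀ (norm_pos_iff.2 hb0) (by positivity)]
      have h1 := h.abd _ hnb
      nlinarith [mul_le_mul h1 hb (by positivity) (by linarith)]
    have hNN : N1 D ρ a b l L d ζ c q w y κ₀ := by
      refine ⟨hz, hspos, hnb, (div_mul_cancel₀ _ hb0).symm, hkb, ?_, ?_, ?_, ?_, hqL⟩
      · nlinarith
      · -- 12 L² s ≤ l² q²
        have h1 : 30 * L ^ 3 * s ≤ l ^ 2 * q ^ 2 := by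
          calc 30 * L ^ 3 * s ≤ 30 * L ^ 3 * (ε * q ^ 2) :=
                mul_le_mul_of_nonneg_left hs.le (by positivity)
            _ = (30 * L ^ 3 * ε) * q ^ 2 := by ring
            _ ≤ l ^ 2 * q ^ 2 := mul_le_mul_of_nonneg_right hε30 (sq_nonneg q)
        have h2 : L ^ 2 ≤ L ^ 3 := by nlinarith [sq_nonneg L]
        have h3 : L ^ 2 * s ≤ L ^ 3 * s := mul_le_mul_of_nonneg_right h2 hs0
        nlinarith [mul_nonneg (by positivity : 0 ≤ L ^ 3) hs0]
      · -- 26 L³ s² ≤ l² q⁴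
        have h1 : 30 * L ^ 3 * s ≤ l ^ 2 * q ^ 2 := by
          calc 30 * L ^ 3 * s ≤ 30 * L ^ 3 * (ε * q ^ 2) :=
                mul_le_mul_of_nonneg_left hs.le (by positivity)
            _ = (30 * L ^ 3 * ε) * q ^ 2 := by ring
            _ ≤ l ^ 2 * q ^ 2 := mul_le_mul_of_nonneg_right hε30 (sq_nonneg q)
        have h2 : s ≤ q ^ 2 := by nlinarith
        have h3 : 30 * L ^ 3 * s * s ≤ l ^ 2 * q ^ 2 * q ^ 2 := by
          exact mul_le_mul h1 h2 hs0 (by positivity)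
        have h4 : 0 ≤ L ^ 3 * s ^ 2 := by positivity
        nlinarith
      · refine ⟨(w, y), hz, ?_⟩
        have h1 : ‖(y + κ₀ * (w - ζ)) - y‖ ≤ 2 * L / (l * q) * s := by
          rw [add_sub_cancel_left, norm_mul]
          exact mul_le_mul_of_nonneg_right hkb (norm_nonneg _)
        have h2 : 2 * L / (l * q) * s ≤ l * d₁ / 3 := by
          rw [div_mul_eq_mul_div, div_le_iff₀ (by positivity)]
          -- 2 L s ≤ l d₁/3 * (l q)
          have h3 : s ≤ ε * q ^ 2 := hs.le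
          have h4 : s ≤ ε * (L * q) := by
            refine h3.trans (mul_le_mul_of_nonneg_left ?_ hε0.le)
            nlinarith
          have h5 : 2 * L * s ≤ 2 * L * (ε * (L * q)) := mul_le_mul_of_nonneg_left h4 (by positivity)
          have h6 : 2 * L * (ε * (L * q)) ≤ l * d₁ / 3 * (l * q) := by
            have h7 : L ^ 2 ≤ L ^ 3 := by nlinarith [sq_nonneg L]
            have h8 : ε * L ^ 2 ≤ ε * L ^ 3 := mul_le_mul_of_nonneg_left h7 hε0.le
            have h9 : 2 * (ε * L ^ 2) ≤ l ^ 2 * d₁ / 3 := by nlinarith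
            calc 2 * L * (ε * (L * q)) = 2 * (ε * L ^ 2) * q := by ring
              _ ≤ l ^ 2 * d₁ / 3 * q := mul_le_mul_of_nonneg_right h9 hq.le
              _ = _ := by ring
          linarith
        have h3 : l * d₁ ≤ d₁ := by nlinarith
        have h4 : s ≤ d₁ / 30 := by nlinarith
        simp only
        rw [norm_sub_rev ζ w]
        linarith
    obtain ⟨y₂, y₁, hD2, hη⟩ := near1 h hq hc hNN hc1 (fun η hη => hp2 ζ c _ hc η w y hη hz)
    refine ⟨y₂, y₁, s ^ 2 / q ^ 2, hD2, by positivity, fun η hηD => ?_⟩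
    obtain ⟨h1, h2, h3, h4⟩ := hη η hηD
    have hsqrt : √(s ^ 2 / q ^ 2) = s / q := by
      rw [← div_pow, Real.sqrt_sq (by positivity)]
    have h16 : 0 ≤ 16 / l := by positivity
    refine ⟨h1.trans ?_, h2.trans ?_, ?_, lt_of_le_of_lt h4 ?_⟩
    · refine mul_le_mul_of_nonneg_right ?_ (norm_nonneg _)
      linarith
    · refine mul_le_mul_of_nonneg_right ?_ (norm_nonneg _)
      linarith
    · rw [hsqrt]
      refine h3.trans (mul_le_mul_of_nonneg_right ?_ (by positivity))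
      linarith
    · rw [div_lt_div_iff_of_pos_right hl]
      linarith

end Pool.Agent.Y263.SC
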