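import Mathlib

/-!
Radial integrals in the plane.
-/

set_option autoImplicit false

open MeasureTheory Set Filter Topology Complex Metric

namespace Pool.Agent.Y263.SC

theorem rad_int (f : ℝ → ℝ) : ∫ x : ℂ, f ‖x‖ = 2 * Real.pi * ∫ y in Ioi (0 : ℝ), y * f y := by
  rw [integral_fun_norm_addHaar (μ := (volume : Measure ℂ)) f]
  have h1 : (volume : Measure ℂ).real (ball 0 1) = Real.pi := by
    rw [Measure.real, Complex.volume_ball]
    simp
  rw [h1, Complex.finrank_real_complex]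
  simp only [Nat.add_one_sub_one, pow_one, smul_eq_mul, nsmul_eq_mul, Nat.cast_ofNat]
  ring

theorem rad_integrable (f : ℝ → ℝ) (h : IntegrableOn (fun y => y * f y) (Ioi (0 : ℝ))) :
    Integrable (fun x : ℂ => f ‖x‖) := by
  rw [integrable_fun_norm_addHaar (μ := (volume : Measure ℂ)) (f := f)]
  rw [Complex.finrank_real_complex]
  simpa using h

section one

variable {q a : ℝ}

theorem one_deriv (hq : 0 < q) (ha : 0 < a) {t : ℝ} (ht : 0 ≤ t) :
    HasDerivAt (fun t : ℝ => q ^ 2 * t ^ 2 / (2 * (a + q * t) ^ 2))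
      (t * (q ^ 2 * a / (a + q * t) ^ 3)) t := by
  have h0 : 0 < a + q * t := by positivity
  have h1 : HasDerivAt (fun t : ℝ => q ^ 2 * t ^ 2) (q ^ 2 * (2 * t)) t := by
    have := (hasDerivAt_pow 2 t).const_mul (q ^ 2)
    simpa using this
  have h2 : HasDerivAt (fun t : ℝ => a + q * t) q t := by
    have := ((hasDerivAt_id t).const_mul q).const_add a
    simpa using this
  have h3 : HasDerivAt (fun t : ℝ => 2 * (a + q * t) ^ 2) (2 * (2 * (a + q * t) * q)) t := by
    have := (h2.pow 2).const_mul 2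
    simpa using this
  have h4 := h1.div h3 (by positivity)
  have h5 : (q ^ 2 * (2 * t) * (2 * (a + q * t) ^ 2) - q ^ 2 * t ^ 2 * (2 * (2 * (a + q * t) * q))) /
      (2 * (a + q * t) ^ 2) ^ 2 = t * (q ^ 2 * a / (a + q * t) ^ 3) := by
    field_simp
    ring
  rw [h5] at h4
  exact h4

theorem one_lim (hq : 0 < q) (ha : 0 < a) :
    Tendsto (fun t : ℝ => q ^ 2 * t ^ 2 / (2 * (a + q * t) ^ 2)) atTop (𝓝 (1 / 2)) := by
  have h1 : Tendsto (fun t : ℝ => q / (a / t + q)) atTop (𝓝 (q / (0 + q))) := by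
    refine Tendsto.div tendsto_const_nhds ?_ (by linarith)
    exact (tendsto_const_nhds.div_atTop tendsto_id).add tendsto_const_nhds
  have h2 : Tendsto (fun t : ℝ => 1 / 2 * (q / (a / t + q)) ^ 2) atTop
      (𝓝 (1 / 2 * (q / (0 + q)) ^ 2)) := (h1.pow 2).const_mul _
  have h3 : (1 : ℝ) / 2 * (q / (0 + q)) ^ 2 = 1 / 2 := by
    rw [zero_add, div_self hq.ne']
    norm_num
  rw [h3] at h2
  refine h2.congr' ?_
  filter_upwards [eventually_gt_atTop 0] with t ht
  have : 0 < a + q * t := by positivity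
  field_simp

theorem one_integrable (hq : 0 < q) (ha : 0 < a) (y : ℂ) :
    Integrable (fun η : ℂ => q ^ 2 * a / (a + q * ‖η - y‖) ^ 3) := by
  have h1 := integrableOn_Ioi_deriv_of_nonneg' (a := 0)
    (fun t ht => one_deriv hq ha (mem_Ici.1 ht))
    (fun t ht => by have := mem_Ioi.1 ht; positivity) (one_lim hq ha)
  exact (rad_integrable (fun t => q ^ 2 * a / (a + q * t) ^ 3) h1).comp_sub_right y

theorem one_int (hq : 0 < q) (ha : 0 < a) (y : ℂ) :
    ∫ η : ℂ, q ^ 2 * a / (a + q * ‖η - y‖) ^ 3 = Real.pi := by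
  have h1 := integral_Ioi_of_hasDerivAt_of_nonneg' (a := 0)
    (fun t ht => one_deriv hq ha (mem_Ici.1 ht))
    (fun t ht => by have := mem_Ioi.1 ht; positivity) (one_lim hq ha)
  rw [integral_sub_right_eq_self (fun η : ℂ => q ^ 2 * a / (a + q * ‖η‖) ^ 3) y,
    rad_int (fun t => q ^ 2 * a / (a + q * t) ^ 3), h1]
  simp only [ne_eq, OfNat.ofNat_ne_zero, not_false_eq_true, zero_pow, mul_zero, zero_div, sub_zero]
  ring

end one

section two

variable {T : ℝ}

theorem two_aux (hT : 0 < T) :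
    IntegrableOn (fun t => t * (Iio T).indicator (fun t : ℝ => 1 / (t * √t)) t) (Ioi (0 : ℝ)) ∧
    ∫ t in Ioi (0 : ℝ), t * (Iio T).indicator (fun t : ℝ => 1 / (t * √t)) t = 2 * √T := by
  have e1 : ∀ t ∈ Ioi (0 : ℝ), t * (Iio T).indicator (fun t : ℝ => 1 / (t * √t)) t =
      (Ioo 0 T).indicator (fun t : ℝ => t ^ (-(1 / 2) : ℝ)) t := by
    intro t ht
    have ht' : 0 < t := ht
    by_cases h : t < T
    · rw [indicator_of_mem (show t ∈ Iio T from h), indicator_of_mem (show t ∈ Ioo 0 T from ⟨ht', h⟩),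
        Real.rpow_neg ht'.le, ← Real.sqrt_eq_rpow]
      have : 0 < √t := Real.sqrt_pos.2 ht'
      field_simp
    · rw [indicator_of_notMem (show t ∉ Iio T from h), indicator_of_notMem (fun h' => h h'.2),
        mul_zero]
  have hi : IntervalIntegrable (fun t : ℝ => t ^ (-(1 / 2) : ℝ)) volume 0 T :=
    intervalIntegral.intervalIntegrable_rpow' (by norm_num)
  have hi2 : IntegrableOn (fun t : ℝ => t ^ (-(1 / 2) : ℝ)) (Ioo 0 T) := by
    rw [intervalIntegrable_iff_integrableOn_Ioo_of_le hT.le] at hi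
    exact hi
  constructor
  · rw [integrableOn_congr_fun e1 measurableSet_Ioi]
    exact ((integrable_indicator_iff measurableSet_Ioo).2 hi2).integrableOn
  · rw [setIntegral_congr_fun measurableSet_Ioi e1, setIntegral_indicator measurableSet_Ioo]
    have : Ioi (0 : ℝ) ∩ Ioo 0 T = Ioo 0 T := by
      ext t
      simp only [mem_inter_iff, mem_Ioi, mem_Ioo]
      tauto
    rw [this, ← integral_Ioc_eq_integral_Ioo, ← intervalIntegral.integral_of_le hT.le,
      integral_rpow (Or.inl (by norm_num))]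
    rw [Real.zero_rpow (by norm_num)]
    norm_num
    rw [← Real.sqrt_eq_rpow]
    ring

theorem two_integrable (hT : 0 < T) (y : ℂ) :
    Integrable ((ball y T).indicator (fun η : ℂ => 1 / (‖η - y‖ * √‖η - y‖))) := by
  have h1 := (rad_integrable _ (two_aux hT).1).comp_sub_right y
  refine h1.congr (Eventually.of_forall fun η => ?_)
  by_cases h : ‖η - y‖ < T
  · simp only
    rw [indicator_of_mem (show ‖η - y‖ ∈ Iio T from h),
      indicator_of_mem (show η ∈ ball y T by rwa [mem_ball, dist_eq_norm])]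
  · simp only
    rw [indicator_of_notMem (show ‖η - y‖ ∉ Iio T from h),
      indicator_of_notMem (show η ∉ ball y T by rwa [mem_ball, dist_eq_norm])]

theorem two_int (hT : 0 < T) (y : ℂ) :
    ∫ η, (ball y T).indicator (fun η : ℂ => 1 / (‖η - y‖ * √‖η - y‖)) η =
      4 * Real.pi * √T := by
  have e : ∀ η : ℂ, (ball y T).indicator (fun η : ℂ => 1 / (‖η - y‖ * √‖η - y‖)) η =
      (Iio T).indicator (fun t : ℝ => 1 / (t * √t)) ‖η - y‖ := by
    intro η
    by_cases h : ‖η - y‖ < T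
    · rw [indicator_of_mem (show ‖η - y‖ ∈ Iio T from h),
        indicator_of_mem (show η ∈ ball y T by rwa [mem_ball, dist_eq_norm])]
    · rw [indicator_of_notMem (show ‖η - y‖ ∉ Iio T from h),
        indicator_of_notMem (show η ∉ ball y T by rwa [mem_ball, dist_eq_norm])]
  simp only [e]
  rw [integral_sub_right_eq_self (fun η : ℂ => (Iio T).indicator (fun t : ℝ => 1 / (t * √t)) ‖η‖) y,
    rad_int, (two_aux hT).2]
  ring

end two

/-- the bounding function -/
noncomputable def Bd (q a T : ℝ) (y η : ℂ) : ℝ :=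
  q ^ 2 * a / (a + q * ‖η - y‖) ^ 3 +
    1 / √q * (ball y T).indicator (fun η : ℂ => 1 / (‖η - y‖ * √‖η - y‖)) η

theorem Bd_nonneg {q a T : ℝ} (hq : 0 < q) (ha : 0 < a) (y η : ℂ) : 0 ≤ Bd q a T y η := by
  unfold Bd
  refine add_nonneg (by positivity) (mul_nonneg (by positivity) (indicator_nonneg ?_ _))
  intro x _
  positivity

theorem Bd_integrable {q a T : ℝ} (hq : 0 < q) (ha : 0 < a) (hT : 0 < T) (y : ℂ) :
    Integrable (Bd q a T y) :=
  (one_integrable hq ha y).add ((two_integrable hT y).const_mul _)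

theorem Bd_int {q a T : ℝ} (hq : 0 < q) (ha : 0 < a) (hT : 0 < T) (y : ℂ) :
    ∫ η, Bd q a T y η = Real.pi + 4 * Real.pi * (√T / √q) := by
  unfold Bd
  rw [integral_add (one_integrable hq ha y) ((two_integrable hT y).const_mul _), one_int hq ha,
    integral_const_mul, two_int hT]
  ring

theorem uv_aux (u v : ℝ) : u * v ^ 5 ≤ (u ^ 2 + v ^ 2) ^ 3 := by
  have h1 : u * v ≤ u ^ 2 + v ^ 2 := by nlinarith [sq_nonneg (u - v)]
  have h2 : v ^ 4 ≤ (u ^ 2 + v ^ 2) ^ 2 := by
    have : v ^ 4 = (v ^ 2) ^ 2 := by ring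
    rw [this]
    exact pow_le_pow_left₀ (by positivity) (by nlinarith [sq_nonneg u]) 2
  calc u * v ^ 5 = (u * v) * v ^ 4 := by ring
    _ ≤ (u ^ 2 + v ^ 2) * (u ^ 2 + v ^ 2) ^ 2 := by
        exact mul_le_mul h1 h2 (by positivity) (by positivity)
    _ = _ := by ring

theorem Bd_le {q a T : ℝ} (hq : 0 < q) (ha : 0 < a) {y η : ℂ} (hη : ‖η - y‖ < T) (hne : η ≠ y) :
    q ^ 2 * (a + √a * ‖η - y‖) / (a + q * ‖η - y‖) ^ 3 ≤ Bd q a T y η := by
  unfold Bd
  rw [indicator_of_mem (show η ∈ ball y T by rwa [mem_ball, dist_eq_norm]), mul_add, add_div]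
  have ht : 0 < ‖η - y‖ := norm_pos_iff.2 (sub_ne_zero.2 hne)
  set t := ‖η - y‖
  refine add_le_add le_rfl ?_
  rw [div_mul_div_comm, one_mul, div_le_div_iff₀ (by positivity) (by positivity), one_mul]
  have h1 := uv_aux (√a) (√(q * t))
  rw [Real.sq_sqrt ha.le, Real.sq_sqrt (by positivity)] at h1
  have h2 : √(q * t) ^ 5 = q ^ 2 * t ^ 2 * (√q * √t) := by
    have : √(q * t) ^ 5 = (√(q * t) ^ 2) ^ 2 * √(q * t) := by ring
    rw [this, Real.sq_sqrt (by positivity), Real.sqrt_mul hq.le]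
    ring
  rw [h2] at h1
  calc q ^ 2 * (√a * t) * (√q * (t * √t)) = √a * (q ^ 2 * t ^ 2 * (√q * √t)) := by ring
    _ ≤ _ := h1

end Pool.Agent.Y263.SC
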