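import Mathlib
import Pool.Agent.Y263.SC.Rad
import Pool.Agent.Y263.SC.Near2

/-!
Bounds for the extension operator.
-/

set_option autoImplicit false

open MeasureTheory Set Filter Topology Complex Metric

namespace Pool.Agent.Y263.SC

theorem cube_diff {x y : ℂ} {r μ : ℝ} (hμ : 0 < μ) (hx : μ ≤ ‖x‖) (hy : μ ≤ ‖y‖)
    (hry : r ≤ 2 * ‖y‖) : r * ‖x⁻¹ ^ 3 - y⁻¹ ^ 3‖ ≤ 6 * ‖x - y‖ / μ ^ 3 := by
  have hx0 : 0 < ‖x‖ := lt_of_lt_of_le hμ hx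
  have hy0 : 0 < ‖y‖ := lt_of_lt_of_le hμ hy
  have hxne : x ≠ 0 := norm_pos_iff.1 hx0
  have hyne : y ≠ 0 := norm_pos_iff.1 hy0
  have e : x⁻¹ ^ 3 - y⁻¹ ^ 3 = -((x - y) * x⁻¹ * y⁻¹ * (x⁻¹ ^ 2 + x⁻¹ * y⁻¹ + y⁻¹ ^ 2)) := by
    field_simp
    ring
  have hX : ‖x⁻¹‖ ≤ 1 / μ := by
    rw [norm_inv, inv_eq_one_div]
    exact one_div_le_one_div_of_le hμ hx
  have hY : ‖y⁻¹‖ ≤ 1 / μ := by
    rw [norm_inv, inv_eq_one_div]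
    exact one_div_le_one_div_of_le hμ hy
  have hrY : r * ‖y⁻¹‖ ≤ 2 := by
    rw [norm_inv, ← div_eq_mul_inv, div_le_iff₀ hy0]
    exact hry
  have h3 : ‖x⁻¹ ^ 2 + x⁻¹ * y⁻¹ + y⁻¹ ^ 2‖ ≤ 3 * (1 / μ) ^ 2 := by
    refine (norm_add₃_le).trans ?_
    rw [norm_pow, norm_pow, norm_mul]
    have h1 : ‖x⁻¹‖ ^ 2 ≤ (1 / μ) ^ 2 := pow_le_pow_left₀ (norm_nonneg _) hX 2
    have h2 : ‖y⁻¹‖ ^ 2 ≤ (1 / μ) ^ 2 := pow_le_pow_left₀ (norm_nonneg _) hY 2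
    have h3 : ‖x⁻¹‖ * ‖y⁻¹‖ ≤ (1 / μ) * (1 / μ) := mul_le_mul hX hY (norm_nonneg _) (by positivity)
    nlinarith
  rw [e, norm_neg, norm_mul, norm_mul, norm_mul]
  calc r * (‖x - y‖ * ‖x⁻¹‖ * ‖y⁻¹‖ * ‖x⁻¹ ^ 2 + x⁻¹ * y⁻¹ + y⁻¹ ^ 2‖)
      = ‖x - y‖ * ((r * ‖y⁻¹‖) * (‖x⁻¹‖ * ‖x⁻¹ ^ 2 + x⁻¹ * y⁻¹ + y⁻¹ ^ 2‖)) := by ring
    _ ≤ ‖x - y‖ * (2 * ((1 / μ) * (3 * (1 / μ) ^ 2))) := by
        refine mul_le_mul_of_nonneg_left ?_ (norm_nonneg _)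
        refine mul_le_mul hrY ?_ (by positivity) (by norm_num)
        exact mul_le_mul hX h3 (norm_nonneg _) (by positivity)
    _ = _ := by field_simp; ring

/-- comparison of two kernels -/
theorem core {S : Set ℂ} (hS : MeasurableSet S) {k Φ₁ Φ₂ : ℂ → ℂ} {W : ℂ → ℂ} {r : ℂ → ℝ}
    {q a₀ T M₀ CW K : ℝ} {y₁ : ℂ} (hq : 0 < q) (ha₀ : 0 < a₀) (hT : 0 < T) (hM₀ : 1 ≤ M₀)
    (hCW : 0 ≤ CW) (hK : 0 ≤ K) (hk : ∀ η ∈ S, ‖k η‖ ≤ K) (hr0 : ∀ η ∈ S, 0 ≤ r η)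
    (hW : ∀ η ∈ S, ‖W η‖ ≤ CW * r η * q ^ 2) (hr2 : ∀ η ∈ S, r η ≤ 2 * ‖Φ₂ η‖)
    (h1 : ∀ η ∈ S, a₀ + q * ‖η - y₁‖ ≤ M₀ * ‖Φ₁ η‖)
    (h2 : ∀ η ∈ S, a₀ + q * ‖η - y₁‖ ≤ M₀ * ‖Φ₂ η‖)
    (h3 : ∀ η ∈ S, ‖Φ₁ η - Φ₂ η‖ ≤ M₀ * (a₀ + √a₀ * ‖η - y₁‖))
    (h4 : ∀ η ∈ S, ‖η - y₁‖ < T)
    (hi1 : IntegrableOn (fun η => k η * (W η * (Φ₁ η)⁻¹ ^ 3)) S)
    (hi2 : IntegrableOn (fun η => k η * (W η * (Φ₂ η)⁻¹ ^ 3)) S) :
    ‖(∫ η in S, k η * (W η * (Φ₁ η)⁻¹ ^ 3)) - ∫ η in S, k η * (W η * (Φ₂ η)⁻¹ ^ 3)‖ ≤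
      6 * K * CW * M₀ ^ 4 * (Real.pi + 4 * Real.pi * (√T / √q)) := by
  rw [← integral_sub hi1 hi2]
  have hM0 : 0 < M₀ := by linarith
  have hpt : ∀ᵐ η ∂(volume.restrict S), ‖k η * (W η * (Φ₁ η)⁻¹ ^ 3) -
      k η * (W η * (Φ₂ η)⁻¹ ^ 3)‖ ≤ 6 * K * CW * M₀ ^ 4 * Bd q a₀ T y₁ η := by
    have hne : ∀ᵐ η ∂(volume.restrict S), η ≠ y₁ := by
      refine ae_restrict_of_ae ?_
      exact (measure_eq_zero_iff_ae_notMem.1 (measure_singleton (μ := (volume : Measure ℂ)) y₁)).mono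
        (fun x hx => hx)
    filter_upwards [ae_restrict_mem hS, hne] with η hη hne
    have hm : 0 < a₀ + q * ‖η - y₁‖ := by positivity
    have hμ : 0 < (a₀ + q * ‖η - y₁‖) / M₀ := by positivity
    have h5 := cube_diff (x := Φ₁ η) (y := Φ₂ η) (r := r η) hμ
      (by rw [div_le_iff₀ hM0]; linarith [h1 η hη]) (by rw [div_le_iff₀ hM0]; linarith [h2 η hη])
      (hr2 η hη)
    have e : k η * (W η * (Φ₁ η)⁻¹ ^ 3) - k η * (W η * (Φ₂ η)⁻¹ ^ 3) =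
        k η * (W η * ((Φ₁ η)⁻¹ ^ 3 - (Φ₂ η)⁻¹ ^ 3)) := by ring
    rw [e, norm_mul, norm_mul]
    have h6 := Bd_le hq ha₀ (h4 η hη) hne
    have h7 : 6 * ‖Φ₁ η - Φ₂ η‖ / ((a₀ + q * ‖η - y₁‖) / M₀) ^ 3 ≤
        6 * M₀ ^ 4 * ((a₀ + √a₀ * ‖η - y₁‖) / (a₀ + q * ‖η - y₁‖) ^ 3) := by
      rw [div_pow, div_div_eq_mul_div, ← mul_div_assoc, div_le_div_iff_of_pos_right (by positivity)]
      calc 6 * ‖Φ₁ η - Φ₂ η‖ * M₀ ^ 3 ≤ 6 * (M₀ * (a₀ + √a₀ * ‖η - y₁‖)) * M₀ ^ 3 := by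
            have := h3 η hη
            gcongr
        _ = _ := by ring
    calc ‖k η‖ * (‖W η‖ * ‖(Φ₁ η)⁻¹ ^ 3 - (Φ₂ η)⁻¹ ^ 3‖)
        ≤ K * ((CW * r η * q ^ 2) * ‖(Φ₁ η)⁻¹ ^ 3 - (Φ₂ η)⁻¹ ^ 3‖) := by
          refine mul_le_mul (hk η hη) ?_ (by positivity) hK
          exact mul_le_mul_of_nonneg_right (hW η hη) (norm_nonneg _)
      _ = K * CW * q ^ 2 * (r η * ‖(Φ₁ η)⁻¹ ^ 3 - (Φ₂ η)⁻¹ ^ 3‖) := by ring
      _ ≤ K * CW * q ^ 2 *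
          (6 * M₀ ^ 4 * ((a₀ + √a₀ * ‖η - y₁‖) / (a₀ + q * ‖η - y₁‖) ^ 3)) :=
          mul_le_mul_of_nonneg_left (h5.trans h7) (by positivity)
      _ = 6 * K * CW * M₀ ^ 4 *
          (q ^ 2 * (a₀ + √a₀ * ‖η - y₁‖) / (a₀ + q * ‖η - y₁‖) ^ 3) := by ring
      _ ≤ _ := mul_le_mul_of_nonneg_left h6 (by positivity)
  have hBi := Bd_integrable hq ha₀ hT y₁
  refine (norm_integral_le_of_norm_le ((hBi.const_mul _).restrict (s := S)) hpt).trans ?_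
  rw [integral_const_mul]
  refine mul_le_mul_of_nonneg_left ?_ (by positivity)
  rw [← Bd_int hq ha₀ hT y₁]
  exact setIntegral_le_integral hBi (Eventually.of_forall fun η => Bd_nonneg hq ha₀ y₁ η)

variable {D : Set (ℂ × ℂ)} {ρ : ℂ × ℂ → ℝ} {a b : ℂ × ℂ → ℂ} {l L d : ℝ}

/-- the slice -/
def Sl (D : Set (ℂ × ℂ)) (ζ : ℂ) : Set ℂ := {η | (ζ, η) ∈ D}

/-- hypotheses on the weight -/
structure Wt (D : Set (ℂ × ℂ)) (ρ : ℂ × ℂ → ℝ) (a b : ℂ × ℂ → ℂ) (W : ℂ × ℂ → ℂ) (CW : ℝ) :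
    Prop where
  C0 : 0 ≤ CW
  rc : ContinuousOn ρ D
  ac : ContinuousOn a D
  bc : ContinuousOn b D
  wc : ContinuousOn W D
  wb : ∀ (ζ c : ℂ) (τ : ℝ), Cen D ρ b ζ c τ → ∀ η, (ζ, η) ∈ D →
    ‖W (ζ, η)‖ ≤ CW * (-ρ (ζ, η)) * τ

/-- the extension operator (without the constant) -/
noncomputable def JJ (D : Set (ℂ × ℂ)) (ρ : ℂ × ℂ → ℝ) (a b : ℂ × ℂ → ℂ) (W : ℂ × ℂ → ℂ)
    (k : ℂ → ℂ) (ζ w y : ℂ) : ℂ :=
  ∫ η in Sl D ζ, k η * (W (ζ, η) * (Ph ρ a b ζ η w y)⁻¹ ^ 3)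

theorem Sl_open (h : SCD D ρ a b l L d) (ζ : ℂ) : IsOpen (Sl D ζ) :=
  h.op.preimage (by fun_prop : Continuous fun η : ℂ => (ζ, η))

theorem Sl_sub (h : SCD D ρ a b l L d) {ζ c : ℂ} {q : ℝ} (hq : 0 < q)
    (hc : Cen D ρ b ζ c (q ^ 2)) : Sl D ζ ⊆ closedBall c (q / l) := by
  intro η hη
  rw [mem_closedBall, dist_eq_norm]
  exact (sl1 h hq hc hη).2.1

theorem Sl_vol (h : SCD D ρ a b l L d) {ζ c : ℂ} {q : ℝ} (hq : 0 < q)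
    (hc : Cen D ρ b ζ c (q ^ 2)) : volume (Sl D ζ) ≤ ENNReal.ofReal (Real.pi * (q / l) ^ 2) := by
  have hl := h.l0
  refine (measure_mono (Sl_sub h hq hc)).trans ?_
  rw [Complex.volume_closedBall, ENNReal.ofReal_mul Real.pi_pos.le,
    ENNReal.ofReal_pow (by positivity), mul_comm]
  refine mul_le_mul_left ?_ _
  rw [← NNReal.coe_real_pi, ENNReal.ofReal_coe_nnreal]

theorem Sl_fin (h : SCD D ρ a b l L d) {ζ c : ℂ} {q : ℝ} (hq : 0 < q)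
    (hc : Cen D ρ b ζ c (q ^ 2)) : volume (Sl D ζ) ≠ ⊤ :=
  ((Sl_vol h hq hc).trans_lt ENNReal.ofReal_lt_top).ne

theorem Ph_cont {W : ℂ × ℂ → ℂ} {CW : ℝ} (hw : Wt D ρ a b W CW) (ζ w y : ℂ) :
    ContinuousOn (fun η => Ph ρ a b ζ η w y) (Sl D ζ) := by
  have hm : MapsTo (fun η : ℂ => (ζ, η)) (Sl D ζ) D := fun η hη => hη
  have hp : ContinuousOn (fun η : ℂ => (ζ, η)) (Sl D ζ) := by fun_prop
  have h1 : ContinuousOn (fun η : ℂ => ρ (ζ, η)) (Sl D ζ) := hw.rc.comp hp hm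
  have h2 : ContinuousOn (fun η : ℂ => a (ζ, η)) (Sl D ζ) := hw.ac.comp hp hm
  have h3 : ContinuousOn (fun η : ℂ => b (ζ, η)) (Sl D ζ) := hw.bc.comp hp hm
  have h4 : ContinuousOn (fun η : ℂ => ((-ρ (ζ, η) : ℝ) : ℂ)) (Sl D ζ) :=
    Complex.continuous_ofReal.comp_continuousOn h1.neg
  unfold Ph PL
  exact h4.sub ((h2.mul continuousOn_const).add (h3.mul (continuousOn_const.sub continuousOn_id)))

theorem JJ_int (h : SCD D ρ a b l L d) {W : ℂ × ℂ → ℂ} {CW : ℝ} (hw : Wt D ρ a b W CW)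
    {ζ c : ℂ} {q : ℝ} (hq : 0 < q) (hc : Cen D ρ b ζ c (q ^ 2)) {k : ℂ → ℂ} {K : ℝ}
    (hkm : AEStronglyMeasurable k (volume.restrict (Sl D ζ))) (hk : ∀ η ∈ Sl D ζ, ‖k η‖ ≤ K)
    {w y : ℂ} (hz : (w, y) ∈ D) :
    IntegrableOn (fun η => k η * (W (ζ, η) * (Ph ρ a b ζ η w y)⁻¹ ^ 3)) (Sl D ζ) := by
  have hSo := Sl_open h ζ
  have hrz := h.neg _ hz
  have hC := hw.C0
  have hm : MapsTo (fun η : ℂ => (ζ, η)) (Sl D ζ) D := fun η hη => hη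
  have hp : ContinuousOn (fun η : ℂ => (ζ, η)) (Sl D ζ) := by fun_prop
  have hne : ∀ η ∈ Sl D ζ, -ρ (w, y) / 2 ≤ ‖Ph ρ a b ζ η w y‖ := by
    intro η hη
    have := p1z h (show (ζ, η) ∈ D from hη) hz
    linarith
  have hc1 : ContinuousOn (fun η : ℂ => W (ζ, η) * (Ph ρ a b ζ η w y)⁻¹ ^ 3) (Sl D ζ) := by
    refine ContinuousOn.mul (hw.wc.comp hp hm) ?_
    refine ContinuousOn.pow (ContinuousOn.inv₀ (Ph_cont hw ζ w y) ?_) 3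
    intro η hη
    have := hne η hη
    exact norm_pos_iff.1 (by linarith)
  have hmeas : AEStronglyMeasurable (fun η => k η * (W (ζ, η) * (Ph ρ a b ζ η w y)⁻¹ ^ 3))
      (volume.restrict (Sl D ζ)) := hkm.mul (hc1.aestronglyMeasurable hSo.measurableSet)
  have : IsFiniteMeasure (volume.restrict (Sl D ζ)) :=
    ⟨by rw [Measure.restrict_apply_univ]; exact (Sl_fin h hq hc).lt_top⟩
  refine Integrable.of_bound hmeas (|K| * (CW * q ^ 2 * q ^ 2 * (2 / -ρ (w, y)) ^ 3)) ?_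
  filter_upwards [ae_restrict_mem hSo.measurableSet] with η hη
  rw [norm_mul, norm_mul, norm_pow, norm_inv]
  have h1 := hw.wb ζ c _ hc η hη
  have h2 := (sl1 h hq hc hη).1
  have h3 := hne η hη
  have h4 := h.neg _ hη
  have h5 : ‖Ph ρ a b ζ η w y‖⁻¹ ≤ 2 / -ρ (w, y) := by
    rw [inv_eq_one_div, div_le_div_iff₀ (by linarith) (by linarith)]
    linarith
  have h6 : ‖W (ζ, η)‖ ≤ CW * q ^ 2 * q ^ 2 := by
    refine h1.trans ?_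
    refine mul_le_mul_of_nonneg_right ?_ (by positivity)
    exact mul_le_mul_of_nonneg_left h2 hC
  refine mul_le_mul ((hk η hη).trans (le_abs_self K)) ?_ (by positivity) (by positivity)
  refine mul_le_mul h6 ?_ (by positivity) (by positivity)
  exact pow_le_pow_left₀ (by positivity) h5 3

/-- far from the slice -/
theorem far_bd (h : SCD D ρ a b l L d) {W : ℂ × ℂ → ℂ} {CW : ℝ} (hw : Wt D ρ a b W CW)
    {ζ c : ℂ} {q : ℝ} (hq : 0 < q) (hc : Cen D ρ b ζ c (q ^ 2)) {k : ℂ → ℂ} {K : ℝ} (hK : 0 ≤ K)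
    (hk : ∀ η ∈ Sl D ζ, ‖k η‖ ≤ K)
    {w y : ℂ} (hz : (w, y) ∈ D) {c₂ : ℝ} (hc2 : 0 < c₂)
    (hlow : ∀ η, (ζ, η) ∈ D → c₂ * q ^ 2 ≤ ‖Ph ρ a b ζ η w y‖) :
    ‖JJ D ρ a b W k ζ w y‖ ≤ 2 * K * CW / c₂ ^ 2 * (Real.pi / l ^ 2) := by
  have hSo := Sl_open h ζ
  have hl := h.l0
  have hC := hw.C0
  have hb : ∀ η ∈ Sl D ζ, ‖k η * (W (ζ, η) * (Ph ρ a b ζ η w y)⁻¹ ^ 3)‖ ≤
      2 * K * CW / c₂ ^ 2 / q ^ 2 := by
    intro η hη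
    rw [norm_mul, norm_mul, norm_pow, norm_inv]
    have h1 := hw.wb ζ c _ hc η hη
    have h3 := hlow η hη
    have h4 := h.neg _ hη
    have h5 := p1r h (show (ζ, η) ∈ D from hη) hz
    have hP : 0 < ‖Ph ρ a b ζ η w y‖ := lt_of_lt_of_le (by positivity) h3
    have h6 : -ρ (ζ, η) * ‖Ph ρ a b ζ η w y‖⁻¹ ≤ 2 := by
      rw [← div_eq_mul_inv, div_le_iff₀ hP]
      exact h5
    have h7 : ‖Ph ρ a b ζ η w y‖⁻¹ ≤ 1 / (c₂ * q ^ 2) := by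
      rw [inv_eq_one_div]
      exact one_div_le_one_div_of_le (by positivity) h3
    have h8 : ‖Ph ρ a b ζ η w y‖⁻¹ ^ 2 ≤ (1 / (c₂ * q ^ 2)) ^ 2 :=
      pow_le_pow_left₀ (by positivity) h7 2
    have h9 : ‖W (ζ, η)‖ * ‖Ph ρ a b ζ η w y‖⁻¹ ^ 3 ≤ CW * q ^ 2 * (2 * (1 / (c₂ * q ^ 2)) ^ 2) := by
      calc ‖W (ζ, η)‖ * ‖Ph ρ a b ζ η w y‖⁻¹ ^ 3
          ≤ (CW * (-ρ (ζ, η)) * q ^ 2) * ‖Ph ρ a b ζ η w y‖⁻¹ ^ 3 :=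
            mul_le_mul_of_nonneg_right h1 (by positivity)
        _ = CW * q ^ 2 * ((-ρ (ζ, η) * ‖Ph ρ a b ζ η w y‖⁻¹) * ‖Ph ρ a b ζ η w y‖⁻¹ ^ 2) := by ring
        _ ≤ CW * q ^ 2 * (2 * (1 / (c₂ * q ^ 2)) ^ 2) := by
            refine mul_le_mul_of_nonneg_left ?_ (by positivity)
            exact mul_le_mul h6 h8 (by positivity) (by norm_num)
    calc ‖k η‖ * (‖W (ζ, η)‖ * ‖Ph ρ a b ζ η w y‖⁻¹ ^ 3)
        ≤ K * (CW * q ^ 2 * (2 * (1 / (c₂ * q ^ 2)) ^ 2)) :=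
          mul_le_mul (hk η hη) h9 (by positivity) hK
      _ = _ := by field_simp
  unfold JJ
  refine (norm_setIntegral_le_of_norm_le_const (Sl_fin h hq hc).lt_top hb).trans ?_
  have h1 : volume.real (Sl D ζ) ≤ Real.pi * (q / l) ^ 2 := by
    rw [Measure.real]
    exact ENNReal.toReal_le_of_le_ofReal (by positivity) (Sl_vol h hq hc)
  calc 2 * K * CW / c₂ ^ 2 / q ^ 2 * volume.real (Sl D ζ)
      ≤ 2 * K * CW / c₂ ^ 2 / q ^ 2 * (Real.pi * (q / l) ^ 2) :=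
        mul_le_mul_of_nonneg_left h1 (by positivity)
    _ = _ := by field_simp

/-- **The kernel bound.** -/
theorem ker_bd (h : SCD D ρ a b l L d) (hne : D.Nonempty) {W : ℂ × ℂ → ℂ} {CW : ℝ}
    (hw : Wt D ρ a b W CW) : ∃ C : ℝ, 0 ≤ C ∧ ∀ (ζ c : ℂ) (q : ℝ), 0 < q →
      Cen D ρ b ζ c (q ^ 2) → ∀ (k : ℂ → ℂ) (K : ℝ), 0 ≤ K →
      AEStronglyMeasurable k (volume.restrict (Sl D ζ)) → (∀ η ∈ Sl D ζ, ‖k η‖ ≤ K) →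
      ∀ w y : ℂ, (w, y) ∈ D → ‖JJ D ρ a b W k ζ w y‖ ≤ C * K ∨
        ∃ y₂ : ℂ, (ζ, y₂) ∈ D ∧
          ‖JJ D ρ a b W k ζ w y - JJ D ρ a b W k ζ ζ y₂‖ ≤ C * K := by
  obtain ⟨ε, M₀, hε0, hε1, hM0, hnear⟩ := near h hne
  obtain ⟨c₁, hc1, -, hp2⟩ := p2 h hne
  have hl := h.l0
  have hC := hw.C0
  set c₂ := c₁ * ε ^ 2 with hc₂
  have hc2 : 0 < c₂ := by positivity
  set C₁ := 2 * CW / c₂ ^ 2 * (Real.pi / l ^ 2) with hC₁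
  set C₂ := 6 * CW * M₀ ^ 4 * (Real.pi + 4 * Real.pi * √(5 / l)) with hC₂
  have hC1 : 0 ≤ C₁ := by positivity
  have hC2 : 0 ≤ C₂ := by positivity
  refine ⟨C₁ + C₂, by positivity, ?_⟩
  intro ζ c q hq hc k K hK hkm hk w y hz
  by_cases hs : ‖w - ζ‖ < ε * q ^ 2
  · right
    obtain ⟨y₂, y₁, a₀, hD2, ha0, hη⟩ := hnear ζ c q hq hc w y hz hs
    refine ⟨y₂, hD2, ?_⟩
    have h1 := core (Sl_open h ζ).measurableSet (k := k) (Φ₁ := fun η => Ph ρ a b ζ η w y)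
      (Φ₂ := fun η => Ph ρ a b ζ η ζ y₂) (W := fun η => W (ζ, η)) (r := fun η => -ρ (ζ, η))
      (T := 5 * q / l) (M₀ := M₀) (CW := CW) (K := K) hq ha0 (by positivity) hM0 hC hK hk
      (fun η hη => by
        have := h.neg _ hη
        linarith)
      (fun η hη => hw.wb ζ c _ hc η hη)
      (fun η hη' => p1r h hη' hD2) (fun η hη' => (hη η hη').1) (fun η hη' => (hη η hη').2.1)
      (fun η hη' => (hη η hη').2.2.1) (fun η hη' => (hη η hη').2.2.2)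
      (JJ_int h hw hq hc hkm hk hz) (JJ_int h hw hq hc hkm hk hD2)
    have h2 : √(5 * q / l) / √q = √(5 / l) := by
      rw [← Real.sqrt_div (by positivity)]
      congr 1
      field_simp
    rw [h2] at h1
    refine h1.trans ?_
    have e : 6 * K * CW * M₀ ^ 4 * (Real.pi + 4 * Real.pi * √(5 / l)) = C₂ * K := by
      rw [hC₂]; ring
    rw [e]
    have : 0 ≤ C₁ * K := by positivity
    nlinarith
  · left
    push Not at hs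
    have hlow : ∀ η, (ζ, η) ∈ D → c₂ * q ^ 2 ≤ ‖Ph ρ a b ζ η w y‖ := by
      intro η hη
      have h1 := hp2 ζ c _ hc η w y hη hz
      refine le_trans ?_ h1
      rw [hc₂, mul_assoc]
      refine mul_le_mul_of_nonneg_left ?_ hc1.le
      refine le_min ?_ ?_
      · refine le_trans ?_ hs
        refine mul_le_mul_of_nonneg_right ?_ (by positivity)
        nlinarith
      · rw [le_div_iff₀ (by positivity)]
        have h2 : (ε * q ^ 2) ^ 2 ≤ ‖w - ζ‖ ^ 2 := pow_le_pow_left₀ (by positivity) hs 2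
        calc ε ^ 2 * q ^ 2 * q ^ 2 = (ε * q ^ 2) ^ 2 := by ring
          _ ≤ _ := h2
    have h1 := far_bd h hw hq hc hK hk hz hc2 hlow
    have e : 2 * K * CW / c₂ ^ 2 * (Real.pi / l ^ 2) = C₁ * K := by
      rw [hC₁]; ring
    rw [e] at h1
    have : 0 ≤ C₂ * K := by positivity
    nlinarith

end Pool.Agent.Y263.SC
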