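import Mathlib
import Pool.Agent.Helper366.IV.CP
import Pool.Agent.H720R2.HP.Weak

/-!
The reproducing formula on a plane domain `{r > 0}` with the kernel
`r (|b|² + r m) / (r - b (y - η))³`.
-/

set_option autoImplicit false

open MeasureTheory Set Filter Topology Complex Metric
open Pool.Agent.H720R2.HP (db db_mul db_holo db_congr)

namespace Pool.Agent.Y263.SC

/-- `f` is real differentiable at `z` with `∂̄ f = f'` -/
def HDb (f : ℂ → ℂ) (f' : ℂ) (z : ℂ) : Prop := DifferentiableAt ℝ f z ∧ db f z = f'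

theorem HDb.mul {f g : ℂ → ℂ} {f' g' z : ℂ} (hf : HDb f f' z) (hg : HDb g g' z) :
    HDb (fun w => f w * g w) (f z * g' + g z * f') z := by
  refine ⟨hf.1.fun_mul hg.1, ?_⟩
  rw [db_mul hf.1 hg.1, hf.2, hg.2]

theorem HDb.sub {f g : ℂ → ℂ} {f' g' z : ℂ} (hf : HDb f f' z) (hg : HDb g g' z) :
    HDb (fun w => f w - g w) (f' - g') z := by
  refine ⟨hf.1.fun_sub hg.1, ?_⟩
  rw [← hf.2, ← hg.2]
  unfold db
  rw [fderiv_fun_sub hf.1 hg.1]
  simp only [_root_.sub_apply]
  ring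

theorem HDb.holo {f : ℂ → ℂ} {z : ℂ} (hf : DifferentiableAt ℂ f z) : HDb f 0 z :=
  ⟨hf.restrictScalars ℝ, db_holo hf⟩

theorem HDb.comp {f h : ℂ → ℂ} {f' h' z : ℂ} (hf : HDb f f' z) (hh : HasDerivAt h h' (f z)) :
    HDb (fun w => h (f w)) (h' * f') z := by
  have h1 : HasFDerivAt h ((ContinuousLinearMap.toSpanSingleton ℂ h').restrictScalars ℝ) (f z) :=
    hh.hasFDerivAt.restrictScalars ℝ
  have h2 := h1.comp z hf.1.hasFDerivAt
  refine ⟨h2.differentiableAt, ?_⟩
  have h3 : fderiv ℝ (fun w => h (f w)) z =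
      ((ContinuousLinearMap.toSpanSingleton ℂ h').restrictScalars ℝ).comp (fderiv ℝ f z) :=
    h2.fderiv
  unfold db
  rw [h3, ← hf.2]
  unfold db
  simp only [ContinuousLinearMap.comp_apply, ContinuousLinearMap.coe_restrictScalars',
    ContinuousLinearMap.toSpanSingleton_apply, smul_eq_mul]
  ring

/-- real functions -/
theorem HDb.real {r : ℂ → ℝ} {b z : ℂ} {T : ℂ →L[ℝ] ℝ} (hT : ∀ v, T v = -2 * (b * v).re)
    (hr : HasFDerivAt r T z) {φ : ℝ → ℝ} {φ' : ℝ} (hφ : HasDerivAt φ φ' (r z)) :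
    HDb (fun w => ((φ (r w) : ℝ) : ℂ)) (-(φ' * starRingEnd ℂ b)) z := by
  have h1 : HasFDerivAt (fun w => φ (r w)) (φ' • T) z := hφ.comp_hasFDerivAt z hr
  have h2 : HasFDerivAt (fun w => ((φ (r w) : ℝ) : ℂ)) (Complex.ofRealCLM.comp (φ' • T)) z :=
    Complex.ofRealCLM.hasFDerivAt.comp z h1
  refine ⟨h2.differentiableAt, ?_⟩
  unfold db
  rw [h2.fderiv]
  simp only [ContinuousLinearMap.comp_apply, _root_.smul_apply, hT, smul_eq_mul,
    Complex.ofRealCLM_apply]
  apply Complex.ext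
  · simp
    ring
  · simp
    ring

/-- the cut off square -/
noncomputable def sq0 (ε t : ℝ) : ℝ := max (t - ε) 0 ^ 2

theorem sq0_deriv (ε t : ℝ) : HasDerivAt (sq0 ε) (2 * max (t - ε) 0) t := by
  rcases lt_trichotomy t ε with h | h | h
  · have h1 : sq0 ε =ᶠ[𝓝 t] fun _ => 0 := by
      filter_upwards [Iio_mem_nhds h] with s hs
      unfold sq0
      rw [max_eq_right (by linarith [mem_Iio.1 hs])]
      norm_num
    rw [max_eq_right (by linarith), mul_zero]
    exact (hasDerivAt_const t (0 : ℝ)).congr_of_eventuallyEq h1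
  · subst h
    rw [sub_self, max_self, mul_zero]
    rw [hasDerivAt_iff_isLittleO]
    have h2 : (fun x' : ℝ => sq0 t x' - sq0 t t - (x' - t) • (0 : ℝ)) =O[𝓝 t]
        fun x' => (x' - t) ^ 2 := by
      refine Asymptotics.IsBigO.of_bound 1 (Eventually.of_forall fun x => ?_)
      unfold sq0
      rw [sub_self, max_self, smul_zero]
      norm_num
      rw [← sq_abs (x - t)]
      refine pow_le_pow_left₀ (le_max_right _ _) ?_ 2
      exact max_le (le_abs_self _) (abs_nonneg _)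
    refine h2.trans_isLittleO ?_
    have h3 : (fun x' : ℝ => (x' - t) ^ 2) = fun x' => (x' - t) * (x' - t) := by
      funext x; ring
    rw [h3]
    have h4 : (fun x' : ℝ => x' - t) =o[𝓝 t] fun _ => (1 : ℝ) := by
      rw [Asymptotics.isLittleO_one_iff]
      have : Tendsto (fun x' : ℝ => x' - t) (𝓝 t) (𝓝 (t - t)) := (continuous_id.sub
        continuous_const).tendsto t
      rwa [sub_self] at this
    have h5 := h4.mul_isBigO (Asymptotics.isBigO_refl (fun x' : ℝ => x' - t) (𝓝 t))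
    simpa using h5
  · have h1 : sq0 ε =ᶠ[𝓝 t] fun s => (s - ε) ^ 2 := by
      filter_upwards [Ioi_mem_nhds h] with s hs
      unfold sq0
      rw [max_eq_left (by linarith [mem_Ioi.1 hs])]
    rw [max_eq_left (by linarith)]
    have h2 : HasDerivAt (fun s : ℝ => (s - ε) ^ 2) (2 * (t - ε)) t := by
      have := ((hasDerivAt_id t).sub_const ε).fun_pow 2
      simpa using this
    exact h2.congr_of_eventuallyEq h1

theorem sq0_C1 (ε : ℝ) : ContDiff ℝ 1 (sq0 ε) := by
  rw [contDiff_one_iff_deriv]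
  refine ⟨fun t => (sq0_deriv ε t).differentiableAt, ?_⟩
  have : deriv (sq0 ε) = fun t => 2 * max (t - ε) 0 := by
    funext t
    exact (sq0_deriv ε t).deriv
  rw [this]
  fun_prop

/-- hypotheses of the reproducing formula -/
structure RP (S : Set ℂ) (r : ℂ → ℝ) (b m : ℂ → ℂ) (y : ℂ) (B : ℝ) : Prop where
  op : IsOpen S
  fin : volume S ≠ ⊤
  rC : ContDiffOn ℝ 1 r S
  rd : ∀ η ∈ S, ∀ v, fderiv ℝ r η v = -2 * (b η * v).re
  bC : ContDiffOn ℝ 1 b S
  bd : ∀ η ∈ S, db b η = m η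
  comp : ∀ ε : ℝ, 0 < ε → IsCompact {η | η ∈ S ∧ ε ≤ r η}
  pos : ∀ η ∈ S, 0 < r η
  mem : y ∈ S
  Re : ∀ η ∈ S, r η + r y ≤ 2 * (((r η : ℝ) : ℂ) - b η * (y - η)).re
  rB : ∀ η ∈ S, r η ≤ B
  bB : ∀ η ∈ S, ‖b η‖ ≤ B
  mB : ∀ η ∈ S, ‖m η‖ ≤ B

section

variable {S : Set ℂ} {r : ℂ → ℝ} {b m : ℂ → ℂ} {y : ℂ} {B : ℝ}

/-- the function `u_ε` -/
noncomputable def uu (S : Set ℂ) (r : ℂ → ℝ) (b k : ℂ → ℂ) (y : ℂ) (ε : ℝ) : ℂ → ℂ :=
  open scoped Classical in fun η => if η ∈ S then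
    ((sq0 ε (r η) : ℝ) : ℂ) * (k η * ((((r η : ℝ) : ℂ) - ε - b η * (y - η))⁻¹ ^ 2)) else 0

theorem RP.ne (h : RP S r b m y B) (ε : ℝ) {η : ℂ}
    (hη : η ∈ S) : (r y / 2 - ε) ≤ (((r η : ℝ) : ℂ) - ε - b η * (y - η)).re := by
  have h1 := h.Re η hη
  have h2 := h.pos η hη
  have e : ((r η : ℝ) : ℂ) - ε - b η * (y - η) = (((r η : ℝ) : ℂ) - b η * (y - η)) - (ε : ℂ) := by
    ring
  rw [e, Complex.sub_re (((r η : ℝ) : ℂ) - b η * (y - η)) (ε : ℂ), Complex.ofReal_re]
  linarith

theorem RP.ne0 (h : RP S r b m y B) {ε : ℝ} (hε2 : ε < r y / 2) {η : ℂ}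
    (hη : η ∈ S) : ((r η : ℝ) : ℂ) - ε - b η * (y - η) ≠ 0 := by
  intro h0
  have := h.ne ε hη
  rw [h0] at this
  simp at this
  linarith

theorem RP.db_u (h : RP S r b m y B) {k : ℂ → ℂ} (hk : DifferentiableOn ℂ k S) {ε : ℝ}
    (hε2 : ε < r y / 2) {η : ℂ} (hη : η ∈ S) :
    db (uu S r b k y ε) η = 2 * k η * ((max (r η - ε) 0 : ℝ) : ℂ) *
      (((‖b η‖ ^ 2 : ℝ) : ℂ) + ((max (r η - ε) 0 : ℝ) : ℂ) * m η) * (y - η) *
      (((r η : ℝ) : ℂ) - ε - b η * (y - η))⁻¹ ^ 3 := by
  have hSn := h.op.mem_nhds hη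
  have hdr : DifferentiableAt ℝ r η := (h.rC.differentiableOn one_ne_zero η hη).differentiableAt hSn
  have hr := hdr.hasFDerivAt
  have hk' : DifferentiableAt ℂ k η := (hk η hη).differentiableAt hSn
  have hb : HDb b (m η) η := ⟨(h.bC.differentiableOn one_ne_zero η hη).differentiableAt hSn,
    h.bd η hη⟩
  have hr1 : HDb (fun η => ((r η : ℝ) : ℂ)) (-(((1 : ℝ) : ℂ) * starRingEnd ℂ (b η))) η :=
    HDb.real (φ := fun t => t) (h.rd η hη) hr (hasDerivAt_id _)
  have hP : HDb (fun η => ((sq0 ε (r η) : ℝ) : ℂ))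
      (-(((2 * max (r η - ε) 0 : ℝ) : ℂ) * starRingEnd ℂ (b η))) η :=
    HDb.real (h.rd η hη) hr (sq0_deriv ε (r η))
  have hΨ : HDb (fun η => ((r η : ℝ) : ℂ) - ε - b η * (y - η))
      (-(((1 : ℝ) : ℂ) * starRingEnd ℂ (b η)) - 0 - (b η * 0 + (y - η) * m η)) η := by
    refine (hr1.sub (HDb.holo (f := fun _ => (ε : ℂ)) (differentiableAt_const _))).sub
      (hb.mul (HDb.holo (f := fun η : ℂ => y - η) (by fun_prop)))
  have hne := h.ne0 hε2 hη
  have hQ : HDb (fun η => (((r η : ℝ) : ℂ) - ε - b η * (y - η))⁻¹ ^ 2)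
      ((-2 * (((r η : ℝ) : ℂ) - ε - b η * (y - η))⁻¹ ^ 3) *
        (-(((1 : ℝ) : ℂ) * starRingEnd ℂ (b η)) - 0 - (b η * 0 + (y - η) * m η))) η := by
    refine hΨ.comp (h := fun z : ℂ => z⁻¹ ^ 2) ?_
    have h1 := (hasDerivAt_inv hne).fun_pow 2
    refine h1.congr_deriv ?_
    simp only [Nat.cast_ofNat, Nat.add_one_sub_one, pow_one]
    field_simp
  have hall := hP.mul ((HDb.holo hk').mul hQ)
  have hev : uu S r b k y ε =ᶠ[𝓝 η] fun η => ((sq0 ε (r η) : ℝ) : ℂ) *
      (k η * ((((r η : ℝ) : ℂ) - ε - b η * (y - η))⁻¹ ^ 2)) := by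
    filter_upwards [hSn] with ξ hξ
    unfold uu
    rw [if_pos hξ]
  rw [db_congr hev, hall.2]
  have hbb : ((‖b η‖ ^ 2 : ℝ) : ℂ) = b η * starRingEnd ℂ (b η) := by
    rw [Complex.mul_conj, Complex.normSq_eq_norm_sq]
  rw [hbb]
  by_cases hc : r η ≤ ε
  · rw [max_eq_right (by linarith)]
    have : sq0 ε (r η) = 0 := by
      unfold sq0
      rw [max_eq_right (by linarith)]
      norm_num
    rw [this]
    simp
  · push Not at hc
    have e1 : max (r η - ε) 0 = r η - ε := max_eq_left (by linarith)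
    have e2 : sq0 ε (r η) = (r η - ε) ^ 2 := by
      unfold sq0
      rw [e1]
    rw [e1, e2]
    push_cast
    field_simp
    ring

theorem RP.u_C1 (h : RP S r b m y B) {k : ℂ → ℂ} (hk : DifferentiableOn ℂ k S) {ε : ℝ}
    (hε : 0 < ε) (hε2 : ε < r y / 2) : ContDiff ℝ 1 (uu S r b k y ε) := by
  rw [contDiff_iff_contDiffAt]
  intro η
  by_cases hη : η ∈ S
  · have hSn := h.op.mem_nhds hη
    have hev : uu S r b k y ε =ᶠ[𝓝 η] fun η => ((sq0 ε (r η) : ℝ) : ℂ) *
        (k η * ((((r η : ℝ) : ℂ) - ε - b η * (y - η))⁻¹ ^ 2)) := by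
      filter_upwards [hSn] with ξ hξ
      unfold uu
      rw [if_pos hξ]
    refine ContDiffAt.congr_of_eventuallyEq ?_ hev
    have hr : ContDiffAt ℝ 1 r η := (h.rC η hη).contDiffAt hSn
    have hb : ContDiffAt ℝ 1 b η := (h.bC η hη).contDiffAt hSn
    have hk1 : ContDiffAt ℝ 1 k η :=
      ((hk.analyticAt hSn).contDiffAt (n := 1)).restrict_scalars ℝ
    have h1 : ContDiffAt ℝ 1 (fun η => ((sq0 ε (r η) : ℝ) : ℂ)) η :=
      Complex.ofRealCLM.contDiff.contDiffAt.comp η ((sq0_C1 ε).contDiffAt.comp η hr)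
    have h2 : ContDiffAt ℝ 1 (fun η => ((r η : ℝ) : ℂ)) η :=
      Complex.ofRealCLM.contDiff.contDiffAt.comp η hr
    have h3 : ContDiffAt ℝ 1 (fun η => ((r η : ℝ) : ℂ) - ε - b η * (y - η)) η :=
      (h2.sub contDiffAt_const).sub (hb.mul (contDiffAt_const.sub contDiffAt_id))
    exact h1.mul (hk1.mul ((h3.inv (h.ne0 hε2 hη)).pow 2))
  · have hcl := (h.comp ε hε).isClosed
    have hev : uu S r b k y ε =ᶠ[𝓝 η] fun _ => 0 := by
      filter_upwards [hcl.isOpen_compl.mem_nhds (show η ∈ {η | η ∈ S ∧ ε ≤ r η}ᶜ from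
        fun h' => hη h'.1)] with ξ hξ
      unfold uu
      by_cases hξS : ξ ∈ S
      · rw [if_pos hξS]
        have h1 : r ξ < ε := by
          by_contra hcon
          push Not at hcon
          exact hξ ⟨hξS, hcon⟩
        have : sq0 ε (r ξ) = 0 := by
          unfold sq0
          rw [max_eq_right (by linarith)]
          norm_num
        rw [this]
        simp
      · rw [if_neg hξS]
    exact contDiffAt_const.congr_of_eventuallyEq hev

/-- the integrand -/
noncomputable def FF (r : ℂ → ℝ) (b m k : ℂ → ℂ) (y : ℂ) (ε : ℝ) (η : ℂ) : ℂ :=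
  2 * k η * ((max (r η - ε) 0 : ℝ) : ℂ) *
      (((‖b η‖ ^ 2 : ℝ) : ℂ) + ((max (r η - ε) 0 : ℝ) : ℂ) * m η) *
      (((r η : ℝ) : ℂ) - ε - b η * (y - η))⁻¹ ^ 3

theorem RP.eps (h : RP S r b m y B) {k : ℂ → ℂ} (hk : DifferentiableOn ℂ k S) {ε : ℝ}
    (hε : 0 < ε) (hε2 : ε < r y / 2) :
    ∫ η in S, FF r b m k y ε η = Real.pi * k y := by
  have h1 := Pool.Agent.Helper366.IV.cauchy_pompeiu (uu S r b k y ε) (h.u_C1 hk hε hε2)
    (HasCompactSupport.intro (h.comp ε hε) (fun ξ hξ => by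
      unfold uu
      by_cases hξS : ξ ∈ S
      · rw [if_pos hξS]
        have h1 : r ξ < ε := by
          by_contra hcon
          push Not at hcon
          exact hξ ⟨hξS, hcon⟩
        have : sq0 ε (r ξ) = 0 := by
          unfold sq0
          rw [max_eq_right (by linarith)]
          norm_num
        rw [this]
        simp
      · rw [if_neg hξS])) y
  have hy := h.pos y h.mem
  have h2 : uu S r b k y ε y = k y := by
    unfold uu
    rw [if_pos h.mem]
    have e1 : sq0 ε (r y) = (r y - ε) ^ 2 := by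
      unfold sq0
      rw [max_eq_left (by linarith)]
    have hne : ((r y : ℝ) : ℂ) - ε ≠ 0 := by
      rw [← Complex.ofReal_sub]
      have : r y - ε ≠ 0 := by linarith
      exact_mod_cast this
    rw [e1, sub_self, mul_zero, sub_zero]
    push_cast
    field_simp
  rw [h2] at h1
  rw [← h1]
  have h3 : ∀ w : ℂ, (fderiv ℝ (uu S r b k y ε) (y - w) 1 +
      I * fderiv ℝ (uu S r b k y ε) (y - w) I) / 2 / w =
      (fun η => db (uu S r b k y ε) η / (y - η)) (y - w) := by
    intro w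
    simp only [sub_sub_cancel]
    rfl
  simp only [h3]
  rw [integral_sub_left_eq_self (fun η => db (uu S r b k y ε) η / (y - η)) volume y]
  have h4 : ∀ η, η ∉ S → db (uu S r b k y ε) η / (y - η) = 0 := by
    intro η hη
    have hcl := (h.comp ε hε).isClosed
    have hev : uu S r b k y ε =ᶠ[𝓝 η] fun _ => 0 := by
      filter_upwards [hcl.isOpen_compl.mem_nhds (show η ∈ {η | η ∈ S ∧ ε ≤ r η}ᶜ from
        fun h' => hη h'.1)] with ξ hξ
      unfold uu
      by_cases hξS : ξ ∈ S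
      · rw [if_pos hξS]
        have h1 : r ξ < ε := by
          by_contra hcon
          push Not at hcon
          exact hξ ⟨hξS, hcon⟩
        have : sq0 ε (r ξ) = 0 := by
          unfold sq0
          rw [max_eq_right (by linarith)]
          norm_num
        rw [this]
        simp
      · rw [if_neg hξS]
    rw [db_congr hev, db_holo (differentiableAt_const _), zero_div]
  rw [← setIntegral_eq_integral_of_forall_compl_eq_zero (s := S) h4]
  refine setIntegral_congr_ae h.op.measurableSet ?_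
  have hne : ∀ᵐ η ∂(volume : Measure ℂ), η ≠ y :=
    (measure_eq_zero_iff_ae_notMem.1 (measure_singleton (μ := (volume : Measure ℂ)) y)).mono
      (fun x hx => hx)
  filter_upwards [hne] with η hη hηS
  rw [h.db_u hk hε2 hηS]
  have h5 : y - η ≠ 0 := sub_ne_zero.2 (Ne.symm hη)
  unfold FF
  rw [eq_div_iff h5]
  ring

theorem RP.cont (h : RP S r b m y B) : ContinuousOn m S := by
  have h1 : ContinuousOn (fderiv ℝ b) S := h.bC.continuousOn_fderiv_of_isOpen h.op le_rfl
  have h2 : ContinuousOn (db b) S := by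
    unfold db
    refine ContinuousOn.div_const ?_ 2
    exact (h1.clm_apply continuousOn_const).add
      (continuousOn_const.mul (h1.clm_apply continuousOn_const))
  exact h2.congr (fun η hη => (h.bd η hη).symm)

/-- **The reproducing formula.** -/
theorem RP.repr (h : RP S r b m y B) {k : ℂ → ℂ} (hk : DifferentiableOn ℂ k S) {K : ℝ}
    (hK : ∀ η ∈ S, ‖k η‖ ≤ K) : ∫ η in S, k η * ((((r η : ℝ) : ℂ) *
      (((‖b η‖ ^ 2 : ℝ) : ℂ) + ((r η : ℝ) : ℂ) * m η)) *
      (((r η : ℝ) : ℂ) - b η * (y - η))⁻¹ ^ 3) = Real.pi / 2 * k y := by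
  have hy := h.pos y h.mem
  have hSm := h.op.measurableSet
  have hfin : IsFiniteMeasure (volume.restrict S) :=
    ⟨by rw [Measure.restrict_apply_univ]; exact h.fin.lt_top⟩
  have hK0 : 0 ≤ K := (norm_nonneg _).trans (hK y h.mem)
  have hB0 : 0 ≤ B := hy.le.trans (h.rB y h.mem)
  have hmeas : ∀ ε : ℝ, ε < r y / 2 →
      AEStronglyMeasurable (FF r b m k y ε) (volume.restrict S) := by
    intro ε hε2
    refine ContinuousOn.aestronglyMeasurable ?_ hSm
    have hr : ContinuousOn r S := h.rC.continuousOn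
    have hb : ContinuousOn b S := h.bC.continuousOn
    have hm := h.cont
    have h1 : ContinuousOn (fun η => ((max (r η - ε) 0 : ℝ) : ℂ)) S := by
      refine Complex.continuous_ofReal.comp_continuousOn ?_
      exact (hr.sub continuousOn_const).sup continuousOn_const
    have h2 : ContinuousOn (fun η => ((‖b η‖ ^ 2 : ℝ) : ℂ)) S :=
      Complex.continuous_ofReal.comp_continuousOn (hb.norm.pow 2)
    have h3 : ContinuousOn (fun η => ((r η : ℝ) : ℂ) - ε - b η * (y - η)) S :=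
      ((Complex.continuous_ofReal.comp_continuousOn hr).sub continuousOn_const).sub
        (hb.mul (continuousOn_const.sub continuousOn_id))
    unfold FF
    exact ((((continuousOn_const.mul hk.continuousOn).mul h1).mul (h2.add (h1.mul hm)))).mul
      ((h3.inv₀ (fun η hη => h.ne0 hε2 hη)).pow 3)
  have hlim : Tendsto (fun ε : ℝ => ∫ η in S, FF r b m k y ε η) (𝓝[>] 0)
      (𝓝 (∫ η in S, FF r b m k y 0 η)) := by
    refine tendsto_integral_filter_of_dominated_convergence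
      (fun _ => 2 * K * B * (B ^ 2 + B * B) * (4 / r y) ^ 3) ?_ ?_ ?_ ?_
    · have : ∀ᶠ ε : ℝ in 𝓝[>] 0, ε < r y / 2 :=
        nhdsWithin_le_nhds (Iio_mem_nhds (by linarith))
      filter_upwards [this] with ε hε
      exact hmeas ε hε
    · have : ∀ᶠ ε : ℝ in 𝓝[>] 0, ε < r y / 4 :=
        nhdsWithin_le_nhds (Iio_mem_nhds (by linarith))
      filter_upwards [this, self_mem_nhdsWithin] with ε hε hε0
      have hε0' : 0 < ε := hε0
      filter_upwards [ae_restrict_mem hSm] with η hη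
      have h1 := h.ne ε hη
      have h2 : r y / 4 ≤ ‖((r η : ℝ) : ℂ) - ε - b η * (y - η)‖ := by
        have := Complex.re_le_norm (((r η : ℝ) : ℂ) - ε - b η * (y - η))
        linarith
      have h3 : ‖(((r η : ℝ) : ℂ) - ε - b η * (y - η))⁻¹‖ ≤ 4 / r y := by
        rw [norm_inv, inv_eq_one_div, div_le_div_iff₀ (by linarith) hy]
        linarith
      have h4 : max (r η - ε) 0 ≤ B := max_le (by linarith [h.rB η hη]) hB0
      have h5 : 0 ≤ max (r η - ε) 0 := le_max_right _ _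
      have h6 : ‖((max (r η - ε) 0 : ℝ) : ℂ)‖ ≤ B := by
        rw [Complex.norm_real, Real.norm_of_nonneg h5]
        exact h4
      have h7 : ‖(((‖b η‖ ^ 2 : ℝ) : ℂ) + ((max (r η - ε) 0 : ℝ) : ℂ) * m η)‖ ≤ B ^ 2 + B * B := by
        refine (norm_add_le _ _).trans (add_le_add ?_ ?_)
        · rw [Complex.norm_real, Real.norm_of_nonneg (by positivity)]
          exact pow_le_pow_left₀ (norm_nonneg _) (h.bB η hη) 2
        · rw [norm_mul]
          exact mul_le_mul h6 (h.mB η hη) (norm_nonneg _) hB0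
      unfold FF
      rw [norm_mul, norm_mul, norm_mul, norm_mul, norm_pow]
      have h8 : ‖(2 : ℂ)‖ = 2 := by simp
      rw [h8]
      have h9 := hK η hη
      gcongr
    · exact integrable_const _
    · filter_upwards [ae_restrict_mem hSm] with η hη
      have hne := h.ne0 (ε := 0) (by linarith) hη
      have h1 : ContinuousAt (fun ε : ℝ => FF r b m k y ε η) 0 := by
        have c1 : ContinuousAt (fun ε : ℝ => ((max (r η - ε) 0 : ℝ) : ℂ)) 0 := by
          refine Continuous.continuousAt ?_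
          exact Complex.continuous_ofReal.comp ((continuous_const.sub continuous_id).sup
            continuous_const)
        have c2 : ContinuousAt (fun ε : ℝ => (((r η : ℝ) : ℂ) - ε - b η * (y - η))) 0 := by
          refine Continuous.continuousAt ?_
          fun_prop
        unfold FF
        exact (((continuousAt_const.mul c1).mul (continuousAt_const.add
          (c1.mul continuousAt_const)))).mul ((c2.inv₀ hne).pow 3)
      exact h1.tendsto.mono_left nhdsWithin_le_nhds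
  have hconst : Tendsto (fun ε : ℝ => ∫ η in S, FF r b m k y ε η) (𝓝[>] 0)
      (𝓝 (Real.pi * k y)) := by
    refine tendsto_const_nhds.congr' ?_
    have : ∀ᶠ ε : ℝ in 𝓝[>] 0, ε < r y / 2 :=
      nhdsWithin_le_nhds (Iio_mem_nhds (by linarith))
    filter_upwards [this, self_mem_nhdsWithin] with ε hε hε0
    exact (h.eps hk hε0 hε).symm
  have h0 := tendsto_nhds_unique hlim hconst
  have h1 : ∫ η in S, FF r b m k y 0 η = 2 * ∫ η in S, k η * ((((r η : ℝ) : ℂ) *
      (((‖b η‖ ^ 2 : ℝ) : ℂ) + ((r η : ℝ) : ℂ) * m η)) *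
      (((r η : ℝ) : ℂ) - b η * (y - η))⁻¹ ^ 3) := by
    rw [← integral_const_mul]
    refine setIntegral_congr_fun hSm (fun η hη => ?_)
    unfold FF
    have : max (r η) 0 = r η := max_eq_left (h.pos η hη).le
    simp only [sub_zero, this, Complex.ofReal_zero]
    ring
  rw [h1] at h0
  linear_combination (1 / 2) * h0

end

end Pool.Agent.Y263.SC
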