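import Mathlib
import Pool.Agent.H720R2.HP.CutN
import Pool.Agent.H788R3.Cor2.Base
import Pool.Agent.Y263.SC.AsmX

/-!
The corona theorem for one-variable functions and one arbitrary function on domains over simply
connected plane domains, under the hypothesis of bounded extension from the slices.
-/

set_option autoImplicit false
set_option linter.unusedSectionVars false

open MeasureTheory Metric Set Filter Topology Complex
open scoped ContDiff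

namespace Pool.Agent.Y263.SC

open Pool.Agent.H720R2 Pool.Agent.H720R2.HP
open Pool.Agent.H788R3.Cor2 (cy cy_mem cy_diff yc yc_im cy_yc yc_diff cy_mem' cy_diffAt hcy_diffAt
  exhaust Dr)

/-- corona theorem on domains over the half plane with bounded extensions, for nice `f i` -/
def SiegelX (N : ℕ) (δ M C : ℝ) : Prop :=
  ∀ (E : Type) [NormedAddCommGroup E] [NormedSpace ℂ E] [FiniteDimensional ℂ E]
    (D : Set (ℂ × E)), Ov D → ∀
    (f : Fin N → ℂ → ℂ) (η : ℝ), 0 < η →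
    (∀ i, DifferentiableOn ℂ (f i) {w : ℂ | -η < w.im}) →
    (∀ i, ∀ w : ℂ, 0 ≤ w.im → ‖f i w‖ ≤ 1) →
    (∀ i, ∃ c : ℂ, Tendsto (f i) (Bornology.cobounded ℂ ⊓ 𝓟 {w : ℂ | 0 ≤ w.im}) (𝓝 c)) →
    ∀ G : ℂ × E → ℂ, DifferentiableOn ℂ G D →
    (∀ p ∈ D, ‖G p‖ ≤ 1) →
    (∀ p ∈ D, (∀ i, ‖f i p.1‖ ≤ δ / 2) → δ ≤ ‖G p‖) →
    ∀ e : ℂ → ℂ × E → ℂ, Ext D (AA f (δ / 2)) G M e →
    ∃ (g : Fin N → ℂ × E → ℂ) (g₀ : ℂ × E → ℂ),
      (∀ i, DifferentiableOn ℂ (g i) D) ∧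
      DifferentiableOn ℂ g₀ D ∧
      (∀ i, ∀ p ∈ D, ‖g i p‖ ≤ C) ∧
      (∀ p ∈ D, ‖g₀ p‖ ≤ C) ∧
      ∀ p ∈ D, ∑ i, f i p.1 * g i p + G p * g₀ p = 1

theorem siegelX (N : ℕ) {δ M : ℝ} (hδ : 0 < δ) (hδ1 : δ ≤ 1) (hM : 0 ≤ M) :
    ∃ C : ℝ, SiegelX N δ M C := by
  obtain ⟨ε', C, hε', hC, hcut⟩ := cutN N (ε := δ / 2) (by positivity) (by linarith)
  refine ⟨max (1 / ε' + 2160 * Real.exp C * (C / ε') * M +
        N * (2 * (2160 * Real.exp C * (2 * C / ε' ^ 2) * 1)))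
        (1 / δ + N * (2160 * Real.exp C * (C / ε') * M)), ?_⟩
  intro E _ _ _ D hr f η hη hf hfb hlim G hG hGb hlow e he
  obtain ⟨S, a, R, χ, hP⟩ := hcut f η (fun i => ⟨hη, hf i, hfb i⟩) hlim
  obtain ⟨g, g0, h1, h2, h3, h4, h5⟩ := solveX hr hP hε' hC.le
    (fun i => (hf i).mono (fun w hw => by
      change -η < w.im
      have : (0 : ℝ) < w.im := hw
      linarith)) (fun i w hw => hfb i w (le_of_lt hw)) hG hGb hδ hlow hM he
  exact ⟨g, g0, h1, h2, fun i p hp => (h3 i p hp).trans (le_max_left _ _),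
    fun p hp => (h4 p hp).trans (le_max_right _ _), h5⟩

variable {E : Type} [NormedAddCommGroup E] [NormedSpace ℂ E] [FiniteDimensional ℂ E]

/-- the base map, made measurable -/
noncomputable def Hm (h : ℂ → ℂ) (r : ℝ) (w : ℂ) : ℂ :=
  open scoped Classical in if 0 < w.im then h (cy r w) else 0

theorem Hm_eq {h : ℂ → ℂ} {r : ℝ} {w : ℂ} (hw : 0 < w.im) : Hm h r w = h (cy r w) := by
  unfold Hm
  rw [if_pos hw]

theorem Hm_meas {h : ℂ → ℂ} (hh : DifferentiableOn ℂ h (ball 0 1)) {r : ℝ} (hr0 : 0 < r)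
    (hr1 : r < 1) : Measurable (Hm h r) := by
  classical
  have ho : IsOpen {w : ℂ | 0 < w.im} := isOpen_lt continuous_const Complex.continuous_im
  have hc : ContinuousOn (fun w => h (cy r w)) {w : ℂ | 0 < w.im} := fun w hw =>
    (hcy_diffAt hh hr0 hr1 hw).continuousAt.continuousWithinAt
  have h1 := ContinuousOn.measurable_piecewise hc (continuousOn_const (c := (0 : ℂ)))
    ho.measurableSet
  have h2 : Hm h r = {w : ℂ | 0 < w.im}.piecewise (fun w => h (cy r w)) (fun _ => (0 : ℂ)) := by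
    funext w
    unfold Hm
    by_cases hw : 0 < w.im
    · rw [if_pos hw, Set.piecewise_eq_of_mem _ _ _ (show w ∈ {w : ℂ | 0 < w.im} from hw)]
    · rw [if_neg hw, Set.piecewise_eq_of_notMem _ _ _ (show w ∉ {w : ℂ | 0 < w.im} from hw)]
  rw [h2]
  exact h1

theorem ov_r {U : Set ℂ} {D : Set (ℂ × E)} (hD : IsOpen D) (_hs : ∀ p ∈ D, p.1 ∈ U)
    {h : ℂ → ℂ} (hh : DifferentiableOn ℂ h (ball 0 1)) {r : ℝ} (hr0 : 0 < r) (hr1 : r < 1) :
    Ov (Dr D h r) := by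
  have hc : ContinuousOn (fun p : ℂ × E => (h (cy r p.1), p.2)) {p | 0 < p.1.im} := by
    intro p hp
    have h1 : ContinuousAt (fun w => h (cy r w)) p.1 := (hcy_diffAt hh hr0 hr1 hp).continuousAt
    have h2 : ContinuousAt (fun p : ℂ × E => h (cy r p.1)) p :=
      ContinuousAt.comp (f := fun p : ℂ × E => p.1) h1 continuousAt_fst
    exact (h2.prodMk continuousAt_snd).continuousWithinAt
  refine ⟨?_, fun p hp => hp.1⟩
  have h1 : IsOpen {p : ℂ × E | 0 < p.1.im} :=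
    isOpen_lt continuous_const (Complex.continuous_im.comp continuous_fst)
  exact hc.isOpen_inter_preimage h1 hD

theorem pull_diff {D : Set (ℂ × E)} (hD : IsOpen D) {h : ℂ → ℂ}
    (hh : DifferentiableOn ℂ h (ball 0 1)) {r : ℝ} (hr0 : 0 < r) (hr1 : r < 1) {G : ℂ × E → ℂ}
    (hG : DifferentiableOn ℂ G D) :
    DifferentiableOn ℂ (fun p : ℂ × E => G (h (cy r p.1), p.2)) (Dr D h r) := by
  intro p hp
  have h1 : DifferentiableAt ℂ (fun w => h (cy r w)) p.1 := hcy_diffAt hh hr0 hr1 hp.1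
  have h2 : DifferentiableAt ℂ (fun p : ℂ × E => h (cy r p.1)) p :=
    DifferentiableAt.comp (g := fun w => h (cy r w)) (f := fun p : ℂ × E => p.1) p h1
      differentiableAt_fst
  have h3 : DifferentiableAt ℂ (fun p : ℂ × E => (h (cy r p.1), p.2)) p :=
    h2.prodMk differentiableAt_snd
  have h4 : DifferentiableAt ℂ G (h (cy r p.1), p.2) :=
    (hG _ hp.2).differentiableAt (hD.mem_nhds hp.2)
  exact (DifferentiableAt.comp (g := G) p h4 h3).differentiableWithinAt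

/-- the part of the base where all `f i` are small -/
def AU {N : ℕ} (U : Set ℂ) (f : Fin N → ℂ → ℂ) (δ : ℝ) : Set ℂ := {ζ | ζ ∈ U ∧ ∀ i, ‖f i ζ‖ < δ}

theorem ext_r {N : ℕ} {δ M : ℝ} (hδ : 0 < δ) {U : Set ℂ} {D : Set (ℂ × E)} (hD : IsOpen D)
    {h : ℂ → ℂ} (hh : DifferentiableOn ℂ h (ball 0 1)) (hm : MapsTo h (ball 0 1) U)
    {r : ℝ} (hr0 : 0 < r) (hr1 : r < 1) (f : Fin N → ℂ → ℂ) {G : ℂ × E → ℂ}
    {e : ℂ → ℂ × E → ℂ} (he : Ext D (AU U f δ) G M e) :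
    Ext (Dr D h r) (AA (fun i w => f i (h (cy r w))) (δ / 2))
      (fun p => G (h (cy r p.1), p.2)) M (fun ζ p => e (Hm h r ζ) (Hm h r p.1, p.2)) := by
  have hA : ∀ ζ ∈ AA (fun i w => f i (h (cy r w))) (δ / 2), h (cy r ζ) ∈ AU U f δ := by
    intro ζ hζ
    refine ⟨hm (cy_mem' hr0 hr1 hζ.1), fun i => ?_⟩
    have := hζ.2 i
    linarith
  refine ⟨?_, ?_, ?_, ?_⟩
  · intro y
    have h1 := he.meas y
    have h2 : Measurable (fun q : ℂ × ℂ => (Hm h r q.1, Hm h r q.2)) :=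
      ((Hm_meas hh hr0 hr1).comp measurable_fst).prodMk ((Hm_meas hh hr0 hr1).comp measurable_snd)
    exact h1.comp h2
  · intro ζ hζ y hy
    simp only [Hm_eq hζ.1]
    exact he.self _ (hA ζ hζ) y hy.2
  · intro ζ hζ
    have h1 := pull_diff hD hh hr0 hr1 (he.diff _ (hA ζ hζ))
    refine h1.congr (fun p hp => ?_)
    simp only [Hm_eq hζ.1, Hm_eq hp.1]
  · intro ζ hζ p hp
    simp only [Hm_eq hζ.1, Hm_eq hp.1]
    exact he.bd _ (hA ζ hζ) _ hp.2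

/-- solutions on the part of the domain over a compact part of the base -/
theorem solve_rhoX {N : ℕ} {δ M C : ℝ} (hδ : 0 < δ) (H : SiegelX N δ M C) {U : Set ℂ}
    (hU : IsOpen U) {D : Set (ℂ × E)} (hD : IsOpen D) (hs : ∀ p ∈ D, p.1 ∈ U)
    {h ψ : ℂ → ℂ} (hh : DifferentiableOn ℂ h (ball 0 1)) (hm : MapsTo h (ball 0 1) U)
    (hψ : DifferentiableOn ℂ ψ U) (hinv : ∀ z ∈ U, h (ψ z) = z)
    (f : Fin N → ℂ → ℂ) (hf : ∀ i, DifferentiableOn ℂ (f i) U)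
    (hfb : ∀ i, ∀ z ∈ U, ‖f i z‖ ≤ 1)
    (G : ℂ × E → ℂ) (hG : DifferentiableOn ℂ G D) (hGb : ∀ q ∈ D, ‖G q‖ ≤ 1)
    (hlow : ∀ q ∈ D, (∀ i, ‖f i q.1‖ < δ) → δ ≤ ‖G q‖)
    {e : ℂ → ℂ × E → ℂ} (he : Ext D (AU U f δ) G M e) {r : ℝ} (hr0 : 0 < r) (hr1 : r < 1) :
    ∃ (g : Fin N → ℂ × E → ℂ) (g₀ : ℂ × E → ℂ),
      (∀ i, DifferentiableOn ℂ (g i) {q ∈ D | ‖ψ q.1‖ < r}) ∧
      DifferentiableOn ℂ g₀ {q ∈ D | ‖ψ q.1‖ < r} ∧
      (∀ i, ∀ q ∈ {q ∈ D | ‖ψ q.1‖ < r}, ‖g i q‖ ≤ C) ∧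
      (∀ q ∈ {q ∈ D | ‖ψ q.1‖ < r}, ‖g₀ q‖ ≤ C) ∧
      ∀ q ∈ {q ∈ D | ‖ψ q.1‖ < r}, ∑ i, f i q.1 * g i q + G q * g₀ q = 1 := by
  have hr2 : r ^ 2 < 1 := by nlinarith
  have hfd : ∀ i, DifferentiableOn ℂ (fun w => f i (h (cy r w)))
      {w : ℂ | -((1 - r ^ 2) / 16) < w.im} := by
    intro i
    have h1 : MapsTo (cy r) {w : ℂ | -((1 - r ^ 2) / 16) < w.im} (ball 0 1) := fun w hw =>
      cy_mem hr0 hr1 hw
    exact (hf i).comp (hh.comp (cy_diff hr0 hr1) h1) (fun w hw => hm (h1 hw))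
  obtain ⟨g, g₀, hg, hg0, hgb, hg0b, hid⟩ := H E (Dr D h r) (ov_r hD hs hh hr0 hr1)
    (fun i w => f i (h (cy r w))) ((1 - r ^ 2) / 16) (by linarith) hfd
    (by
      intro i w hw
      apply hfb
      apply hm
      exact cy_mem hr0 hr1 (by linarith))
    (by
      intro i
      refine ⟨f i (h ((r : ℂ) * 1)), ?_⟩
      refine Tendsto.mono_left ?_ inf_le_left
      have hmem : (r : ℂ) * 1 ∈ ball (0 : ℂ) 1 := by
        rw [mem_ball_zero_iff, mul_one, Complex.norm_real, Real.norm_of_nonneg hr0.le]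
        exact hr1
      have hc0 : ContinuousAt h ((r : ℂ) * 1) :=
        (hh.differentiableAt (isOpen_ball.mem_nhds hmem)).continuousAt
      have hc : ContinuousAt (f i) (h ((r : ℂ) * 1)) :=
        ((hf i).differentiableAt (hU.mem_nhds (hm hmem))).continuousAt
      exact hc.tendsto.comp (hc0.tendsto.comp (TB.cay_tendsto.const_mul (r : ℂ))))
    (fun p => G (h (cy r p.1), p.2)) (pull_diff hD hh hr0 hr1 hG)
    (fun p hp => hGb _ hp.2)
    (by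
      intro p hp hi
      refine hlow _ hp.2 (fun i => ?_)
      have := hi i
      linarith)
    _ (ext_r hδ hD hh hm hr0 hr1 f he)
  set T : ℂ × E → ℂ × E := fun q => (yc r (ψ q.1), q.2) with hT
  have hTm : MapsTo T {q ∈ D | ‖ψ q.1‖ < r} (Dr D h r) := by
    rintro q ⟨hq, hq2⟩
    refine ⟨yc_im hr0 hq2, ?_⟩
    change (h (cy r (yc r (ψ q.1))), q.2) ∈ D
    rw [cy_yc hr0 hq2, hinv _ (hs _ hq)]
    exact hq
  have hTd : DifferentiableOn ℂ T {q ∈ D | ‖ψ q.1‖ < r} := by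
    rintro q ⟨hq, hq2⟩
    have h1 : DifferentiableAt ℂ ψ q.1 := (hψ _ (hs _ hq)).differentiableAt (hU.mem_nhds (hs _ hq))
    have h2 : DifferentiableAt ℂ (fun z => yc r (ψ z)) q.1 :=
      DifferentiableAt.comp q.1 (yc_diff hr0 hq2) h1
    have h3 : DifferentiableAt ℂ (fun q : ℂ × E => yc r (ψ q.1)) q :=
      DifferentiableAt.comp (g := fun z => yc r (ψ z)) (f := fun p : ℂ × E => p.1) q h2
        differentiableAt_fst
    exact (h3.prodMk differentiableAt_snd).differentiableWithinAt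
  refine ⟨fun i q => g i (T q), fun q => g₀ (T q), fun i => (hg i).comp hTd hTm,
    hg0.comp hTd hTm, fun i q hq => hgb i _ (hTm hq), fun q hq => hg0b _ (hTm hq),
    fun q hq => ?_⟩
  have h2 := hid _ (hTm hq)
  have h3 : h (cy r (T q).1) = q.1 := by
    change h (cy r (yc r (ψ q.1))) = q.1
    rw [cy_yc hr0 hq.2, hinv _ (hs _ hq.1)]
  simp only [h3] at h2
  exact h2

/-- **The general theorem**: domains with bounded extensions from the slices. -/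
theorem base_thmX {N : ℕ} {δ M C : ℝ} (hδ : 0 < δ) (H : SiegelX N δ M C) {U : Set ℂ} (hU : IsOpen U)
    (hUc : IsSimplyConnected U) (hne : U ≠ univ) (hne' : U.Nonempty)
    {D : Set (ℂ × E)} (hD : IsOpen D) (hs : ∀ p ∈ D, p.1 ∈ U)
    (f : Fin N → ℂ → ℂ) (hf : ∀ i, DifferentiableOn ℂ (f i) U)
    (hfb : ∀ i, ∀ z ∈ U, ‖f i z‖ ≤ 1)
    (G : ℂ × E → ℂ) (hG : DifferentiableOn ℂ G D) (hGb : ∀ q ∈ D, ‖G q‖ ≤ 1)
    (hlow : ∀ q ∈ D, (∀ i, ‖f i q.1‖ < δ) → δ ≤ ‖G q‖)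
    {e : ℂ → ℂ × E → ℂ} (he : Ext D (AU U f δ) G M e) :
    ∃ (g : Fin N → ℂ × E → ℂ) (g₀ : ℂ × E → ℂ),
      (∀ i, DifferentiableOn ℂ (g i) D) ∧ DifferentiableOn ℂ g₀ D ∧
      (∀ i, ∀ q ∈ D, ‖g i q‖ ≤ C) ∧ (∀ q ∈ D, ‖g₀ q‖ ≤ C) ∧
      ∀ q ∈ D, ∑ i, f i q.1 * g i q + G q * g₀ q = 1 := by
  obtain ⟨a, ha⟩ := hne'
  obtain ⟨h, ψ, hh, hbij, -, -, hψ, hψm, hinv, -⟩ :=
    Pool.Agent.Helper202.Riemann.riemann_inv hU hUc hne ha
  set r : ℕ → ℝ := fun m => 1 - 1 / ((m : ℝ) + 2) with hr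
  have hr0 : ∀ m, 0 < r m := by
    intro m
    have : (0 : ℝ) ≤ m := Nat.cast_nonneg m
    rw [hr]
    beta_reduce
    rw [sub_pos, div_lt_one (by linarith)]
    linarith
  have hr1 : ∀ m, r m < 1 := by
    intro m
    have : (0 : ℝ) ≤ m := Nat.cast_nonneg m
    rw [hr]
    beta_reduce
    have : 0 < 1 / ((m : ℝ) + 2) := by positivity
    linarith
  have hrt : Tendsto r atTop (𝓝 1) := by
    have h1 : Tendsto r atTop (𝓝 (1 - 0)) := by
      refine tendsto_const_nhds.sub ?_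
      have h2 := (tendsto_one_div_add_atTop_nhds_zero_nat (𝕜 := ℝ))
      have h3 := h2.comp (tendsto_add_atTop_nat 1)
      refine h3.congr (fun m => ?_)
      simp only [Function.comp_apply]
      push_cast
      ring
    rwa [sub_zero] at h1
  have hrm : Monotone r := by
    intro m n hmn
    have : (0 : ℝ) ≤ m := Nat.cast_nonneg m
    have h2 : (m : ℝ) ≤ n := by exact_mod_cast hmn
    simp only [hr]
    gcongr
  set B : ℕ → Set (ℂ × E) := fun m => {q ∈ D | ‖ψ q.1‖ < r m} with hB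
  have hBo : ∀ m, IsOpen (B m) := by
    intro m
    have hc : ContinuousOn (fun q : ℂ × E => ‖ψ q.1‖) D := by
      refine ContinuousOn.norm ?_
      refine hψ.continuousOn.comp continuousOn_fst ?_
      intro q hq
      exact hs _ hq
    exact hc.isOpen_inter_preimage hD (isOpen_Iio (a := r m))
  have hBm : Monotone B := fun m n hmn q hq => ⟨hq.1, lt_of_lt_of_le hq.2 (hrm hmn)⟩
  have hBU : (⋃ m, B m) = D := by
    ext q
    rw [mem_iUnion]
    constructor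
    · rintro ⟨m, hm⟩
      exact hm.1
    · intro hq
      have h1 : ‖ψ q.1‖ < 1 := by
        have := hψm (hs _ hq)
        rwa [mem_ball_zero_iff] at this
      obtain ⟨m, hm⟩ := (hrt.eventually (lt_mem_nhds h1)).exists
      exact ⟨m, hq, hm⟩
  have h1 := exhaust (C := C) B hBo hBm (fun i q => f i q.1) G (fun m =>
    solve_rhoX hδ H hU hD hs hh hbij.mapsTo hψ hinv f hf hfb G hG hGb hlow he (hr0 m) (hr1 m))
  rw [hBU] at h1
  exact h1

end Pool.Agent.Y263.SC
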