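import Mathlib
import Pool.Agent.HopfPinch.AnS1
import Pool.Agent.Y263.SC.Bnd
import Pool.Agent.Y263.SC.Rep
import Pool.Agent.Y263.SC.SiegX

/-!
The bounded extension operator from the slices of a strictly convex domain.
-/

set_option autoImplicit false

open MeasureTheory Set Filter Topology Complex Metric

namespace Pool.Agent.Y263.SC

/-- the weight -/
noncomputable def Wf (ρ : ℂ × ℂ → ℝ) (b m : ℂ × ℂ → ℂ) (p : ℂ × ℂ) : ℂ :=
  ((-ρ p : ℝ) : ℂ) * (((‖b p‖ ^ 2 : ℝ) : ℂ) + ((-ρ p : ℝ) : ℂ) * m p)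

/-- a domain with all data -/
structure Dom2 (D : Set (ℂ × ℂ)) (ρ : ℂ × ℂ → ℝ) (a b m : ℂ × ℂ → ℂ) (l L d B CW : ℝ) :
    Prop where
  scd : SCD D ρ a b l L d
  wt : Wt D ρ a b (Wf ρ b m) CW
  rp : ∀ ζ y, (ζ, y) ∈ D → RP (Sl D ζ) (fun η => -ρ (ζ, η)) (fun η => b (ζ, η))
    (fun η => m (ζ, η)) y B
  cen : ∀ ζ y, (ζ, y) ∈ D → ∃ (c : ℂ) (τ : ℝ), Cen D ρ b ζ c τ

variable {D : Set (ℂ × ℂ)} {ρ : ℂ × ℂ → ℝ} {a b m : ℂ × ℂ → ℂ} {l L d B CW : ℝ}

theorem JJ_self (h : Dom2 D ρ a b m l L d B CW) {ζ y : ℂ} (hy : (ζ, y) ∈ D) {k : ℂ → ℂ}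
    (hk : DifferentiableOn ℂ k (Sl D ζ)) {K : ℝ} (hK : ∀ η ∈ Sl D ζ, ‖k η‖ ≤ K) :
    JJ D ρ a b (Wf ρ b m) k ζ ζ y = Real.pi / 2 * k y := by
  have h1 := (h.rp ζ y hy).repr hk hK
  rw [← h1]
  unfold JJ
  refine setIntegral_congr_fun (Sl_open h.scd ζ).measurableSet (fun η _ => ?_)
  unfold Wf Ph PL
  simp only [sub_self, mul_zero, zero_add]

theorem cen_q (h : Dom2 D ρ a b m l L d B CW) {ζ y : ℂ} (hy : (ζ, y) ∈ D) :
    ∃ (c : ℂ) (q : ℝ), 0 < q ∧ Cen D ρ b ζ c (q ^ 2) := by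
  obtain ⟨c, τ, hc⟩ := h.cen ζ y hy
  have hτ := tau_pos h.scd hc
  exact ⟨c, √τ, Real.sqrt_pos.2 hτ, by rwa [Real.sq_sqrt hτ.le]⟩

theorem JJ_bd (h : Dom2 D ρ a b m l L d B CW) (hne : D.Nonempty) : ∃ C : ℝ, 0 ≤ C ∧
    ∀ (ζ y₀ : ℂ), (ζ, y₀) ∈ D → ∀ (k : ℂ → ℂ), DifferentiableOn ℂ k (Sl D ζ) → ∀ K : ℝ,
      (∀ η ∈ Sl D ζ, ‖k η‖ ≤ K) → ∀ w y : ℂ, (w, y) ∈ D →
      ‖JJ D ρ a b (Wf ρ b m) k ζ w y‖ ≤ C * K := by
  obtain ⟨C, hC, hCb⟩ := ker_bd h.scd hne h.wt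
  refine ⟨C + Real.pi / 2, by positivity, ?_⟩
  intro ζ y₀ hy₀ k hk K hK w y hz
  obtain ⟨c, q, hq, hc⟩ := cen_q h hy₀
  have hK0 : 0 ≤ K := (norm_nonneg _).trans (hK y₀ hy₀)
  have hpi := Real.pi_pos
  rcases hCb ζ c q hq hc k K hK0
    (hk.continuousOn.aestronglyMeasurable (Sl_open h.scd ζ).measurableSet) hK w y hz with h1 | h1
  · refine h1.trans (mul_le_mul_of_nonneg_right ?_ hK0)
    linarith
  · obtain ⟨y₂, hy₂, h2⟩ := h1
    have h3 := JJ_self h hy₂ hk hK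
    have h4 : ‖JJ D ρ a b (Wf ρ b m) k ζ ζ y₂‖ ≤ Real.pi / 2 * K := by
      rw [h3, norm_mul]
      have e : ‖((Real.pi : ℂ) / 2)‖ = Real.pi / 2 := by
        rw [norm_div, Complex.norm_real, Real.norm_of_nonneg hpi.le]
        simp
      rw [e]
      exact mul_le_mul_of_nonneg_left (hK _ hy₂) (by positivity)
    have h5 := norm_add_le (JJ D ρ a b (Wf ρ b m) k ζ w y - JJ D ρ a b (Wf ρ b m) k ζ ζ y₂)
      (JJ D ρ a b (Wf ρ b m) k ζ ζ y₂)
    rw [sub_add_cancel] at h5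
    rw [add_mul]
    linarith

theorem JJ_diff (h : Dom2 D ρ a b m l L d B CW) {ζ y₀ : ℂ} (hy₀ : (ζ, y₀) ∈ D) {k : ℂ → ℂ}
    (hk : DifferentiableOn ℂ k (Sl D ζ)) {K : ℝ} (hK : ∀ η ∈ Sl D ζ, ‖k η‖ ≤ K) :
    DifferentiableOn ℂ (fun p : ℂ × ℂ => JJ D ρ a b (Wf ρ b m) k ζ p.1 p.2) D := by
  rintro p₀ hp₀
  obtain ⟨c, q, hq, hc⟩ := cen_q h hy₀
  have hscd := h.scd
  have hSo := Sl_open hscd ζ
  have hn := hscd.neg _ hp₀
  have hC := h.wt.C0
  set κ := -ρ p₀ / 2 with hκ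
  have hκ0 : 0 < κ := by rw [hκ]; linarith
  set O : Set (ℂ × ℂ) := {p | p ∈ D ∧ ρ p < -κ} with hO
  have hOo : IsOpen O := by
    have := h.wt.rc.isOpen_inter_preimage hscd.op (isOpen_Iio (a := -κ))
    exact this
  have hp₀O : p₀ ∈ O := ⟨hp₀, by rw [hκ]; linarith⟩
  have hK0 : 0 ≤ K := (norm_nonneg _).trans (hK y₀ hy₀)
  have hkm : AEStronglyMeasurable k (volume.restrict (Sl D ζ)) :=
    hk.continuousOn.aestronglyMeasurable hSo.measurableSet
  have key := Pool.Agent.HP.differentiableOn_integral (X := ℂ × ℂ) (E := ℂ)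
    (volume : Measure ℂ)
    (fun η p => (Sl D ζ).indicator
      (fun η => k η * (Wf ρ b m (ζ, η) * (Ph ρ a b ζ η p.1 p.2)⁻¹ ^ 3)) η) O hOo ?_ ?_
    ((Sl D ζ).indicator fun _ => K * (CW * q ^ 2 * q ^ 2 * (2 / κ) ^ 3)) ?_ ?_
  · have h1 := (key p₀ hp₀O).differentiableAt (hOo.mem_nhds hp₀O)
    refine DifferentiableAt.differentiableWithinAt (h1.congr_of_eventuallyEq ?_)
    refine Eventually.of_forall (fun p => ?_)
    unfold JJ
    simp only
    rw [integral_indicator hSo.measurableSet]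
  · intro p hp
    have h1 := (JJ_int hscd h.wt hq hc hkm hK (show (p.1, p.2) ∈ D from hp.1))
    exact ((integrable_indicator_iff hSo.measurableSet).2 h1).aestronglyMeasurable
  · intro η
    by_cases hη : η ∈ Sl D ζ
    · simp only [indicator_of_mem hη]
      have h1 : DifferentiableOn ℂ (fun p : ℂ × ℂ => Ph ρ a b ζ η p.1 p.2) O := by
        unfold Ph PL
        fun_prop
      refine DifferentiableOn.const_mul ?_ _
      refine DifferentiableOn.const_mul ?_ _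
      refine DifferentiableOn.fun_pow (DifferentiableOn.fun_inv h1 ?_) 3
      intro p hp
      have h2 := p1z hscd (show (ζ, η) ∈ D from hη) (show (p.1, p.2) ∈ D from hp.1)
      have h3 : ρ (p.1, p.2) < -κ := hp.2
      exact norm_pos_iff.1 (by linarith)
    · simp only [indicator_of_notMem hη]
      exact differentiableOn_const _
  · refine (integrable_indicator_iff hSo.measurableSet).2 ?_
    exact integrableOn_const (Sl_fin hscd hq hc) enorm_ne_top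
  · intro η p hp
    by_cases hη : η ∈ Sl D ζ
    · simp only [indicator_of_mem hη]
      rw [norm_mul, norm_mul, norm_pow, norm_inv]
      have h1 := h.wt.wb ζ c _ hc η hη
      have h2 := (sl1 hscd hq hc hη).1
      have h3 := p1z hscd (show (ζ, η) ∈ D from hη) (show (p.1, p.2) ∈ D from hp.1)
      have h3' : ρ (p.1, p.2) < -κ := hp.2
      have h4 := hscd.neg _ hη
      have h5 : ‖Ph ρ a b ζ η p.1 p.2‖⁻¹ ≤ 2 / κ := by
        rw [inv_eq_one_div, div_le_div_iff₀ (by linarith) hκ0]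
        linarith
      have h6 : ‖Wf ρ b m (ζ, η)‖ ≤ CW * q ^ 2 * q ^ 2 := by
        refine h1.trans ?_
        refine mul_le_mul_of_nonneg_right ?_ (by positivity)
        exact mul_le_mul_of_nonneg_left h2 hC
      refine mul_le_mul (hK η hη) ?_ (by positivity) hK0
      refine mul_le_mul h6 ?_ (by positivity) (by positivity)
      exact pow_le_pow_left₀ (by positivity) h5 3
    · simp only [indicator_of_notMem hη, norm_zero]
      exact le_rfl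

/-- the extension -/
noncomputable def ee2 (D : Set (ℂ × ℂ)) (ρ : ℂ × ℂ → ℝ) (a b m : ℂ × ℂ → ℂ) (G : ℂ × ℂ → ℂ)
    (ζ : ℂ) (p : ℂ × ℂ) : ℂ :=
  2 / Real.pi * JJ D ρ a b (Wf ρ b m) (fun η => (G (ζ, η))⁻¹) ζ p.1 p.2

theorem ind_meas {X Y : Type*} [TopologicalSpace X] [MeasurableSpace X] [BorelSpace X]
    [TopologicalSpace Y] [MeasurableSpace Y] [BorelSpace Y] [Zero Y] {D : Set X} (hD : IsOpen D)
    {F : X → Y} (hF : ContinuousOn F D) : Measurable (D.indicator F) := by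
  classical
  rw [← Set.piecewise_eq_indicator]
  exact ContinuousOn.measurable_piecewise hF continuousOn_const hD.measurableSet

theorem ee2_meas (h : Dom2 D ρ a b m l L d B CW) {G : ℂ × ℂ → ℂ} (hG : ContinuousOn G D)
    (y : ℂ) : Measurable (fun q : ℂ × ℂ => ee2 D ρ a b m G q.1 (q.2, y)) := by
  have hDo := h.scd.op
  have hρ := ind_meas hDo h.wt.rc
  have ha := ind_meas hDo h.wt.ac
  have hb := ind_meas hDo h.wt.bc
  have hW := ind_meas hDo h.wt.wc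
  have hGm := ind_meas hDo hG
  have hP : Measurable (fun x : (ℂ × ℂ) × ℂ => (x.1.1, x.2)) :=
    (measurable_fst.comp measurable_fst).prodMk measurable_snd
  have hw : Measurable (fun x : (ℂ × ℂ) × ℂ => x.1.2) := measurable_snd.comp measurable_fst
  have hζ : Measurable (fun x : (ℂ × ℂ) × ℂ => x.1.1) := measurable_fst.comp measurable_fst
  have hη : Measurable (fun x : (ℂ × ℂ) × ℂ => x.2) := measurable_snd
  have hPh : Measurable (fun x : (ℂ × ℂ) × ℂ =>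
      Ph (D.indicator ρ) (D.indicator a) (D.indicator b) x.1.1 x.2 x.1.2 y) := by
    unfold Ph PL
    have h1 : Measurable (fun x : (ℂ × ℂ) × ℂ => ((-D.indicator ρ (x.1.1, x.2) : ℝ) : ℂ)) :=
      Complex.measurable_ofReal.comp (hρ.comp hP).neg
    exact h1.sub (((ha.comp hP).mul (hw.sub hζ)).add ((hb.comp hP).mul
      (measurable_const.sub hη)))
  have hF : Measurable (fun x : (ℂ × ℂ) × ℂ => (D.indicator (fun _ => (1 : ℂ)) (x.1.1, x.2)) *
      ((D.indicator G (x.1.1, x.2))⁻¹ * (D.indicator (Wf ρ b m) (x.1.1, x.2) *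
      (Ph (D.indicator ρ) (D.indicator a) (D.indicator b) x.1.1 x.2 x.1.2 y)⁻¹ ^ 3))) := by
    have h1 : Measurable (D.indicator (fun _ => (1 : ℂ))) :=
      measurable_const.indicator hDo.measurableSet
    exact (h1.comp hP).mul (((hGm.comp hP).inv).mul ((hW.comp hP).mul (hPh.inv.pow_const 3)))
  have hI := (hF.stronglyMeasurable.integral_prod_right' (ν := (volume : Measure ℂ))).measurable
  have heq : (fun q : ℂ × ℂ => ee2 D ρ a b m G q.1 (q.2, y)) = fun q : ℂ × ℂ =>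
      2 / Real.pi * ∫ η : ℂ, (D.indicator (fun _ => (1 : ℂ)) (q.1, η)) *
      ((D.indicator G (q.1, η))⁻¹ * (D.indicator (Wf ρ b m) (q.1, η) *
      (Ph (D.indicator ρ) (D.indicator a) (D.indicator b) q.1 η q.2 y)⁻¹ ^ 3)) := by
    funext q
    unfold ee2 JJ
    congr 1
    rw [← integral_indicator (Sl_open h.scd q.1).measurableSet]
    congr 1
    funext η
    by_cases hη : η ∈ Sl D q.1
    · have hη' : (q.1, η) ∈ D := hη
      rw [indicator_of_mem hη, indicator_of_mem hη', indicator_of_mem hη', indicator_of_mem hη']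
      unfold Ph
      rw [indicator_of_mem hη']
      unfold PL
      rw [indicator_of_mem hη', indicator_of_mem hη', one_mul]
    · have hη' : (q.1, η) ∉ D := hη
      rw [indicator_of_notMem hη, indicator_of_notMem hη', zero_mul]
  rw [heq]
  exact hI.const_mul _

/-- **Bounded extension from the slices.** -/
theorem ext_exists (h : Dom2 D ρ a b m l L d B CW) (hne : D.Nonempty) {η₀ : ℝ} (hη₀ : 0 < η₀) :
    ∃ M : ℝ, 0 ≤ M ∧ ∀ (A : Set ℂ) (G : ℂ × ℂ → ℂ), DifferentiableOn ℂ G D →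
      (∀ ζ ∈ A, ∃ y, (ζ, y) ∈ D) → (∀ ζ ∈ A, ∀ y, (ζ, y) ∈ D → η₀ ≤ ‖G (ζ, y)‖) →
      Ext D A G M (ee2 D ρ a b m G) := by
  obtain ⟨C, hC, hCb⟩ := JJ_bd h hne
  refine ⟨2 / Real.pi * (C * (1 / η₀)), by positivity, ?_⟩
  intro A G hG hA hlow
  have hpi := Real.pi_pos
  have hkd : ∀ ζ ∈ A, DifferentiableOn ℂ (fun η => (G (ζ, η))⁻¹) (Sl D ζ) := by
    intro ζ hζ
    refine DifferentiableOn.fun_inv ?_ ?_
    · refine hG.comp (g := G) (f := fun η : ℂ => (ζ, η)) (by fun_prop) ?_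
      intro η hη
      exact hη
    · intro η hη
      exact norm_pos_iff.1 (lt_of_lt_of_le hη₀ (hlow ζ hζ η hη))
  have hkb : ∀ ζ ∈ A, ∀ η ∈ Sl D ζ, ‖(G (ζ, η))⁻¹‖ ≤ 1 / η₀ := by
    intro ζ hζ η hη
    rw [norm_inv, inv_eq_one_div]
    exact one_div_le_one_div_of_le hη₀ (hlow ζ hζ η hη)
  refine ⟨ee2_meas h hG.continuousOn, ?_, ?_, ?_⟩
  · intro ζ hζ y hy
    unfold ee2
    simp only
    rw [JJ_self h hy (hkd ζ hζ) (hkb ζ hζ)]
    have : (Real.pi : ℂ) ≠ 0 := by exact_mod_cast hpi.ne'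
    field_simp
  · intro ζ hζ
    obtain ⟨y₀, hy₀⟩ := hA ζ hζ
    exact (JJ_diff h hy₀ (hkd ζ hζ) (hkb ζ hζ)).const_mul _
  · intro ζ hζ p hp
    obtain ⟨y₀, hy₀⟩ := hA ζ hζ
    unfold ee2
    rw [norm_mul]
    have e : ‖((2 : ℂ) / (Real.pi : ℂ))‖ = 2 / Real.pi := by
      rw [norm_div, Complex.norm_real, Real.norm_of_nonneg hpi.le]
      simp
    rw [e]
    refine mul_le_mul_of_nonneg_left ?_ (by positivity)
    exact hCb ζ y₀ hy₀ _ (hkd ζ hζ) _ (hkb ζ hζ) p.1 p.2 hp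

end Pool.Agent.Y263.SC
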