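import Mathlib
import Pool.Agent.Y263.SC.Exo

/-!
Bounded strictly convex domains in `ℂ²` given by a `C²` function with positive definite Hessian.
-/

set_option autoImplicit false

open MeasureTheory Set Filter Topology Complex Metric

namespace Pool.Agent.Y263.SC

/-- `D` is a bounded strictly convex domain with defining function `ρ` on `O` -/
structure StrC (D O : Set (ℂ × ℂ)) (ρ : ℂ × ℂ → ℝ) : Prop where
  Oo : IsOpen O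
  cl : closure D ⊆ O
  C2 : ContDiffOn ℝ 2 ρ O
  eq : D = {p | p ∈ O ∧ ρ p < 0}
  bdd : Bornology.IsBounded D
  cvx : Convex ℝ D
  hess : ∀ p ∈ closure D, ∀ v : ℂ × ℂ, v ≠ 0 → 0 < fderiv ℝ (fderiv ℝ ρ) p v v

/-- `∂ρ/∂w` -/
noncomputable def fa (ρ : ℂ × ℂ → ℝ) (p : ℂ × ℂ) : ℂ :=
  (1 / 2 : ℂ) * ((fderiv ℝ ρ p (1, 0) : ℂ) - I * (fderiv ℝ ρ p (I, 0) : ℂ))

/-- `∂ρ/∂y` -/
noncomputable def fb (ρ : ℂ × ℂ → ℝ) (p : ℂ × ℂ) : ℂ :=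
  (1 / 2 : ℂ) * ((fderiv ℝ ρ p (0, 1) : ℂ) - I * (fderiv ℝ ρ p (0, I) : ℂ))

/-- `∂²ρ/∂y∂ȳ` -/
noncomputable def fm (ρ : ℂ × ℂ → ℝ) (p : ℂ × ℂ) : ℂ :=
  (fderiv ℝ (fb ρ) p (0, 1) + I * fderiv ℝ (fb ρ) p (0, I)) / 2

theorem re_fa_fb (ρ : ℂ × ℂ → ℝ) (p v : ℂ × ℂ) :
    2 * (fa ρ p * v.1 + fb ρ p * v.2).re = fderiv ℝ ρ p v := by
  have hv : v = v.1.re • ((1 : ℂ), (0 : ℂ)) + v.1.im • (I, (0 : ℂ)) + v.2.re • ((0 : ℂ), (1 : ℂ)) +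
      v.2.im • ((0 : ℂ), I) := by
    ext
    · simp
    · simp
  conv_rhs => rw [hv]
  simp only [map_add, map_smul, smul_eq_mul]
  unfold fa fb
  simp
  ring

theorem nrm1 : ‖((1 : ℂ), (0 : ℂ))‖ = 1 ∧ ‖(I, (0 : ℂ))‖ = 1 ∧ ‖((0 : ℂ), (1 : ℂ))‖ = 1 ∧
    ‖((0 : ℂ), I)‖ = 1 := by
  refine ⟨?_, ?_, ?_, ?_⟩ <;> simp [Prod.norm_def]

theorem half_le (T : ℂ × ℂ →L[ℝ] ℝ) (u v : ℂ × ℂ) (hu : ‖u‖ = 1) (hv : ‖v‖ = 1) :
    ‖(1 / 2 : ℂ) * ((T u : ℂ) - I * (T v : ℂ))‖ ≤ ‖T‖ := by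
  rw [norm_mul]
  have h1 : ‖((T u : ℝ) : ℂ)‖ ≤ ‖T‖ := by
    rw [Complex.norm_real]
    have := T.le_opNorm u
    rwa [hu, mul_one] at this
  have h2 : ‖I * ((T v : ℝ) : ℂ)‖ ≤ ‖T‖ := by
    rw [norm_mul, Complex.norm_I, one_mul, Complex.norm_real]
    have := T.le_opNorm v
    rwa [hv, mul_one] at this
  have h3 := norm_sub_le ((T u : ℝ) : ℂ) (I * ((T v : ℝ) : ℂ))
  have h4 : ‖(1 / 2 : ℂ)‖ = 1 / 2 := by norm_num
  rw [h4]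
  linarith

theorem fa_le (ρ : ℂ × ℂ → ℝ) (p : ℂ × ℂ) : ‖fa ρ p‖ ≤ ‖fderiv ℝ ρ p‖ :=
  half_le _ _ _ nrm1.1 nrm1.2.1

theorem fb_le (ρ : ℂ × ℂ → ℝ) (p : ℂ × ℂ) : ‖fb ρ p‖ ≤ ‖fderiv ℝ ρ p‖ :=
  half_le _ _ _ nrm1.2.2.1 nrm1.2.2.2

section

variable {D O : Set (ℂ × ℂ)} {ρ : ℂ × ℂ → ℝ}

theorem StrC.sub (h : StrC D O ρ) : D ⊆ O := subset_closure.trans h.cl

theorem StrC.op (h : StrC D O ρ) : IsOpen D := by
  rw [h.eq]
  exact h.C2.continuousOn.isOpen_inter_preimage h.Oo isOpen_Iio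

theorem StrC.d1 (h : StrC D O ρ) {p : ℂ × ℂ} (hp : p ∈ O) :
    HasFDerivAt ρ (fderiv ℝ ρ p) p :=
  ((h.C2.differentiableOn (by norm_num) p hp).differentiableAt (h.Oo.mem_nhds hp)).hasFDerivAt

theorem StrC.f1 (h : StrC D O ρ) : ContDiffOn ℝ 1 (fderiv ℝ ρ) O :=
  h.C2.fderiv_of_isOpen h.Oo (by norm_num)

theorem StrC.d2 (h : StrC D O ρ) {p : ℂ × ℂ} (hp : p ∈ O) :
    HasFDerivAt (fderiv ℝ ρ) (fderiv ℝ (fderiv ℝ ρ) p) p :=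
  ((h.f1.differentiableOn (by norm_num) p hp).differentiableAt (h.Oo.mem_nhds hp)).hasFDerivAt

theorem StrC.f2 (h : StrC D O ρ) : ContinuousOn (fderiv ℝ (fderiv ℝ ρ)) O :=
  h.f1.continuousOn_fderiv_of_isOpen h.Oo le_rfl

theorem StrC.fbC (h : StrC D O ρ) : ContDiffOn ℝ 1 (fb ρ) O := by
  have h1 := h.f1
  have h2 : ∀ v : ℂ × ℂ, ContDiffOn ℝ 1 (fun p => ((fderiv ℝ ρ p v : ℝ) : ℂ)) O := by
    intro v
    exact Complex.ofRealCLM.contDiff.comp_contDiffOn (h1.clm_apply contDiffOn_const)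
  unfold fb
  exact contDiffOn_const.mul ((h2 _).sub (contDiffOn_const.mul (h2 _)))

theorem StrC.faC (h : StrC D O ρ) : ContDiffOn ℝ 1 (fa ρ) O := by
  have h1 := h.f1
  have h2 : ∀ v : ℂ × ℂ, ContDiffOn ℝ 1 (fun p => ((fderiv ℝ ρ p v : ℝ) : ℂ)) O := by
    intro v
    exact Complex.ofRealCLM.contDiff.comp_contDiffOn (h1.clm_apply contDiffOn_const)
  unfold fa
  exact contDiffOn_const.mul ((h2 _).sub (contDiffOn_const.mul (h2 _)))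

theorem StrC.fmC (h : StrC D O ρ) : ContinuousOn (fm ρ) O := by
  have h1 : ContinuousOn (fderiv ℝ (fb ρ)) O := h.fbC.continuousOn_fderiv_of_isOpen h.Oo le_rfl
  unfold fm
  exact ((h1.clm_apply continuousOn_const).add
    (continuousOn_const.mul (h1.clm_apply continuousOn_const))).div_const 2

/-- uniform convexity near the closure -/
theorem StrC.unif (h : StrC D O ρ) (hne : D.Nonempty) : ∃ d l : ℝ, 0 < d ∧ 0 < l ∧
    cthickening d (closure D) ⊆ O ∧ ∀ p ∈ cthickening d (closure D), ∀ v : ℂ × ℂ,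
      2 * l * (‖v.1‖ ^ 2 + ‖v.2‖ ^ 2) ≤ fderiv ℝ (fderiv ℝ ρ) p v v := by
  have hK : IsCompact (closure D) := h.bdd.isCompact_closure
  have hS : IsCompact (sphere (0 : ℂ × ℂ) 1) := isCompact_sphere _ _
  have hSne : (sphere (0 : ℂ × ℂ) 1).Nonempty := by
    refine ⟨(1, 0), ?_⟩
    rw [mem_sphere_zero_iff_norm]
    exact nrm1.1
  have hcont : ContinuousOn (fun x : (ℂ × ℂ) × (ℂ × ℂ) => fderiv ℝ (fderiv ℝ ρ) x.1 x.2 x.2)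
      (closure D ×ˢ sphere (0 : ℂ × ℂ) 1) := by
    have h1 : ContinuousOn (fun x : (ℂ × ℂ) × (ℂ × ℂ) => fderiv ℝ (fderiv ℝ ρ) x.1)
        (closure D ×ˢ sphere (0 : ℂ × ℂ) 1) :=
      h.f2.comp continuousOn_fst (fun x hx => h.cl hx.1)
    exact (h1.clm_apply continuousOn_snd).clm_apply continuousOn_snd
  obtain ⟨x₀, hx₀, hmin⟩ := (hK.prod hS).exists_isMinOn (hne.closure.prod hSne) hcont
  set m₀ := fderiv ℝ (fderiv ℝ ρ) x₀.1 x₀.2 x₀.2 with hm₀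
  have hm0 : 0 < m₀ := by
    refine h.hess _ hx₀.1 _ ?_
    intro h0
    have := mem_sphere_zero_iff_norm.1 hx₀.2
    rw [h0, norm_zero] at this
    exact zero_ne_one this
  -- the neighbourhood
  have hcO : ContinuousOn (fun x : (ℂ × ℂ) × (ℂ × ℂ) => fderiv ℝ (fderiv ℝ ρ) x.1 x.2 x.2)
      (O ×ˢ univ) := by
    have h1 : ContinuousOn (fun x : (ℂ × ℂ) × (ℂ × ℂ) => fderiv ℝ (fderiv ℝ ρ) x.1)
        (O ×ˢ univ) :=
      h.f2.comp continuousOn_fst (fun x hx => hx.1)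
    exact (h1.clm_apply continuousOn_snd).clm_apply continuousOn_snd
  have hΩ : IsOpen {x : (ℂ × ℂ) × (ℂ × ℂ) | x ∈ O ×ˢ univ ∧
      m₀ / 2 < fderiv ℝ (fderiv ℝ ρ) x.1 x.2 x.2} :=
    hcO.isOpen_inter_preimage (h.Oo.prod isOpen_univ) (isOpen_Ioi (a := m₀ / 2))
  obtain ⟨u, v, huo, -, hKu, hSv, huv⟩ := generalized_tube_lemma hK hS hΩ (by
    rintro ⟨p, v⟩ ⟨hp, hv⟩
    refine ⟨⟨h.cl hp, trivial⟩, ?_⟩
    have h1 : m₀ ≤ fderiv ℝ (fderiv ℝ ρ) p v v := hmin (show (p, v) ∈ closure D ×ˢ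
      sphere (0 : ℂ × ℂ) 1 from ⟨hp, hv⟩)
    change m₀ / 2 < fderiv ℝ (fderiv ℝ ρ) p v v
    linarith)
  obtain ⟨d, hd, hdU⟩ := hK.exists_cthickening_subset_open huo hKu
  have hvne : (sphere (0 : ℂ × ℂ) 1).Nonempty := hSne
  refine ⟨d, m₀ / 8, hd, by positivity, ?_, ?_⟩
  · intro p hp
    obtain ⟨v₁, hv₁⟩ := hvne
    exact (huv (show (p, v₁) ∈ u ×ˢ v from ⟨hdU hp, hSv hv₁⟩)).1.1
  · intro p hp v'
    have h1 : m₀ / 2 * ‖v'‖ ^ 2 ≤ fderiv ℝ (fderiv ℝ ρ) p v' v' := by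
      by_cases hv : v' = 0
      · rw [hv]; simp
      · have hv0 : 0 < ‖v'‖ := norm_pos_iff.2 hv
        have h1 : (‖v'‖⁻¹ • v') ∈ sphere (0 : ℂ × ℂ) 1 := by
          rw [mem_sphere_zero_iff_norm, norm_smul, norm_inv, norm_norm]
          exact inv_mul_cancel₀ hv0.ne'
        have h2 : m₀ / 2 < fderiv ℝ (fderiv ℝ ρ) p (‖v'‖⁻¹ • v') (‖v'‖⁻¹ • v') :=
          (huv (show (p, ‖v'‖⁻¹ • v') ∈ u ×ˢ v from ⟨hdU hp, hSv h1⟩)).2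
        rw [map_smul, map_smul, _root_.smul_apply, smul_eq_mul, smul_eq_mul] at h2
        have h3 := mul_le_mul_of_nonneg_right h2.le (sq_nonneg ‖v'‖)
        refine h3.trans (le_of_eq ?_)
        field_simp
    have h4 : ‖v'.1‖ ≤ ‖v'‖ := norm_fst_le v'
    have h5 : ‖v'.2‖ ≤ ‖v'‖ := norm_snd_le v'
    have h6 : ‖v'.1‖ ^ 2 ≤ ‖v'‖ ^ 2 := pow_le_pow_left₀ (norm_nonneg _) h4 2
    have h7 : ‖v'.2‖ ^ 2 ≤ ‖v'‖ ^ 2 := pow_le_pow_left₀ (norm_nonneg _) h5 2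
    nlinarith

theorem Nb_sub (D : Set (ℂ × ℂ)) (d : ℝ) : Nb D d ⊆ cthickening d (closure D) := by
  rintro q ⟨p, hp, hpq⟩
  refine mem_cthickening_of_dist_le q p d _ (subset_closure hp) ?_
  rw [Prod.dist_eq, dist_eq_norm, dist_eq_norm]
  exact max_le (by linarith [norm_nonneg (q.2 - p.2)]) (by linarith [norm_nonneg (q.1 - p.1)])

theorem Nb_convex {D : Set (ℂ × ℂ)} (hD : Convex ℝ D) (d : ℝ) : Convex ℝ (Nb D d) := by
  rintro p ⟨p', hp', hp⟩ q ⟨q', hq', hq⟩ s t hs ht hst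
  refine ⟨s • p' + t • q', hD hp' hq' hs ht hst, ?_⟩
  have e1 : (s • p + t • q).1 - (s • p' + t • q').1 = (s : ℂ) * (p.1 - p'.1) +
      (t : ℂ) * (q.1 - q'.1) := by
    simp only [Prod.fst_add, Prod.smul_fst, Complex.real_smul]
    ring
  have e2 : (s • p + t • q).2 - (s • p' + t • q').2 = (s : ℂ) * (p.2 - p'.2) +
      (t : ℂ) * (q.2 - q'.2) := by
    simp only [Prod.snd_add, Prod.smul_snd, Complex.real_smul]
    ring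
  rw [e1, e2]
  have h1 := norm_add_le ((s : ℂ) * (p.1 - p'.1)) ((t : ℂ) * (q.1 - q'.1))
  have h2 := norm_add_le ((s : ℂ) * (p.2 - p'.2)) ((t : ℂ) * (q.2 - q'.2))
  rw [norm_mul, norm_mul, Complex.norm_real, Complex.norm_real, Real.norm_of_nonneg hs,
    Real.norm_of_nonneg ht] at h1 h2
  have h3 := mul_le_mul_of_nonneg_left hp hs
  have h4 := mul_le_mul_of_nonneg_left hq ht
  have h5 : s * d + t * d = d := by rw [← add_mul, hst, one_mul]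
  nlinarith

end

end Pool.Agent.Y263.SC
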