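import Mathlib
import Pool.Agent.Y263.SC.C2

/-!
Bounded strictly convex domains satisfy the quantitative hypotheses.
-/

set_option autoImplicit false

open MeasureTheory Set Filter Topology Complex Metric
open Pool.Agent.H720R2.HP (db)

namespace Pool.Agent.Y263.SC

variable {D O : Set (ℂ × ℂ)} {ρ : ℂ × ℂ → ℝ}

theorem StrC.conv0 (h : StrC D O ρ) {d l : ℝ} (hO : cthickening d (closure D) ⊆ O)
    (hl : ∀ p ∈ cthickening d (closure D), ∀ v : ℂ × ℂ,
      2 * l * (‖v.1‖ ^ 2 + ‖v.2‖ ^ 2) ≤ fderiv ℝ (fderiv ℝ ρ) p v v)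
    {p q : ℂ × ℂ} (hp : p ∈ Nb D d) (hq : q ∈ Nb D d) :
    ρ p + fderiv ℝ ρ p (q - p) + l * (‖(q - p).1‖ ^ 2 + ‖(q - p).2‖ ^ 2) ≤ ρ q := by
  set v := q - p with hv
  set N := ‖v.1‖ ^ 2 + ‖v.2‖ ^ 2 with hN
  have hγ : ∀ t ∈ Icc (0 : ℝ) 1, p + t • v ∈ Nb D d := fun t ht =>
    (Nb_convex h.cvx d).add_smul_sub_mem hp hq ht
  have hγO : ∀ t ∈ Icc (0 : ℝ) 1, p + t • v ∈ O := fun t ht => hO (Nb_sub D d (hγ t ht))
  have hγd : ∀ t : ℝ, HasDerivAt (fun t : ℝ => p + t • v) v t := by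
    intro t
    have := ((hasDerivAt_id t).smul_const v).const_add p
    simpa using this
  have hg : ∀ t ∈ Icc (0 : ℝ) 1, HasDerivAt (fun t : ℝ => ρ (p + t • v))
      (fderiv ℝ ρ (p + t • v) v) t := by
    intro t ht
    exact (h.d1 (hγO t ht)).comp_hasDerivAt t (hγd t)
  have hg1 : ∀ t ∈ Icc (0 : ℝ) 1, HasDerivAt (fun t : ℝ => fderiv ℝ ρ (p + t • v) v)
      (fderiv ℝ (fderiv ℝ ρ) (p + t • v) v v) t := by
    intro t ht
    have h1 : HasDerivAt (fun t : ℝ => fderiv ℝ ρ (p + t • v))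
        (fderiv ℝ (fderiv ℝ ρ) (p + t • v) v) t := (h.d2 (hγO t ht)).comp_hasDerivAt t (hγd t)
    have h2 := h1.clm_apply (hasDerivAt_const t v)
    simpa using h2
  have hint : interior (Icc (0 : ℝ) 1) ⊆ Icc 0 1 := interior_subset
  -- first integration
  have hk1 : ∀ t ∈ Icc (0 : ℝ) 1, HasDerivAt
      (fun t : ℝ => fderiv ℝ ρ (p + t • v) v - 2 * l * N * t)
      (fderiv ℝ (fderiv ℝ ρ) (p + t • v) v v - 2 * l * N) t := by
    intro t ht
    have h1 := (hg1 t ht).fun_sub ((hasDerivAt_id t).const_mul (2 * l * N))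
    simpa using h1
  have m1 : MonotoneOn (fun t : ℝ => fderiv ℝ ρ (p + t • v) v - 2 * l * N * t) (Icc 0 1) := by
    refine monotoneOn_of_deriv_nonneg (convex_Icc 0 1)
      (fun t ht => (hk1 t ht).continuousAt.continuousWithinAt)
      (fun t ht => (hk1 t (hint ht)).differentiableAt.differentiableWithinAt) ?_
    intro t ht
    rw [(hk1 t (hint ht)).deriv]
    have := hl _ (Nb_sub D d (hγ t (hint ht))) v
    linarith
  have hk2 : ∀ t ∈ Icc (0 : ℝ) 1, HasDerivAt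
      (fun t : ℝ => ρ (p + t • v) - fderiv ℝ ρ p v * t - l * N * t ^ 2)
      (fderiv ℝ ρ (p + t • v) v - fderiv ℝ ρ p v - l * N * (2 * t)) t := by
    intro t ht
    have h1 := ((hg t ht).fun_sub ((hasDerivAt_id t).const_mul (fderiv ℝ ρ p v))).fun_sub
      (((hasDerivAt_id t).fun_pow 2).const_mul (l * N))
    simpa using h1
  have m2 : MonotoneOn (fun t : ℝ => ρ (p + t • v) - fderiv ℝ ρ p v * t - l * N * t ^ 2)
      (Icc 0 1) := by
    refine monotoneOn_of_deriv_nonneg (convex_Icc 0 1)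
      (fun t ht => (hk2 t ht).continuousAt.continuousWithinAt)
      (fun t ht => (hk2 t (hint ht)).differentiableAt.differentiableWithinAt) ?_
    intro t ht
    rw [(hk2 t (hint ht)).deriv]
    have h1 := m1 (left_mem_Icc.2 zero_le_one) (hint ht) (hint ht).1
    simp only [zero_smul, add_zero, mul_zero, sub_zero] at h1
    linarith
  have h1 := m2 (left_mem_Icc.2 zero_le_one) (right_mem_Icc.2 zero_le_one) zero_le_one
  simp only [zero_smul, add_zero, mul_zero, sub_zero, one_smul, mul_one, one_pow] at h1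
  have h2 : p + v = q := by rw [hv]; abel
  rw [h2] at h1
  norm_num at h1
  linarith

theorem StrC.scd (h : StrC D O ρ) (hne : D.Nonempty) :
    ∃ l L d B : ℝ, SCD D ρ (fa ρ) (fb ρ) l L d ∧ 0 ≤ B ∧ (∀ p ∈ D, -ρ p ≤ B) ∧
      (∀ p ∈ D, ‖fb ρ p‖ ≤ B) ∧ ∀ p ∈ D, ‖fm ρ p‖ ≤ B := by
  obtain ⟨d, l, hd, hl, hO, hH⟩ := h.unif hne
  have hK : IsCompact (closure D) := h.bdd.isCompact_closure
  have hK1 : IsCompact (cthickening d (closure D)) := hK.cthickening
  obtain ⟨B1, hB1⟩ := hK1.exists_bound_of_continuousOn (h.C2.continuousOn.mono hO)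
  obtain ⟨B2, hB2⟩ := hK1.exists_bound_of_continuousOn (h.faC.continuousOn.mono hO)
  obtain ⟨B3, hB3⟩ := hK1.exists_bound_of_continuousOn (h.fbC.continuousOn.mono hO)
  obtain ⟨B4, hB4⟩ := hK1.exists_bound_of_continuousOn (h.fmC.mono hO)
  obtain ⟨B5, hB5⟩ := hK1.exists_bound_of_continuousOn
    ((h.faC.continuousOn_fderiv_of_isOpen h.Oo le_rfl).mono hO)
  obtain ⟨B6, hB6⟩ := hK1.exists_bound_of_continuousOn
    ((h.fbC.continuousOn_fderiv_of_isOpen h.Oo le_rfl).mono hO)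
  set L := 1 + |B1| + |B2| + |B3| + |B4| + |B5| + |B6| with hL
  have a1 := abs_nonneg B1
  have a2 := abs_nonneg B2
  have a3 := abs_nonneg B3
  have a4 := abs_nonneg B4
  have a5 := abs_nonneg B5
  have a6 := abs_nonneg B6
  have hNK : Nb D d ⊆ cthickening d (closure D) := Nb_sub D d
  have hDN : D ⊆ Nb D d := fun p hp => ⟨p, hp, by simp [hd.le]⟩
  have hcx := Nb_convex h.cvx d
  have lip : ∀ F : ℂ × ℂ → ℂ, ContDiffOn ℝ 1 F O → ∀ C : ℝ, C ≤ L →
      (∀ p ∈ cthickening d (closure D), ‖fderiv ℝ F p‖ ≤ C) →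
      ∀ p ∈ Nb D d, ∀ q ∈ Nb D d, ‖F p - F q‖ ≤ L * (‖p.1 - q.1‖ + ‖p.2 - q.2‖) := by
    intro F hF C hCL hC p hp q hq
    have h1 := Convex.norm_image_sub_le_of_norm_hasFDerivWithin_le (f := F) (f' := fderiv ℝ F)
      (s := Nb D d) (C := C) (x := q) (y := p) (fun x hx => by
        have hxO : x ∈ O := hO (hNK hx)
        exact ((hF.differentiableOn one_ne_zero x hxO).differentiableAt
          (h.Oo.mem_nhds hxO)).hasFDerivAt.hasFDerivWithinAt)
      (fun x hx => hC x (hNK hx)) hcx hq hp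
    refine h1.trans ?_
    have h2 : ‖p - q‖ ≤ ‖p.1 - q.1‖ + ‖p.2 - q.2‖ := by
      rw [Prod.norm_def]
      simp only [Prod.fst_sub, Prod.snd_sub]
      exact max_le (by linarith [norm_nonneg (p.2 - q.2)]) (by linarith [norm_nonneg (p.1 - q.1)])
    have hC0 : 0 ≤ C := (norm_nonneg _).trans (hC p (hNK hp))
    exact mul_le_mul hCL h2 (norm_nonneg _) (by linarith)
  refine ⟨min l 1, L, d, L, ?_, by positivity, ?_, ?_, ?_⟩
  · refine ⟨lt_min hl one_pos, min_le_right _ _, by rw [hL]; linarith, hd, h.op, ?_, ?_, ?_, ?_, ?_,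
      ?_, ?_, ?_, ?_⟩
    · intro p hp
      have hp' := hp
      rw [h.eq] at hp'
      exact hp'.2
    · intro q hq hq0
      rw [h.eq]
      exact ⟨hO (hNK hq), hq0⟩
    · intro p hp q hq
      have h1 := h.conv0 hO hH hp hq
      have h2 := re_fa_fb ρ p (q - p)
      rw [← h2] at h1
      simp only [Prod.fst_sub, Prod.snd_sub] at h1
      refine le_trans ?_ h1
      have h3 : min l 1 * (‖q.1 - p.1‖ ^ 2 + ‖q.2 - p.2‖ ^ 2) ≤
          l * (‖q.1 - p.1‖ ^ 2 + ‖q.2 - p.2‖ ^ 2) :=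
        mul_le_mul_of_nonneg_right (min_le_left _ _) (by positivity)
      linarith
    · exact lip _ h.faC |B5| (by rw [hL]; linarith) (fun p hp => (hB5 p hp).trans (le_abs_self _))
    · exact lip _ h.fbC |B6| (by rw [hL]; linarith) (fun p hp => (hB6 p hp).trans (le_abs_self _))
    · intro p hp
      have := (hB2 p (hNK hp)).trans (le_abs_self _)
      rw [hL]; linarith
    · intro p hp
      have := (hB3 p (hNK hp)).trans (le_abs_self _)
      rw [hL]; linarith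
    · intro p hp
      have h1 := (hB1 p (hNK (hDN hp))).trans (le_abs_self _)
      have h2 := neg_abs_le (ρ p)
      rw [Real.norm_eq_abs] at h1
      rw [hL]; linarith
    · intro p hp q hq t ht0 ht1
      have h1 := hcx hp hq (by linarith : 0 ≤ 1 - t) ht0 (by ring)
      rw [Complex.coe_smul, Complex.coe_smul]
      exact h1
  · intro p hp
    have h1 := (hB1 p (hNK (hDN hp))).trans (le_abs_self _)
    have h2 := neg_abs_le (ρ p)
    rw [Real.norm_eq_abs] at h1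
    rw [hL]; linarith
  · intro p hp
    have := (hB3 p (hNK (hDN hp))).trans (le_abs_self _)
    rw [hL]; linarith
  · intro p hp
    have := (hB4 p (hNK (hDN hp))).trans (le_abs_self _)
    rw [hL]; linarith

theorem inr_deriv (ζ η : ℂ) : HasFDerivAt (fun η : ℂ => (ζ, η))
    (ContinuousLinearMap.inr ℝ ℂ ℂ) η := by
  have h1 : HasFDerivAt (fun η : ℂ => (ζ, η)) ((0 : ℂ →L[ℝ] ℂ).prod (ContinuousLinearMap.id ℝ ℂ)) η :=
    (hasFDerivAt_const ζ η).prodMk (hasFDerivAt_id η)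
  exact h1

/-- existence of slice centres -/
theorem StrC.cen (h : StrC D O ρ) {ζ y : ℂ} (hy : (ζ, y) ∈ D) :
    ∃ (c : ℂ) (τ : ℝ), Cen D ρ (fb ρ) ζ c τ := by
  have hK : IsCompact (closure D) := h.bdd.isCompact_closure
  set T : Set ℂ := (fun η : ℂ => (ζ, η)) ⁻¹' (closure D) with hT
  have hTc : IsClosed T := isClosed_closure.preimage (by fun_prop)
  have hTb : Bornology.IsBounded T := by
    have h1 : T ⊆ (fun p : ℂ × ℂ => p.2) '' closure D := fun η hη => ⟨(ζ, η), hη, rfl⟩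
    exact ((hK.image continuous_snd).isBounded).subset h1
  have hTK : IsCompact T := Metric.isCompact_of_isClosed_isBounded hTc hTb
  have hcont : ContinuousOn (fun η : ℂ => ρ (ζ, η)) T :=
    h.C2.continuousOn.comp (by fun_prop) (fun η hη => h.cl hη)
  obtain ⟨c, hcT, hmin⟩ := hTK.exists_isMinOn ⟨y, subset_closure hy⟩ hcont
  have hyneg : ρ (ζ, y) < 0 := by
    have hy' := hy
    rw [h.eq] at hy'
    exact hy'.2
  have hc0 : ρ (ζ, c) < 0 := lt_of_le_of_lt (hmin (subset_closure hy)) hyneg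
  have hcD : (ζ, c) ∈ D := by
    rw [h.eq]
    exact ⟨h.cl hcT, hc0⟩
  have hTn : T ∈ 𝓝 c := by
    have h1 : (fun η : ℂ => (ζ, η)) ⁻¹' D ∈ 𝓝 c :=
      (h.op.preimage (by fun_prop : Continuous fun η : ℂ => (ζ, η))).mem_nhds hcD
    exact mem_of_superset h1 (fun η hη => subset_closure hη)
  have hloc : IsLocalMin (fun η : ℂ => ρ (ζ, η)) c := hmin.isLocalMin hTn
  have hder : HasFDerivAt (fun η : ℂ => ρ (ζ, η))
      ((fderiv ℝ ρ (ζ, c)).comp (ContinuousLinearMap.inr ℝ ℂ ℂ)) c :=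
    (h.d1 (h.sub hcD)).comp c (inr_deriv ζ c)
  have h0 := hloc.hasFDerivAt_eq_zero hder
  have h1 : fderiv ℝ ρ (ζ, c) (0, 1) = 0 := by
    have := congrArg (fun T : ℂ →L[ℝ] ℝ => T 1) h0
    simpa using this
  have h2 : fderiv ℝ ρ (ζ, c) (0, I) = 0 := by
    have := congrArg (fun T : ℂ →L[ℝ] ℝ => T I) h0
    simpa using this
  refine ⟨c, -ρ (ζ, c), hcD, ?_, by ring⟩
  unfold fb
  rw [h1, h2]
  simp

theorem StrC.dom2 (h : StrC D O ρ) (hne : D.Nonempty) :
    ∃ l L d B CW : ℝ, Dom2 D ρ (fa ρ) (fb ρ) (fm ρ) l L d B CW := by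
  obtain ⟨l, L, d, B, hS, hB0, hB1, hB2, hB3⟩ := h.scd hne
  have hl := hS.l0
  have hL := hS.L1
  refine ⟨l, L, d, B, L ^ 2 / l ^ 2 + B, hS, ?_, ?_, fun ζ y hy => h.cen hy⟩
  · have hρc : ContinuousOn ρ D := h.C2.continuousOn.mono h.sub
    have hbc : ContinuousOn (fb ρ) D := h.fbC.continuousOn.mono h.sub
    have hmc : ContinuousOn (fm ρ) D := h.fmC.mono h.sub
    refine ⟨by positivity, hρc, h.faC.continuousOn.mono h.sub, hbc, ?_, ?_⟩
    · unfold Wf
      have h1 : ContinuousOn (fun p => ((-ρ p : ℝ) : ℂ)) D :=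
        Complex.continuous_ofReal.comp_continuousOn hρc.neg
      have h2 : ContinuousOn (fun p => ((‖fb ρ p‖ ^ 2 : ℝ) : ℂ)) D :=
        Complex.continuous_ofReal.comp_continuousOn (hbc.norm.pow 2)
      exact h1.mul (h2.add (h1.mul hmc))
    · intro ζ c τ hc η hη
      have hτ := tau_pos hS hc
      have hq : 0 < √τ := Real.sqrt_pos.2 hτ
      have hc' : Cen D ρ (fb ρ) ζ c (√τ ^ 2) := by rwa [Real.sq_sqrt hτ.le]
      obtain ⟨h1, h2, h3⟩ := sl1 hS hq hc' hη
      have h4 := hS.neg _ hη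
      have h5 := hB3 _ hη
      have hr : ‖((-ρ (ζ, η) : ℝ) : ℂ)‖ = -ρ (ζ, η) := by
        rw [Complex.norm_real, Real.norm_of_nonneg (by linarith)]
      unfold Wf
      rw [norm_mul, hr]
      have h6 : ‖(((‖fb ρ (ζ, η)‖ ^ 2 : ℝ) : ℂ) + ((-ρ (ζ, η) : ℝ) : ℂ) * fm ρ (ζ, η))‖ ≤
          (L ^ 2 / l ^ 2 + B) * τ := by
        refine (norm_add_le _ _).trans ?_
        rw [norm_mul, hr, Complex.norm_real, Real.norm_of_nonneg (by positivity)]
        rw [Real.sq_sqrt hτ.le] at h1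
        have h7 : ‖fb ρ (ζ, η)‖ ^ 2 ≤ L ^ 2 / l ^ 2 * τ := by
          calc ‖fb ρ (ζ, η)‖ ^ 2 ≤ (L * √τ / l) ^ 2 := pow_le_pow_left₀ (norm_nonneg _) h3 2
            _ = L ^ 2 / l ^ 2 * √τ ^ 2 := by ring
            _ = _ := by rw [Real.sq_sqrt hτ.le]
        have h8 : -ρ (ζ, η) * ‖fm ρ (ζ, η)‖ ≤ τ * B :=
          mul_le_mul h1 h5 (norm_nonneg _) hτ.le
        rw [add_mul]
        linarith
      calc -ρ (ζ, η) * ‖(((‖fb ρ (ζ, η)‖ ^ 2 : ℝ) : ℂ) + ((-ρ (ζ, η) : ℝ) : ℂ) * fm ρ (ζ, η))‖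
          ≤ -ρ (ζ, η) * ((L ^ 2 / l ^ 2 + B) * τ) :=
            mul_le_mul_of_nonneg_left h6 (by linarith)
        _ = _ := by ring
  · intro ζ y hy
    have hSo := Sl_open hS ζ
    have hmaps : ∀ η ∈ Sl D ζ, (ζ, η) ∈ O := fun η hη => h.sub hη
    have hcd : ContDiff ℝ 1 (fun η : ℂ => (ζ, η)) := contDiff_const.prodMk contDiff_id
    obtain ⟨c, τ, hc⟩ := h.cen hy
    have hτ := tau_pos hS hc
    have hq : 0 < √τ := Real.sqrt_pos.2 hτ
    have hc' : Cen D ρ (fb ρ) ζ c (√τ ^ 2) := by rwa [Real.sq_sqrt hτ.le]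
    refine ⟨hSo, Sl_fin hS hq hc', ?_, ?_, ?_, ?_, ?_, ?_, hy, ?_, ?_, ?_, ?_⟩
    · have h1 : ContDiffOn ℝ 1 ρ O := h.C2.of_le (by norm_num)
      exact (h1.comp hcd.contDiffOn hmaps).neg
    · intro η hη v
      have h1 : HasFDerivAt (fun η : ℂ => -ρ (ζ, η))
          (-((fderiv ℝ ρ (ζ, η)).comp (ContinuousLinearMap.inr ℝ ℂ ℂ))) η :=
        ((h.d1 (hmaps η hη)).comp η (inr_deriv ζ η)).fun_neg
      rw [h1.fderiv]
      have h2 := re_fa_fb ρ (ζ, η) (0, v)
      simp only [mul_zero, zero_add] at h2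
      simp only [_root_.neg_apply, ContinuousLinearMap.comp_apply,
        ContinuousLinearMap.inr_apply, ← h2]
      ring
    · exact h.fbC.comp hcd.contDiffOn hmaps
    · intro η hη
      have h1 : HasFDerivAt (fun η : ℂ => fb ρ (ζ, η))
          ((fderiv ℝ (fb ρ) (ζ, η)).comp (ContinuousLinearMap.inr ℝ ℂ ℂ)) η :=
        (((h.fbC.differentiableOn one_ne_zero _ (hmaps η hη)).differentiableAt
          (h.Oo.mem_nhds (hmaps η hη))).hasFDerivAt).comp η (inr_deriv ζ η)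
      unfold db fm
      rw [h1.fderiv]
      simp only [ContinuousLinearMap.comp_apply, ContinuousLinearMap.inr_apply]
    · intro ε hε
      have hK : IsCompact (closure D) := h.bdd.isCompact_closure
      have h1 : IsClosed {p | p ∈ closure D ∧ ρ p ≤ -ε} :=
        (h.C2.continuousOn.mono h.cl).preimage_isClosed_of_isClosed isClosed_closure
          (isClosed_Iic (a := -ε))
      have h2 : {η | η ∈ Sl D ζ ∧ ε ≤ -ρ (ζ, η)} =
          (fun η : ℂ => (ζ, η)) ⁻¹' {p | p ∈ closure D ∧ ρ p ≤ -ε} := by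
        ext η
        constructor
        · rintro ⟨hη, hε'⟩
          exact ⟨subset_closure hη, by simp only; linarith⟩
        · rintro ⟨hη, hε'⟩
          have hε'' : ρ (ζ, η) ≤ -ε := hε'
          refine ⟨?_, by linarith⟩
          change (ζ, η) ∈ D
          rw [h.eq]
          exact ⟨h.cl hη, by linarith⟩
      rw [h2]
      refine Metric.isCompact_of_isClosed_isBounded (h1.preimage (by fun_prop)) ?_
      have h3 : (fun η : ℂ => (ζ, η)) ⁻¹' {p | p ∈ closure D ∧ ρ p ≤ -ε} ⊆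
          (fun p : ℂ × ℂ => p.2) '' closure D := fun η hη => ⟨(ζ, η), hη.1, rfl⟩
      exact ((hK.image continuous_snd).isBounded).subset h3
    · intro η hη
      have := hS.neg _ hη
      linarith
    · intro η hη
      have h1 := p1 hS (show (ζ, η) ∈ D from hη) (hS.sub hy)
      have h2 : 0 ≤ l * (‖(0 : ℂ)‖ ^ 2 + ‖y - η‖ ^ 2) := by positivity
      unfold Ph PL at h1
      rw [sub_self ζ, mul_zero, zero_add] at h1
      linarith
    · exact fun η hη => hB1 _ hη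
    · exact fun η hη => hB2 _ hη
    · exact fun η hη => hB3 _ hη

end Pool.Agent.Y263.SC
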