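import Mathlib
import Pool.Agent.Y263.SC.Mk
import Pool.Agent.H788R3.Cor2.Conc

/-!
The corona theorem on bounded strictly convex domains of `ℂ²` for functions of one linear
coordinate and one arbitrary function, and products of such data.
-/

set_option autoImplicit false

open Set Filter Topology Metric

namespace Pool.Agent.Y263.SC

variable {D O : Set (ℂ × ℂ)} {ρ : ℂ × ℂ → ℝ}

/-- solutions with bound `C` -/
def Sol {X : Type} [NormedAddCommGroup X] [NormedSpace ℂ X] (D : Set X) {N : ℕ}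
    (F : Fin N → X → ℂ) (G : X → ℂ) (C : ℝ) : Prop :=
  ∃ (g : Fin N → X → ℂ) (g₀ : X → ℂ),
    (∀ i, DifferentiableOn ℂ (g i) D) ∧ DifferentiableOn ℂ g₀ D ∧
    (∀ i, ∀ p ∈ D, ‖g i p‖ ≤ C) ∧ (∀ p ∈ D, ‖g₀ p‖ ≤ C) ∧
    ∀ p ∈ D, ∑ i, F i p * g i p + G p * g₀ p = 1

theorem one_dir (h : StrC D O ρ) (N : ℕ) {δ : ℝ} (hδ : 0 < δ) : ∃ C : ℝ, 0 ≤ C ∧
    ∀ f : Fin N → ℂ → ℂ, (∀ i, DifferentiableOn ℂ (f i) (Prod.fst '' D)) →
      (∀ i, ∀ z ∈ Prod.fst '' D, ‖f i z‖ ≤ 1) →
      ∀ G : ℂ × ℂ → ℂ, DifferentiableOn ℂ G D → (∀ p ∈ D, ‖G p‖ ≤ 1) →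
      (∀ p ∈ D, (∀ i, ‖f i p.1‖ < δ) → δ ≤ ‖G p‖) →
      Sol D (fun i p => f i p.1) G C := by
  rcases D.eq_empty_or_nonempty with he | hne
  · refine ⟨0, le_rfl, fun f _ _ G _ _ _ => ⟨fun _ _ => 0, fun _ => 0, ?_⟩⟩
    rw [he]
    simp
  set δ' := min δ 1 with hδ'
  have hδ0 : 0 < δ' := lt_min hδ one_pos
  obtain ⟨l, L, d, B, CW, hdom⟩ := h.dom2 hne
  obtain ⟨M, hM, hext⟩ := ext_exists hdom hne hδ0
  obtain ⟨C, hC⟩ := siegelX N hδ0 (min_le_right _ _) hM
  refine ⟨max C 0, le_max_right _ _, ?_⟩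
  intro f hf hfb G hG hGb hlow
  have hDo := h.op
  have hUo : IsOpen (Prod.fst '' D : Set ℂ) := isOpenMap_fst _ hDo
  have hUc : Convex ℝ (Prod.fst '' D : Set ℂ) := by
    have := h.cvx.linear_image (LinearMap.fst ℝ ℂ ℂ)
    exact this
  have hUne : (Prod.fst '' D : Set ℂ).Nonempty := hne.image _
  have hUb : Bornology.IsBounded (Prod.fst '' D : Set ℂ) := by
    have h1 : IsCompact (closure D) := h.bdd.isCompact_closure
    exact ((h1.image continuous_fst).isBounded).subset (image_mono subset_closure)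
  have hUu : (Prod.fst '' D : Set ℂ) ≠ univ := by
    intro h1
    rw [h1] at hUb
    exact NormedSpace.unbounded_univ ℝ ℂ hUb
  have hs : ∀ p ∈ D, p.1 ∈ (Prod.fst '' D : Set ℂ) := fun p hp => mem_image_of_mem _ hp
  have hlow' : ∀ p ∈ D, (∀ i, ‖f i p.1‖ < δ') → δ' ≤ ‖G p‖ := by
    intro p hp hi
    exact (min_le_left _ _).trans (hlow p hp (fun i => lt_of_lt_of_le (hi i) (min_le_left _ _)))
  have he := hext (AU (Prod.fst '' D) f δ') G hG (by
    rintro ζ ⟨⟨p, hp, rfl⟩, -⟩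
    exact ⟨p.2, hp⟩) (by
    rintro ζ ⟨-, hζ⟩ y hy
    exact hlow' (ζ, y) hy hζ)
  obtain ⟨g, g₀, h1, h2, h3, h4, h5⟩ := base_thmX hδ0 hC hUo
    (Pool.Agent.H788R3.Cor2.conv_sc hUc hUne) hUu hUne hDo hs f hf hfb G hG hGb hlow' he
  exact ⟨g, g₀, h1, h2, fun i p hp => (h3 i p hp).trans (le_max_left _ _),
    fun p hp => (h4 p hp).trans (le_max_left _ _), h5⟩

/-- a linear isomorphism with prescribed first coordinate -/
theorem exists_iso (α : ℂ × ℂ →L[ℂ] ℂ) (hα : α ≠ 0) :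
    ∃ T : (ℂ × ℂ) ≃L[ℂ] (ℂ × ℂ), ∀ z, (T z).1 = α z := by
  have hz : ∀ z : ℂ × ℂ, α z = z.1 * α (1, 0) + z.2 * α (0, 1) := by
    intro z
    have : z = z.1 • ((1 : ℂ), (0 : ℂ)) + z.2 • ((0 : ℂ), (1 : ℂ)) := by
      ext <;> simp
    conv_lhs => rw [this]
    rw [map_add, map_smul, map_smul, smul_eq_mul, smul_eq_mul]
  by_cases h1 : α (1, 0) = 0
  · have h2 : α (0, 1) ≠ 0 := by
      intro h2
      apply hα
      ext
      · simp [h1]
      · simp [h2]
    refine ⟨ContinuousLinearEquiv.equivOfInverse (α.prod (ContinuousLinearMap.fst ℂ ℂ ℂ))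
      ((ContinuousLinearMap.snd ℂ ℂ ℂ).prod
        ((α (0, 1))⁻¹ • (ContinuousLinearMap.fst ℂ ℂ ℂ - α (1, 0) • ContinuousLinearMap.snd ℂ ℂ ℂ)))
      ?_ ?_, fun z => rfl⟩
    · intro z
      ext
      · simp
      · simp only [ContinuousLinearMap.prod_apply, ContinuousLinearMap.coe_fst',
          ContinuousLinearMap.coe_snd', _root_.smul_apply, _root_.sub_apply, smul_eq_mul]
        rw [hz z]
        field_simp
        ring
    · intro z
      ext
      · simp only [ContinuousLinearMap.prod_apply, ContinuousLinearMap.coe_fst',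
          ContinuousLinearMap.coe_snd', _root_.smul_apply, _root_.sub_apply, smul_eq_mul]
        rw [hz]
        simp only
        field_simp
        ring
      · simp
  · refine ⟨ContinuousLinearEquiv.equivOfInverse (α.prod (ContinuousLinearMap.snd ℂ ℂ ℂ))
      (((α (1, 0))⁻¹ • (ContinuousLinearMap.fst ℂ ℂ ℂ - α (0, 1) •
        ContinuousLinearMap.snd ℂ ℂ ℂ)).prod (ContinuousLinearMap.snd ℂ ℂ ℂ))
      ?_ ?_, fun z => rfl⟩
    · intro z
      ext
      · simp only [ContinuousLinearMap.prod_apply, ContinuousLinearMap.coe_fst',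
          ContinuousLinearMap.coe_snd', _root_.smul_apply, _root_.sub_apply, smul_eq_mul]
        rw [hz z]
        field_simp
        ring
      · simp
    · intro z
      ext
      · simp only [ContinuousLinearMap.prod_apply, ContinuousLinearMap.coe_fst',
          ContinuousLinearMap.coe_snd', _root_.smul_apply, _root_.sub_apply, smul_eq_mul]
        rw [hz]
        simp only
        field_simp
        ring
      · simp

/-- images under linear isomorphisms -/
theorem StrC.image (h : StrC D O ρ) (T : (ℂ × ℂ) ≃L[ℂ] (ℂ × ℂ)) :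
    StrC (T '' D) (T '' O) (fun p => ρ (T.symm p)) := by
  have hpre : ∀ A : Set (ℂ × ℂ), T '' A = {p | T.symm p ∈ A} := by
    intro A
    ext p
    constructor
    · rintro ⟨x, hx, rfl⟩
      simpa using hx
    · intro hp
      exact ⟨T.symm p, hp, by simp⟩
  have hcl : closure (T '' D) = T '' closure D := (T.toHomeomorph.image_closure D).symm
  have hSd : ∀ p, HasFDerivAt (fun p => T.symm p)
      ((T.symm : (ℂ × ℂ) →L[ℂ] (ℂ × ℂ)).restrictScalars ℝ) p := fun p =>
    (T.symm.hasFDerivAt (x := p)).restrictScalars ℝ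
  have hOo : IsOpen (T '' O) := by
    rw [hpre]
    exact h.Oo.preimage T.symm.continuous
  refine ⟨hOo, ?_, ?_, ?_, ?_, ?_, ?_⟩
  · rw [hcl]
    exact image_mono h.cl
  · have h1 : ContDiff ℝ 2 (fun p => T.symm p) :=
      (T.symm.contDiff (n := 2)).restrict_scalars ℝ
    refine h.C2.comp h1.contDiffOn ?_
    rw [hpre]
    exact fun p hp => hp
  · rw [hpre, hpre, h.eq]
    rfl
  · have h1 : IsCompact (closure D) := h.bdd.isCompact_closure
    exact ((h1.image T.continuous).isBounded).subset (image_mono subset_closure)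
  · have := h.cvx.linear_image ((T : (ℂ × ℂ) →L[ℂ] (ℂ × ℂ)).restrictScalars ℝ).toLinearMap
    exact this
  · intro p hp v hv
    rw [hcl, hpre] at hp
    have hp' : T.symm p ∈ closure D := hp
    have hpO : T.symm p ∈ O := h.cl hp'
    have hpO' : p ∈ T '' O := by
      rw [hpre]
      exact hpO
    have hfd : ∀ q ∈ T '' O, ∀ u, fderiv ℝ (fun p => ρ (T.symm p)) q u =
        fderiv ℝ ρ (T.symm q) (T.symm u) := by
      intro q hq u
      rw [hpre] at hq
      have h1 := (h.d1 (show T.symm q ∈ O from hq)).comp q (hSd q)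
      have h2 : fderiv ℝ (fun p => ρ (T.symm p)) q = (fderiv ℝ ρ (T.symm q)).comp
        ((T.symm : (ℂ × ℂ) →L[ℂ] (ℂ × ℂ)).restrictScalars ℝ) := h1.fderiv
      rw [h2]
      rfl
    -- the function `q ↦ fderiv (ρ ∘ T⁻¹) q v`
    have hC2' : ContDiffOn ℝ 2 (fun p => ρ (T.symm p)) (T '' O) := by
      have h1 : ContDiff ℝ 2 (fun p => T.symm p) :=
        (T.symm.contDiff (n := 2)).restrict_scalars ℝ
      refine h.C2.comp h1.contDiffOn ?_
      rw [hpre]
      exact fun p hp => hp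
    have hf1 : ContDiffOn ℝ 1 (fderiv ℝ (fun p => ρ (T.symm p))) (T '' O) :=
      hC2'.fderiv_of_isOpen hOo (by norm_num)
    have hd2 : HasFDerivAt (fderiv ℝ (fun p => ρ (T.symm p)))
        (fderiv ℝ (fderiv ℝ (fun p => ρ (T.symm p))) p) p :=
      ((hf1.differentiableOn (by norm_num) p hpO').differentiableAt
        (hOo.mem_nhds hpO')).hasFDerivAt
    have e1 : HasFDerivAt (fun q => fderiv ℝ (fun p => ρ (T.symm p)) q v)
        ((fderiv ℝ (fderiv ℝ (fun p => ρ (T.symm p))) p).flip v) p := by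
      have := hd2.clm_apply (hasFDerivAt_const v p)
      simpa using this
    have e2 : HasFDerivAt (fun q => fderiv ℝ ρ (T.symm q) (T.symm v))
        ((((fderiv ℝ (fderiv ℝ ρ) (T.symm p)).comp
          ((T.symm : (ℂ × ℂ) →L[ℂ] (ℂ × ℂ)).restrictScalars ℝ))).flip (T.symm v)) p := by
      have h1 := (h.d2 hpO).comp p (hSd p)
      have := h1.clm_apply (hasFDerivAt_const (T.symm v) p)
      simpa using this
    have hev : (fun q => fderiv ℝ (fun p => ρ (T.symm p)) q v) =ᶠ[𝓝 p]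
        fun q => fderiv ℝ ρ (T.symm q) (T.symm v) := by
      filter_upwards [hOo.mem_nhds hpO'] with q hq
      exact hfd q hq v
    have e3 := (e2.congr_of_eventuallyEq hev).unique e1
    have e4 := congrArg (fun S : (ℂ × ℂ) →L[ℝ] ℝ => S v) e3
    simp only [ContinuousLinearMap.flip_apply] at e4
    rw [← e4]
    have h5 := h.hess _ hp' (T.symm v) (by
      intro h0
      apply hv
      simpa using h0)
    exact h5

theorem one_lin (h : StrC D O ρ) (N : ℕ) (α : ℂ × ℂ →L[ℂ] ℂ) (hα : α ≠ 0) {δ : ℝ}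
    (hδ : 0 < δ) : ∃ C : ℝ, 0 ≤ C ∧
    ∀ f : Fin N → ℂ → ℂ, (∀ i, DifferentiableOn ℂ (f i) (α '' D)) →
      (∀ i, ∀ z ∈ α '' D, ‖f i z‖ ≤ 1) →
      ∀ G : ℂ × ℂ → ℂ, DifferentiableOn ℂ G D → (∀ p ∈ D, ‖G p‖ ≤ 1) →
      (∀ p ∈ D, (∀ i, ‖f i (α p)‖ < δ) → δ ≤ ‖G p‖) →
      Sol D (fun i p => f i (α p)) G C := by
  obtain ⟨T, hT⟩ := exists_iso α hα
  obtain ⟨C, hC0, hC⟩ := one_dir (h.image T) N hδ
  refine ⟨C, hC0, ?_⟩
  intro f hf hfb G hG hGb hlow
  have himg : (Prod.fst '' (T '' D) : Set ℂ) = α '' D := by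
    rw [image_image]
    exact image_congr (fun z _ => hT z)
  have hmaps : MapsTo (fun p => T.symm p) (T '' D) D := by
    rintro _ ⟨x, hx, rfl⟩
    simpa using hx
  obtain ⟨g, g₀, h1, h2, h3, h4, h5⟩ := hC f (by rwa [himg]) (by rwa [himg])
    (fun p => G (T.symm p)) (hG.comp T.symm.differentiable.differentiableOn hmaps)
    (fun p hp => hGb _ (hmaps hp)) (by
      rintro _ ⟨x, hx, rfl⟩ hi
      have h1 := hlow x hx (fun i => by
        have := hi i
        rwa [hT x] at this)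
      simpa using h1)
  have hmaps2 : MapsTo (fun p => T p) D (T '' D) := fun p hp => mem_image_of_mem _ hp
  refine ⟨fun i p => g i (T p), fun p => g₀ (T p),
    fun i => (h1 i).comp T.differentiable.differentiableOn hmaps2,
    h2.comp T.differentiable.differentiableOn hmaps2, fun i p hp => h3 i _ (hmaps2 hp),
    fun p hp => h4 _ (hmaps2 hp), fun p hp => ?_⟩
  have h6 := h5 _ (hmaps2 hp)
  simp only [ContinuousLinearEquiv.symm_apply_apply, hT] at h6
  exact h6

theorem diff_prod {X : Type*} [NormedAddCommGroup X] [NormedSpace ℂ X] {B : Set X} {J : Type*}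
    (T : Finset J) (F : J → X → ℂ) (h : ∀ j ∈ T, DifferentiableOn ℂ (F j) B) :
    DifferentiableOn ℂ (fun z => ∏ j ∈ T, F j z) B := by
  classical
  induction T using Finset.induction_on with
  | empty => simp only [Finset.prod_empty]; exact differentiableOn_const _
  | insert i T hi ih =>
    have h1 := (h i (Finset.mem_insert_self _ _)).fun_mul
      (ih (fun j hj => h j (Finset.mem_insert_of_mem hj)))
    refine h1.congr (fun z _ => ?_)
    rw [Finset.prod_insert hi]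

/-- products of corona data -/
theorem prod_sol {X : Type} [NormedAddCommGroup X] [NormedSpace ℂ X] {D : Set X} {m : ℕ}
    {N : Fin m → ℕ} {F : (j : Fin m) → Fin (N j) → X → ℂ} {G : X → ℂ} {C : ℝ} (hCpos : 0 < C)
    (hF : ∀ j i, DifferentiableOn ℂ (F j i) D) (hGb : ∀ p ∈ D, ‖G p‖ ≤ 1)
    (hS : ∀ j, Sol D (F j) G C) :
    ∃ (g : ((j : Fin m) → Fin (N j)) → X → ℂ) (g₀ : X → ℂ),
        (∀ ι, DifferentiableOn ℂ (g ι) D) ∧ DifferentiableOn ℂ g₀ D ∧
        (∀ ι, ∀ z ∈ D, ‖g ι z‖ ≤ max (C ^ m) (m * (C * (1 + C) ^ m))) ∧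
        (∀ z ∈ D, ‖g₀ z‖ ≤ max (C ^ m) (m * (C * (1 + C) ^ m))) ∧
        ∀ z ∈ D, ∑ ι, (∏ j, F j (ι j) z) * g ι z + G z * g₀ z = 1 := by
  classical
  choose g g₀ hg1 hg2 hg3 hg4 hg5 using hS
  set A : Fin m → X → ℂ := fun j z => ∑ i, F j i z * g j i z with hA
  have hAd : ∀ j, DifferentiableOn ℂ (A j) D := fun j =>
    DifferentiableOn.fun_sum (fun i _ => (hF j i).fun_mul (hg1 j i))
  have hAe : ∀ j, ∀ z ∈ D, A j z = 1 - G z * g₀ j z := by
    intro j z hz
    have := hg5 j z hz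
    simp only [hA]
    linear_combination this
  have hAb : ∀ j, ∀ z ∈ D, ‖A j z‖ ≤ 1 + C := by
    intro j z hz
    rw [hAe j z hz]
    refine (norm_sub_le _ _).trans ?_
    rw [norm_one, norm_mul]
    have h1 := hGb z hz
    have h2 := hg4 j z hz
    have h3 : ‖G z‖ * ‖g₀ j z‖ ≤ 1 * C := by gcongr
    linarith
  refine ⟨fun ι z => ∏ j, g j (ι j) z,
    fun z => ∑ j, g₀ j z * ∏ i ∈ Finset.univ.filter (fun i => i < j), A i z, ?_, ?_, ?_, ?_, ?_⟩
  · intro ι
    exact diff_prod _ (fun j z => g j (ι j) z) (fun j _ => hg1 j (ι j))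
  · refine DifferentiableOn.fun_sum (fun j _ => (hg2 j).fun_mul ?_)
    exact diff_prod _ A (fun i _ => hAd i)
  · intro ι z hz
    rw [norm_prod]
    refine le_trans ?_ (le_max_left _ _)
    calc ∏ j, ‖g j (ι j) z‖ ≤ ∏ _j : Fin m, C :=
          Finset.prod_le_prod (fun _ _ => norm_nonneg _)
            (fun j _ => hg3 j (ι j) z hz)
      _ = C ^ m := by simp
  · intro z hz
    refine le_trans ?_ (le_max_right _ _)
    refine (norm_sum_le _ _).trans ?_
    have h1 : ∀ j ∈ Finset.univ, ‖g₀ j z * ∏ i ∈ Finset.univ.filter (fun i => i < j), A i z‖ ≤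
        C * (1 + C) ^ m := by
      intro j _
      rw [norm_mul, norm_prod]
      have h2 := hg4 j z hz
      have h3 : ∏ i ∈ Finset.univ.filter (fun i => i < j), ‖A i z‖ ≤ (1 + C) ^ m := by
        calc ∏ i ∈ Finset.univ.filter (fun i => i < j), ‖A i z‖
            ≤ ∏ _i ∈ Finset.univ.filter (fun i => i < j), (1 + C) :=
              Finset.prod_le_prod (fun _ _ => norm_nonneg _) (fun i _ => hAb i z hz)
          _ = (1 + C) ^ (Finset.univ.filter (fun i => i < j)).card := by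
              rw [Finset.prod_const]
          _ ≤ (1 + C) ^ m := by
              refine pow_le_pow_right₀ (by linarith) ?_
              refine (Finset.card_filter_le _ _).trans ?_
              simp
      exact mul_le_mul h2 h3 (Finset.prod_nonneg fun _ _ => norm_nonneg _) hCpos.le
    refine (Finset.sum_le_sum h1).trans (le_of_eq ?_)
    simp
  · intro z hz
    have h1 := Finset.prod_one_sub_ordered (Finset.univ : Finset (Fin m)) (fun j => G z * g₀ j z)
    have h2 : ∏ j, A j z = ∏ j, (1 - G z * g₀ j z) :=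
      Finset.prod_congr rfl (fun j _ => hAe j z hz)
    have h3 : ∀ j, ∏ i ∈ Finset.univ.filter (fun i => i < j), A i z =
        ∏ i ∈ Finset.univ.filter (fun i => i < j), (1 - G z * g₀ i z) := fun j =>
      Finset.prod_congr rfl (fun i _ => hAe i z hz)
    have h4 : ∏ j, A j z = ∑ ι : (j : Fin m) → Fin (N j),
        (∏ j, F j (ι j) z) * ∏ j, g j (ι j) z := by
      simp only [hA]
      rw [Finset.prod_univ_sum, Fintype.piFinset_univ]
      refine Finset.sum_congr rfl (fun ι _ => ?_)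
      rw [Finset.prod_mul_distrib]
    rw [← h4, h2, h1]
    simp only [h3]
    rw [Finset.mul_sum]
    have h5 : ∀ j, G z * (g₀ j z * ∏ i ∈ Finset.univ.filter (fun i => i < j), (1 - G z * g₀ i z)) =
        G z * g₀ j z * ∏ i ∈ Finset.univ.filter (fun i => i < j), (1 - G z * g₀ i z) :=
      fun j => by ring
    simp only [h5]
    ring

/-- **Main theorem.** -/
theorem main (h : StrC D O ρ) (m : ℕ) (N : Fin m → ℕ) (α : Fin m → (ℂ × ℂ →L[ℂ] ℂ))
    (hα : ∀ j, α j ≠ 0) {δ : ℝ} (hδ : 0 < δ) :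
    ∃ C : ℝ, ∀ (f : (j : Fin m) → Fin (N j) → ℂ → ℂ),
      (∀ j i, DifferentiableOn ℂ (f j i) (α j '' D)) →
      (∀ j i, ∀ x ∈ α j '' D, ‖f j i x‖ ≤ 1) →
      ∀ (G : ℂ × ℂ → ℂ), DifferentiableOn ℂ G D → (∀ z ∈ D, ‖G z‖ ≤ 1) →
      (∀ z ∈ D,
        δ ≤ (∑ ι : (j : Fin m) → Fin (N j), ‖∏ j, f j (ι j) (α j z)‖) + ‖G z‖) →
      ∃ (g : ((j : Fin m) → Fin (N j)) → ℂ × ℂ → ℂ) (g₀ : ℂ × ℂ → ℂ),
        (∀ ι, DifferentiableOn ℂ (g ι) D) ∧ DifferentiableOn ℂ g₀ D ∧
        (∀ ι, ∀ z ∈ D, ‖g ι z‖ ≤ C) ∧ (∀ z ∈ D, ‖g₀ z‖ ≤ C) ∧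
        ∀ z ∈ D, ∑ ι, (∏ j, f j (ι j) (α j z)) * g ι z + G z * g₀ z = 1 := by
  classical
  set P : ℕ := Fintype.card ((j : Fin m) → Fin (N j)) with hP
  set δ' : ℝ := δ / (P + 1) with hδ'
  have hP0 : (0 : ℝ) < P + 1 := by positivity
  have hδ'pos : 0 < δ' := by positivity
  choose Cf hC0 hCf using fun j => one_lin h (N j) (α j) (hα j) hδ'pos
  obtain ⟨C, hC1, hC⟩ : ∃ C : ℝ, 1 ≤ C ∧ ∀ j, Cf j ≤ C := by
    refine ⟨1 + ∑ j, Cf j, by
      have := Finset.sum_nonneg (s := Finset.univ) (f := Cf) (fun j _ => hC0 j)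
      linarith, fun j => ?_⟩
    have := Finset.single_le_sum (f := Cf) (fun i _ => hC0 i) (Finset.mem_univ j)
    linarith
  have hCpos : 0 < C := by linarith
  refine ⟨max (C ^ m) (m * (C * (1 + C) ^ m)), ?_⟩
  intro f hf hfb G hG hGb hlow
  have hstep : ∀ j, ∀ z ∈ D, (∀ i, ‖f j i (α j z)‖ < δ') → δ' ≤ ‖G z‖ := by
    intro j z hz hsmall
    have h1 := hlow z hz
    by_contra hlt
    push Not at hlt
    have h2 : ∀ ι : (j : Fin m) → Fin (N j), ‖∏ j, f j (ι j) (α j z)‖ ≤ δ' := by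
      intro ι
      rw [norm_prod, ← Finset.mul_prod_erase Finset.univ _ (Finset.mem_univ j)]
      refine (mul_le_of_le_one_right (norm_nonneg _) ?_).trans (hsmall (ι j)).le
      exact Finset.prod_le_one (fun _ _ => norm_nonneg _)
        (fun i _ => hfb i (ι i) _ (mem_image_of_mem _ hz))
    have h3 : ∑ ι : (j : Fin m) → Fin (N j), ‖∏ j, f j (ι j) (α j z)‖ ≤ P * δ' := by
      refine (Finset.sum_le_sum (fun ι _ => h2 ι)).trans (le_of_eq ?_)
      rw [Finset.sum_const, Finset.card_univ, nsmul_eq_mul]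
    have h4 : δ = P * δ' + δ' := by
      rw [hδ']
      field_simp
    linarith
  refine prod_sol (F := fun j i z => f j i (α j z)) hCpos ?_ hGb ?_
  · intro j i
    exact (hf j i).comp (α j).differentiable.differentiableOn (fun z hz => mem_image_of_mem _ hz)
  · intro j
    obtain ⟨g, g₀, h1, h2, h3, h4, h5⟩ := hCf j (f j) (hf j) (hfb j) G hG hGb (hstep j)
    exact ⟨g, g₀, h1, h2, fun i p hp => (h3 i p hp).trans (hC j),
      fun p hp => (h4 p hp).trans (hC j), h5⟩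

end Pool.Agent.Y263.SC
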